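import Pool.Agent.P.MP_e0c037_lc.BD.Base
import Pool.Agent.P.MP_e0c037_lc.Main

/-! The polynomial-time algorithm for the sign on the two boundary curves. -/

namespace Pool.Agent.P.MP_e0c037_lc.BD

open Finset SG Pool.Agent.Lib.helper21

namespace AlgoB

theorem isK_cn {k : KF} (h : IsK k) (T : Finset ℕ) : IsK (cn k T) where
  le A e := by unfold cn; rw [insert_union]; exact h.le _ _
  ge A e := by unfold cn; rw [insert_union]; exact h.ge _ _
  dim A B e hAB := by
    unfold cn; rw [insert_union, insert_union]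
    exact h.dim _ _ e (union_subset_union hAB Subset.rfl)

theorem sp_sub {k : KF} (h : IsK k) {E K F : Finset ℕ} (hK : K ⊆ E) (hs : Sp k E K) (hF : F ⊆ E)
    (hF' : E \ K ⊆ F) : k (K ∩ F) + k (E \ K) = k ∅ + k F := by
  have h1 := hs.restrict h hK hF
  have e : F \ (K ∩ F) = E \ K := by
    ext z; simp only [mem_sdiff, mem_inter]
    have := @hF z; have := @hF' z; rw [mem_sdiff] at this; tauto
  unfold Sp at h1
  rwa [e] at h1

/-- A series pair of a separator is a series pair of the whole set. -/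
theorem ser_of_sp {k : KF} (h : IsK k) {E K : Finset ℕ} {x y : ℕ} (hK : K ⊆ E) (hs : Sp k E K)
    (hx : x ∈ K) (hy : y ∈ K) (p : Ser k K x y) : Ser k E x y := by
  have key : ∀ z ∈ K, E \ K ⊆ E.erase z := fun z hz w hw =>
    mem_erase.2 ⟨fun hh => (mem_sdiff.1 hw).2 (hh ▸ hz), (mem_sdiff.1 hw).1⟩
  have a1 := sp_sub h hK hs (erase_subset x E) (key x hx)
  have a2 := sp_sub h hK hs (erase_subset y E) (key y hy)
  have a3 := sp_sub h hK hs ((erase_subset x _).trans (erase_subset y E)) fun w hw =>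
    mem_erase.2 ⟨fun hh => (mem_sdiff.1 hw).2 (hh ▸ hx), key y hy hw⟩
  simp only [inter_erase, inter_eq_left.2 hK] at a1 a2 a3
  obtain ⟨p1, p2, p3⟩ := p
  unfold Sp at hs
  exact ⟨by omega, by omega, by omega⟩

theorem sign_of {ε z : ℝ} {s : ℤ} (hs : s = 1 ∧ ε = 1 ∨ s = -1 ∧ ε = -1) (m : ℕ)
    (h : 0 < ε * ((-1) ^ m * z)) : s * (-1) ^ m = (SignType.sign z : ℤ) := by
  rcases Nat.even_or_odd m with hm | hm <;> rw [hm.neg_one_pow] at h ⊢ <;>
    rcases hs with ⟨rfl, rfl⟩ | ⟨rfl, rfl⟩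
  · rw [sign_pos (by simpa using h)]; rfl
  · rw [sign_neg (by simpa using h)]; rfl
  · rw [sign_neg (by simpa using h)]; rfl
  · rw [sign_pos (by simpa using h)]; rfl

theorem prod_two (A : List ℕ) (a b : ℝ) (S : List ℕ) :
    (S.map fun x => if x ∈ A.toFinset then a else b).prod =
      a ^ (S.filter fun x => memb x A).length * b ^ (S.filter fun x => !memb x A).length := by
  induction S with
  | nil => simp
  | cons x S ih =>
    rw [List.map_cons, List.prod_cons, ih]
    by_cases hx : x ∈ A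
    · have : memb x A = true := by
        rw [← Bool.not_eq_false, memb_iff]; exact not_not.2 hx
      simp only [List.mem_toFinset, hx, if_true, List.filter_cons, this, Bool.not_true,
        List.length_cons, Bool.false_eq_true, if_false]
      ring
    · have : memb x A = false := memb_iff.2 hx
      simp only [List.mem_toFinset, hx, if_true, List.filter_cons, this, Bool.not_false,
        List.length_cons, Bool.false_eq_true, if_false]
      ring

/-- The exponents for all subsets of a small part. -/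
def prf (κ : Inp × List ℕ → ℕ) (M : ℕ) (G : Inp) (A K : List ℕ) : List (ℕ × ℕ) :=
  (subs M K).map fun S => (κ (G, S) - κ (G, K) + (S.filter fun x => memb x A).length,
    κ (G, S) - κ (G, K) + (S.filter fun x => !memb x A).length)

theorem prf_spec {κ : Inp × List ℕ → ℕ} {k : Inp → KF} (o : Orc κ k) {G : Inp} (hG : Valid G)
    {M : ℕ} {K : List ℕ} (A : List ℕ) (hK : K.Nodup) (hK' : ∀ i ∈ K, i < G.2.length)
    (hM : K.length ≤ M) (a b : ℝ) :
    ((prf κ M G A K).length ≤ 2 ^ M ∧ ∀ p ∈ prf κ M G A K, p.1 ≤ 2 * M ∧ p.2 ≤ 2 * M) ∧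
    Zk (a * b) (k G) (fun x => if x ∈ A.toFinset then a else b) K.toFinset =
      (a * b) ^ k G K.toFinset * ((prf κ M G A K).map fun p => a ^ p.1 * b ^ p.2).sum := by
  have h := o.isK G
  have h0 : κ (G, K) = k G K.toFinset := o.eq G hG K hK'
  have key : ∀ S ∈ subs M K, κ (G, S) = k G S.toFinset ∧ S.Nodup ∧
      S.length ≤ M ∧ S.toFinset ⊆ K.toFinset := fun S hS => by
    have hs := subs_sub M K S hS
    exact ⟨o.eq G hG S fun i hi => hK' i (hs.subset hi), hK.sublist hs, hs.length_le.trans hM,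
      fun i hi => List.mem_toFinset.2 (hs.subset (List.mem_toFinset.1 hi))⟩
  refine ⟨⟨by simpa [prf] using subs_len M K, fun p hp => ?_⟩, ?_⟩
  · obtain ⟨S, hS, rfl⟩ := List.mem_map.1 hp
    obtain ⟨a1, -, a3, -⟩ := key S hS
    have b1 := h.rank_le K.toFinset
    have b2 := h.anti (empty_subset S.toFinset)
    have b3 := List.toFinset_card_of_nodup hK
    have b4 := List.length_filter_le (fun x => memb x A) S
    have b5 := List.length_filter_le (fun x => !memb x A) S
    constructor <;> dsimp only <;> omega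
  · unfold Zk prf
    rw [← subs_sum M K _ hK hM, List.map_map, ← List.sum_map_mul_left]
    congr 1
    refine List.map_congr_left fun S hS => ?_
    obtain ⟨a1, a2, -, a4⟩ := key S hS
    rw [List.prod_toFinset _ a2, prod_two]
    simp only [Function.comp, a1, h0]
    obtain ⟨d, hd⟩ := Nat.exists_eq_add_of_le (h.anti a4)
    rw [hd, Nat.add_sub_cancel_left]
    ring

theorem wf0 {k : KF} (h : IsK k) (m : ℕ) (b : Bool) : (st0 k m b).WF := by
  cases b
  · exact ⟨h, empty_subset _, Subset.rfl, disjoint_empty_left _⟩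
  · exact ⟨h, Subset.rfl, empty_subset _, disjoint_empty_right _⟩

theorem dich (G : Inp) (q r : ℝ) (b : Bool) :
    dichromatic G.1 G.2 q (cond b (-1 - r) (r ^ 2 - 1)) =
      Zk q (comps G.1 G.2) (wt r (st0 (comps G.1 G.2) G.2.length b) fun _ => 0)
        (range G.2.length) := by
  have e1 : ∀ v, dichromatic G.1 G.2 q v =
      Zk q (comps G.1 G.2) (fun _ => v) (range G.2.length) := fun v => by
    simp [dichromatic, Zk]
  rw [e1]
  refine Zk_congr (fun _ _ => rfl) fun e he => ?_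
  cases b
  · exact (wt_B (wf0 (isK_comps _ _) _ false) he).symm
  · exact (wt_A (s := st0 (comps G.1 G.2) G.2.length true) he).symm

theorem easy (h1 : S_Norm) (h2 : SG.S_Parts) (h3 : SG.S_Dual) (h4 : SG.S_Mc) {q r ε κ0 : ℝ}
    (pm : Pm q r ε κ0) (hP : Pos Gr q r ε) (b : Bool) :
    Easy q (cond b (-1 - r) (r ^ 2 - 1)) := by
  obtain ⟨M, hM⟩ := hP
  obtain ⟨κ, o⟩ := h3.1
  obtain ⟨C, A, B, pC, pA, pB, hN⟩ := h1 κ _ o b
  have p3 := o.pt
  have o' : Orc (fun p => κ (p.1, p.2 ++ C p.1))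
      fun G => cn (comps G.1 G.2) (C G).toFinset :=
    ⟨by fun_prop, fun G => isK_cn (o.isK G) _, fun G hG D hD => by
      rw [o.eq G hG _ fun i hi => (List.mem_append.1 hi).elim (hD i) ((hN G hG).2.1 i),
        List.toFinset_append]; rfl⟩
  generalize (fun p : Inp × List ℕ => κ (p.1, p.2 ++ C p.1)) = κ' at o'
  obtain ⟨pts, p1, hp⟩ := h2 _ _ o'
  obtain ⟨g, hg1, hg2⟩ := pt_table
    (fun l => (SignType.sign (l.map fun p => (-1 - r) ^ p.1 * (r ^ 2 - 1) ^ p.2).sum : ℤ))
    (finite_short (2 ^ M) (2 * M))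
  obtain ⟨s, hs⟩ : ∃ s : ℤ, s = 1 ∧ ε = 1 ∨ s = -1 ∧ ε = -1 :=
    pm.sys.eps.elim (fun h => ⟨1, .inl ⟨rfl, h⟩⟩) fun h => ⟨-1, .inr ⟨rfl, h⟩⟩
  have p2 := pt_subs M
  have p4 := o'.pt
  have hq := pm.sys.q0
  have r0 : 0 < r := by linarith [pm.r0]
  have eq : q = (-1 - r) * (r ^ 2 - 1) := by rw [pm.hq]; ring
  refine ⟨fun G => (-1 : ℤ) ^ (C G).length *
    ((pts (G, A G ++ B G)).map fun K => cond (decide (M ≤ K.length))
      (s * (-1 : ℤ) ^ (κ' (G, []) + κ' (G, K))) (g (prf κ' M G (A G) K))).prod, ?_,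
    fun G hG => ?_⟩
  · unfold prf memb
    fun_prop
  obtain ⟨k1, -, k3, k4⟩ := hN G hG
  have w0 := wf0 (o.isK G) G.2.length b
  have w := k3.wf w0
  have gr := k3.mc h4.1 w0
    ⟨o.isK G, G.1, G.2, 0, hG, Subset.rfl, fun _ _ => rfl⟩
  have k2 : ∀ i ∈ A G ++ B G, i < G.2.length := fun i hi =>
    mem_range.1 (k3.sub (List.mem_toFinset.2 hi))
  obtain ⟨d1, d⟩ := hp G hG _ k1 k2
  have z := k3.Z (u := fun _ => 0) pm.hq r0 pm.r1 w0
  rw [dich]
  refine Eq.trans ?_ (congrArg (fun x : ℝ => (SignType.sign x : ℤ)) z).symm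
  dsimp only
  rw [sign_mul, sign_pow, sign_neg (ser_val pm.hq r0 pm.r1).1, d.sign (o'.isK G) hq,
    SignType.coe_mul, SignType.coe_pow, cast_prod, List.map_map, List.map_map]
  refine congrArg₂ (· * ·) rfl (congrArg List.prod ?_)
  refine List.map_congr_left fun K hK => ?_
  obtain ⟨a1, a2, a4⟩ := d.part _ (List.mem_map_of_mem hK)
  have a3 : ∀ i ∈ K, i < G.2.length := fun i hi =>
    k2 i (List.mem_toFinset.1 (a1 (List.mem_toFinset.2 hi)))
  have a5 : ∀ i ∈ K.toFinset, i ∈ (A G).toFinset ∨ i ∈ (B G).toFinset := fun i hi => by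
    have := a1 hi
    rwa [List.toFinset_append, mem_union] at this
  simp only [Function.comp, Bool.cond_decide]
  split_ifs with hh
  · have b1 := hM ⟨cn (comps G.1 G.2) (C G).toFinset, K.toFinset, (A G).toFinset ∩ K.toFinset,
        (B G).toFinset ∩ K.toFinset⟩ (h4.1.del _ _ _ gr a1)
      ⟨w.isK, inter_subset_right, inter_subset_right,
        w.dj.mono inter_subset_left inter_subset_left⟩ a2
      ⟨k4.1.mono inter_subset_left, fun x hx y hy hxy p =>
        k4.2 x (mem_inter.1 hx).1 y (mem_inter.1 hy).1 hxy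
          (ser_of_sp w.isK a1 a4 (mem_inter.1 hx).2 (mem_inter.1 hy).2 p)⟩
      (fun i hi => by simpa only [mem_union, mem_inter, hi, and_true] using a5 i hi)
      (by rwa [List.toFinset_card_of_nodup (d1 K hK)])
    have h0 : κ' (G, []) = cn (comps G.1 G.2) (C G).toFinset ∅ := by
      simpa using o'.eq G hG [] (by simp)
    rw [o'.eq G hG K a3, h0]
    refine sign_of hs _ (b1.trans_eq ?_)
    unfold sg
    rw [Zk_congr (fun _ _ => rfl) fun e he => ?_]
    simp only [wt, mem_inter, he, and_true]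
  · obtain ⟨b1, b2⟩ := prf_spec o' hG (A G) (d1 K hK) a3 (le_of_not_ge hh) (-1 - r) (r ^ 2 - 1)
    rw [← eq] at b2
    rw [hg2 _ b1, Zk_congr (fun _ _ => rfl) fun e he => ?_, b2, sign_mul,
      sign_pos (pow_pos hq _), one_mul]
    unfold wt
    split_ifs with c1 c2
    · rfl
    · rfl
    · exact absurd ((a5 e he).resolve_left c1) c2

end AlgoB

theorem p_Algo (h1 : S_Norm) (h2 : SG.S_Parts) (h3 : SG.S_Dual) (h4 : SG.S_Mc) : S_Algo :=
  fun _ _ _ _ pm hP => ⟨AlgoB.easy h1 h2 h3 h4 pm hP true, AlgoB.easy h1 h2 h3 h4 pm hP false⟩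

end Pool.Agent.P.MP_e0c037_lc.BD
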