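import Pool.Agent.P.MP_e0c037_lc.BD.Base

/-! Lifting special merges from a torso to the whole count. -/

namespace Pool.Agent.P.MP_e0c037_lc.BD

open Finset SG

namespace LiftB

variable {k k' : KF} {X R SA SB : Finset ℕ} {f x y n : ℕ}

/-- `k'` on `insert f X` is the torso of `k` on `X ∪ R`, and the outside is reduced. -/
structure Dat (k k' : KF) (X R SA SB : Finset ℕ) (f : ℕ) : Prop where
  isK : IsK k
  isK' : IsK k'
  nf : f ∉ X
  dj : Disjoint X R
  sa : SA ⊆ R
  sb : SB ⊆ R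
  t1 : ∀ D ⊆ X, k' D + k ∅ = k D + k' ∅
  t2 : ∀ D ⊆ X, k' (insert f D) + 1 + k R = k' ∅ + k (D ∪ R)
  ra : Red k SA
  rb : RedS k (X ∪ R) SB

theorem erase_un (hy : y ∉ R) (D : Finset ℕ) : (D ∪ R).erase y = D.erase y ∪ R := by
  rw [erase_union_distrib, erase_eq_of_notMem hy]

theorem Dat.nR (d : Dat k k' X R SA SB f) (hy : y ∈ X) : y ∉ R := disjoint_left.1 d.dj hy

theorem Dat.ne (d : Dat k k' X R SA SB f) (hy : y ∈ X) : f ≠ y := fun hh => d.nf (hh ▸ hy)

theorem Dat.del (d : Dat k k' X R SA SB f) (hy : y ∈ X) (h : k' (X.erase y) = k' X) :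
    Dat k k' (X.erase y) R SA SB f where
  isK := d.isK
  isK' := d.isK'
  nf := fun hh => d.nf (mem_of_mem_erase hh)
  dj := d.dj.mono_left (erase_subset _ _)
  sa := d.sa
  sb := d.sb
  t1 := fun D hD => d.t1 D (hD.trans (erase_subset _ _))
  t2 := fun D hD => d.t2 D (hD.trans (erase_subset _ _))
  ra := d.ra
  rb := by
    have a1 := d.t1 X Subset.rfl
    have a2 := d.t1 _ (erase_subset y X)
    have key : ∀ T, X ⊆ T → k (T.erase y) = k T := fun T hT => by
      have := d.isK.dim (X.erase y) (T.erase y) y (erase_subset_erase _ hT)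
        (by rw [insert_erase hy]; omega)
      rw [insert_erase (hT hy)] at this
      exact this.symm
    intro a ha b hb hab ⟨c1, c2, c3⟩
    have na : a ∉ X := disjoint_right.1 d.dj (d.sb ha)
    have nb : b ∉ X := disjoint_right.1 d.dj (d.sb hb)
    have sa : X ⊆ (X ∪ R).erase a := subset_erase.2 ⟨subset_union_left, na⟩
    have sb : X ⊆ (X ∪ R).erase b := subset_erase.2 ⟨subset_union_left, nb⟩
    rw [← erase_un (d.nR hy)] at c1 c2 c3
    rw [key _ subset_union_left] at c1 c2 c3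
    rw [erase_right_comm, key _ sa] at c1
    rw [erase_right_comm, key _ sb] at c2
    rw [erase_right_comm (a := y), erase_right_comm (a := y),
      key _ (subset_erase.2 ⟨sb, na⟩)] at c3
    exact d.rb a ha b hb hab ⟨c1, c2, c3⟩

theorem Dat.con (d : Dat k k' X R SA SB f) (hy : y ∈ X) (h : k' {f, y} + 2 = k' ∅) :
    Dat (con k y) (con k' y) (X.erase y) R SA SB f := by
  have sy : ({y} : Finset ℕ) ⊆ X := singleton_subset_iff.2 hy
  have a1 := d.t1 _ sy
  have a2 := d.t2 _ sy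
  have a3 := d.isK'.ge ∅ y
  have a4 := d.isK'.ge {y} f
  rw [insert_empty_eq] at a3
  rw [← insert_eq] at a2
  have a5 : k R = k (insert y R) + 1 := by omega
  have sub : ∀ D ⊆ X.erase y, insert y D ⊆ X := fun D hD =>
    insert_subset hy (hD.trans (erase_subset _ _))
  refine ⟨d.isK.con y, d.isK'.con y, fun hh => d.nf (mem_of_mem_erase hh),
    d.dj.mono_left (erase_subset _ _), d.sa, d.sb, fun D hD => ?_, fun D hD => ?_, ?_, ?_⟩
  · have := d.t1 _ (sub D hD)
    unfold MP_e0c037_lc.con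
    rw [insert_empty_eq]
    omega
  · have := d.t2 _ (sub D hD)
    unfold MP_e0c037_lc.con
    rw [insert_union] at this
    rw [insert_empty_eq, Finset.insert_comm y f]
    omega
  · intro a ha b hb hab ⟨c1, c2, c3⟩
    unfold MP_e0c037_lc.con at c1 c2 c3
    have b0 := ser_eq d.isK a5 (empty_subset R)
    have b1 := ser_eq d.isK a5 (singleton_subset_iff.2 (d.sa ha))
    have b2 := ser_eq d.isK a5 (singleton_subset_iff.2 (d.sa hb))
    have b3 := ser_eq d.isK a5 (insert_subset (d.sa ha) (singleton_subset_iff.2 (d.sa hb)))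
    exact d.ra a ha b hb hab ⟨by omega, by omega, by omega⟩
  · intro a ha b hb hab c
    rw [← erase_un (d.nR hy)] at c
    exact d.rb a ha b hb hab (ser_of_con (mem_union_left _ hy)
      (fun hh => d.nR hy (hh ▸ d.sb ha)) (fun hh => d.nR hy (hh ▸ d.sb hb)) c)

theorem Dat.par (d : Dat k k' X R SA SB f) (hx : x ∈ X) (hy : y ∈ X) :
    Par k' x y ↔ Par k x y := by
  have a1 := d.t1 _ (singleton_subset_iff.2 hx)
  have a2 := d.t1 _ (singleton_subset_iff.2 hy)
  have a3 := d.t1 _ (insert_subset hx (singleton_subset_iff.2 hy))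
  unfold Par
  omega

theorem Dat.ser (d : Dat k k' X R SA SB f) (hx : x ∈ X) (hy : y ∈ X) :
    Ser k' (insert f X) x y ↔ Ser k (X ∪ R) x y := by
  have a0 := d.t2 X Subset.rfl
  have a1 := d.t2 _ (erase_subset x X)
  have a2 := d.t2 _ (erase_subset y X)
  have a3 := d.t2 _ ((erase_subset x _).trans (erase_subset y X))
  unfold Ser
  rw [erase_insert_of_ne (d.ne hx), erase_insert_of_ne (d.ne hy), erase_insert_of_ne (d.ne hx),
    erase_un (d.nR hx), erase_un (d.nR hy), erase_un (d.nR hx)]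
  omega

theorem Dat.lam_le (d : Dat k k' X R SA SB f) : lam k (X ∪ R) X ≤ 1 := by
  have a1 := d.t1 X Subset.rfl
  have a2 := d.t2 X Subset.rfl
  have a3 := d.isK'.le X f
  unfold lam
  rw [union_sdiff_cancel_left d.dj]
  omega

theorem main {t1 t' : Sta} (m : Mg t1 t' n) : t1.WF → ∀ (k : KF) (X : Finset ℕ),
    t1.E = insert f X → t1.A ⊆ X → t1.B ⊆ X → Dat k t1.k X R SA SB f →
    ∃ k2 X2, t'.E = insert f X2 ∧ t'.A ⊆ X2 ∧ t'.B ⊆ X2 ∧ Dat k2 t'.k X2 R SA SB f ∧
      Mg ⟨k, X ∪ R, t1.A ∪ SA, t1.B ∪ SB⟩ ⟨k2, X2 ∪ R, t'.A ∪ SA, t'.B ∪ SB⟩ n := by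
  induction m with
  | refl => exact fun _ k X e a b d => ⟨k, X, e, a, b, d, .refl _⟩
  | @par s t n x y a b c p _ ih =>
    intro w k X e hA hB d
    have hx := hA a
    have hy := hA b
    obtain ⟨k2, X2, e2, a2, b2, d2, m2⟩ := ih (w.par a c b) k (X.erase y)
      (by simp only [Sta.par]; rw [e, erase_insert_of_ne (d.ne hy)])
      ((erase_subset _ _).trans (erase_subset_erase _ hA))
      (insert_subset (mem_erase.2 ⟨c, hx⟩)
        (subset_erase.2 ⟨hB, disjoint_left.1 w.dj b⟩))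
      (d.del hy (par_erase d.isK' p hx c))
    refine ⟨k2, X2, e2, a2, b2, d2, .par (mem_union_left _ a) (mem_union_left _ b) c
      ((d.par hx hy).1 p) ?_⟩
    simp only [Sta.par] at m2 ⊢
    rwa [erase_un (d.nR hy), erase_un (fun hh => d.nR hy (d.sa hh)),
      erase_un (fun hh => d.nR hx (d.sa hh)), ← insert_union]
  | @ser s t n x y a b c p _ ih =>
    intro w k X e hA hB d
    have hx := hB a
    have hy := hB b
    have f1 := (p.facts w.isK (w.sb a) (w.sb b) c).2 {f} (singleton_subset_iff.2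
      (mem_erase.2 ⟨d.ne hx, mem_erase.2 ⟨d.ne hy, e ▸ mem_insert_self f X⟩⟩))
    have f2 := d.t2 ∅ (empty_subset _)
    rw [pair_comm] at f1
    rw [insert_empty_eq, empty_union] at f2
    obtain ⟨k2, X2, e2, a2, b2, d2, m2⟩ := ih (w.ser a c b) (con k y) (X.erase y)
      (by simp only [Sta.ser]; rw [e, erase_insert_of_ne (d.ne hy)])
      (insert_subset (mem_erase.2 ⟨c, hx⟩)
        (subset_erase.2 ⟨hA, disjoint_right.1 w.dj b⟩))
      ((erase_subset _ _).trans (erase_subset_erase _ hB))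
      (d.con hy (by omega))
    refine ⟨k2, X2, e2, a2, b2, d2, .ser (mem_union_left _ a) (mem_union_left _ b) c
      ((d.ser hx hy).1 (e ▸ p)) ?_⟩
    simp only [Sta.ser] at m2 ⊢
    rwa [erase_un (d.nR hy), erase_un (fun hh => d.nR hy (d.sb hh)),
      erase_un (fun hh => d.nR hx (d.sb hh)), ← insert_union]

theorem sides {T S : Finset ℕ} (hT : T ⊆ X) (hS : Disjoint X S) :
    (T ∪ S) ∩ X = T ∧ (T ∪ S) \ X = S := by
  constructor
  · ext z; simp only [mem_inter, mem_union]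
    have := @hT z; have : z ∈ X → z ∉ S := fun h => disjoint_left.1 hS h; tauto
  · ext z; simp only [mem_sdiff, mem_union]
    have := @hT z; have : z ∈ X → z ∉ S := fun h => disjoint_left.1 hS h; tauto

theorem split {T Y : Finset ℕ} {e : ℕ} (he : e ∈ Y) : T.erase e = (T ∩ Y).erase e ∪ T \ Y := by
  ext z; simp only [mem_erase, mem_union, mem_inter, mem_sdiff]
  by_cases hz : z = e
  · subst hz; tauto
  · tauto

end LiftB

open LiftB in
theorem p_Lift : S_Lift := by
  intro s t' k' Y N f e n w rd hk' hY hf ht hc h3 he m rd'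
  obtain ⟨hfE, hfY⟩ := mem_sdiff.1 hf
  have hfe : f ≠ e := fun hh => hfY (hh ▸ he)
  have hE : Y ∪ s.E \ Y = s.E := union_sdiff_of_subset hY
  have d0 : Dat s.k k' Y (s.E \ Y) (s.A \ Y) (s.B \ Y) f :=
    ⟨w.isK, hk', hfY, disjoint_sdiff, sdiff_subset_sdiff w.sa Subset.rfl,
      sdiff_subset_sdiff w.sb Subset.rfl, fun D hD => (ht D hD).1, fun D hD => (ht D hD).2,
      rd.1.mono sdiff_subset, by rw [hE]; exact rd.2.mono sdiff_subset⟩
  obtain ⟨p1, p2⟩ := tc_pair hk' hc (by rw [card_insert_of_notMem hfY]; omega)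
    (mem_insert_self f Y) (mem_insert_of_mem he) hfe
  rw [erase_right_comm, erase_insert hfY] at p2
  have p3 := hk'.le Y f
  have p4 := hk'.anti (erase_subset e Y)
  have w0 : Sta.WF ⟨k', insert f Y, s.A ∩ Y, s.B ∩ Y⟩ :=
    ⟨hk', inter_subset_right.trans (subset_insert _ _),
      inter_subset_right.trans (subset_insert _ _),
      w.dj.mono inter_subset_left inter_subset_left⟩
  have d1 : Dat (s.op N e).k (Sta.op ⟨k', insert f Y, s.A ∩ Y, s.B ∩ Y⟩ N e).k (Y.erase e)
      (s.E \ Y) (s.A \ Y) (s.B \ Y) f := by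
    unfold Sta.op; split_ifs
    exacts [d0.con he p1, d0.del he (by omega)]
  obtain ⟨k2, X2, e2, a2, b2, d2, m2⟩ := main m (w0.op N e) _ (Y.erase e)
    (by rw [op_E]; exact erase_insert_of_ne hfe)
    (by rw [op_A]; exact erase_subset_erase _ inter_subset_right)
    (by rw [op_B]; exact erase_subset_erase _ inter_subset_right) d1
  have eX : t'.E.erase f = X2 := by rw [e2, erase_insert d2.nf]
  have eE : Y.erase e ∪ s.E \ Y = (s.op N e).E := by
    rw [op_E, split (T := s.E) he, inter_eq_right.2 hY]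
  rw [eE, op_A, op_B] at m2
  simp only at m2
  rw [← split he, ← split he, ← op_A N, ← op_B N] at m2
  obtain ⟨sa1, sa2⟩ := sides a2 (d2.dj.mono_right d2.sa)
  obtain ⟨sb1, sb2⟩ := sides b2 (d2.dj.mono_right d2.sb)
  refine ⟨_, m2, ?_⟩
  rw [eX]
  refine ⟨subset_union_left, d2.lam_le, ?_, ?_, ?_, ?_⟩
  · simp only [sa1]
    exact fun x hx y hy hxy p => rd'.1 x hx y hy hxy ((d2.par (a2 hx) (a2 hy)).2 p)
  · simp only [sa2]; exact d2.ra
  · simp only [sb1]
    exact fun x hx y hy hxy p => rd'.2 x hx y hy hxy (e2 ▸ (d2.ser (b2 hx) (b2 hy)).2 p)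
  · simp only [sb2]; exact d2.rb

end Pool.Agent.P.MP_e0c037_lc.BD
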