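import Pool.Agent.P.MP_e0c037_lc.BD.Base

/-! The normal form under special merges is computed in polynomial time. -/

namespace Pool.Agent.P.MP_e0c037_lc.BD

open Finset SG Pool.Agent.Lib.helper21

namespace Norm

/-- States: contracted elements, elements of the first type, elements of the second type. -/
abbrev St := List ℕ × List ℕ × List ℕ

/-- Removal of an element. -/
def rm (A : List ℕ) (x : ℕ) : List ℕ := A.filter fun z => !decide (z = x)

/-- Membership test. -/
def mem (A : List ℕ) (x : ℕ) : Bool := A.any fun z => decide (z = x)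

/-- All pairs below `m`. -/
def prs (m : ℕ) : List (ℕ × ℕ) := (List.range m).flatMap fun x => (List.range m).map fun y => (x, y)

/-- Test for a parallel pair of the first type. -/
def parB (κ : Inp × List ℕ → ℕ) (G : Inp) (s : St) (p : ℕ × ℕ) : Bool :=
  ((mem s.2.1 p.1 && mem s.2.1 p.2) && !decide (p.1 = p.2)) &&
    ((decide (κ (G, [p.1] ++ s.1) + 1 = κ (G, [] ++ s.1)) &&
      decide (κ (G, [p.2] ++ s.1) + 1 = κ (G, [] ++ s.1))) &&
      decide (κ (G, [p.1, p.2] ++ s.1) + 1 = κ (G, [] ++ s.1)))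

/-- Test for a series pair of the second type. -/
def serB (κ : Inp × List ℕ → ℕ) (G : Inp) (s : St) (p : ℕ × ℕ) : Bool :=
  ((mem s.2.2 p.1 && mem s.2.2 p.2) && !decide (p.1 = p.2)) &&
    ((decide (κ (G, rm (s.2.1 ++ s.2.2) p.1 ++ s.1) = κ (G, (s.2.1 ++ s.2.2) ++ s.1)) &&
      decide (κ (G, rm (s.2.1 ++ s.2.2) p.2 ++ s.1) = κ (G, (s.2.1 ++ s.2.2) ++ s.1))) &&
      decide (κ (G, rm (rm (s.2.1 ++ s.2.2) p.2) p.1 ++ s.1) =
        κ (G, (s.2.1 ++ s.2.2) ++ s.1) + 1))

/-- One step. -/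
def stp (κ : Inp × List ℕ → ℕ) (G : Inp) (s : St) : St :=
  lcase ((prs G.2.length).filter fun p => parB κ G s p)
    (lcase ((prs G.2.length).filter fun p => serB κ G s p) s
      fun p _ => (p.2 :: s.1, p.1 :: s.2.1, rm (rm s.2.2 p.2) p.1))
    fun p _ => (s.1, rm (rm s.2.1 p.2) p.1, p.1 :: s.2.2)

/-- The initial state. -/
def ini (b : Bool) (G : Inp) : St :=
  ([], cond b (List.range G.2.length) [], cond b [] (List.range G.2.length))

/-- The final state. -/
def nf (κ : Inp × List ℕ → ℕ) (b : Bool) (G : Inp) : St := (stp κ G)^[G.2.length] (ini b G)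

/-- The abstract state. -/
def toS (k : KF) (s : St) : Sta :=
  ⟨cn k s.1.toFinset, (s.2.1 ++ s.2.2).toFinset, s.2.1.toFinset, s.2.2.toFinset⟩

variable {κ : Inp × List ℕ → ℕ} {k : Inp → KF}

theorem mem_rm {A : List ℕ} {x z : ℕ} : z ∈ rm A x ↔ z ∈ A ∧ z ≠ x := by simp [rm]

theorem rm_fin (A : List ℕ) (x : ℕ) : (rm A x).toFinset = A.toFinset.erase x := by
  ext z; simp [mem_rm, and_comm]

theorem mem_iff {A : List ℕ} {x : ℕ} : mem A x = true ↔ x ∈ A := by simp [mem]

theorem mem_prs {m : ℕ} {p : ℕ × ℕ} : p ∈ prs m ↔ p.1 < m ∧ p.2 < m := by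
  obtain ⟨x, y⟩ := p
  simp [prs]

theorem sz_rm (A : List ℕ) (x : ℕ) : sz (rm A x) ≤ sz A := sz_filter _ _

theorem pt_stp (h : PT κ) : PT fun p : Inp × St => stp κ p.1 p.2 := by
  unfold stp parB serB prs mem rm
  fun_prop

theorem pt_nf (h : PT κ) (b : Bool) : PT (nf κ b) := by
  refine PT.iterate_add (f := stp κ) (pt_stp h) (by fun_prop) (by unfold ini; fun_prop)
    (fun G => 8 * G.2.length + 8) (PT.bdNat (by fun_prop)) fun G s => ?_
  obtain ⟨C, A, B⟩ := s
  unfold stp
  cases h1 : (prs G.2.length).filter fun p => parB κ G (C, A, B) p with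
  | nil =>
    cases h2 : (prs G.2.length).filter fun p => serB κ G (C, A, B) p with
    | nil => simp only [lcase]; omega
    | cons p t =>
      have hp : p ∈ (prs G.2.length).filter fun p => serB κ G (C, A, B) p := by
        rw [h2]; exact List.mem_cons_self
      have a1 := mem_prs.1 (List.mem_filter.1 hp).1
      have a2 := sz_rm (rm B p.2) p.1
      have a3 := sz_rm B p.2
      simp only [lcase, sz_pair, sz_cons, sz_nat]; omega
  | cons p t =>
    have hp : p ∈ (prs G.2.length).filter fun p => parB κ G (C, A, B) p := by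
      rw [h1]; exact List.mem_cons_self
    have a1 := mem_prs.1 (List.mem_filter.1 hp).1
    have a2 := sz_rm (rm A p.2) p.1
    have a3 := sz_rm A p.2
    simp only [lcase, sz_pair, sz_cons, sz_nat]; omega

theorem kap (o : Orc κ k) {G : Inp} (hG : Valid G) {C D : List ℕ}
    (hC : ∀ i ∈ C, i < G.2.length) (hD : ∀ i ∈ D, i < G.2.length) :
    κ (G, D ++ C) = cn (k G) C.toFinset D.toFinset := by
  rw [o.eq G hG _ fun i hi => (List.mem_append.1 hi).elim (hD i) (hC i), List.toFinset_append]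
  rfl

theorem parB_iff (o : Orc κ k) {G : Inp} (hG : Valid G) {s : St}
    (hC : ∀ i ∈ s.1, i < G.2.length) {p : ℕ × ℕ} (h1 : p.1 < G.2.length)
    (h2 : p.2 < G.2.length) : parB κ G s p = true ↔
      p.1 ∈ s.2.1 ∧ p.2 ∈ s.2.1 ∧ p.1 ≠ p.2 ∧ Par (toS (k G) s).k p.1 p.2 := by
  unfold parB Par
  rw [kap o hG hC (D := [p.1]) (by simpa), kap o hG hC (D := [p.2]) (by simpa),
    kap o hG hC (D := [p.1, p.2]) (by simp [h1, h2]), kap o hG hC (D := []) (by simp)]
  simp [mem_iff, toS, and_assoc]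

theorem serB_iff (o : Orc κ k) {G : Inp} (hG : Valid G) {s : St}
    (hC : ∀ i ∈ s.1, i < G.2.length) (hE : ∀ i ∈ s.2.1 ++ s.2.2, i < G.2.length) {p : ℕ × ℕ} :
    serB κ G s p = true ↔
      p.1 ∈ s.2.2 ∧ p.2 ∈ s.2.2 ∧ p.1 ≠ p.2 ∧ Ser (toS (k G) s).k (toS (k G) s).E p.1 p.2 := by
  unfold serB Ser
  rw [kap o hG hC hE, kap o hG hC fun i hi => hE i (mem_rm.1 hi).1,
    kap o hG hC fun i hi => hE i (mem_rm.1 hi).1,
    kap o hG hC fun i hi => hE i (mem_rm.1 (mem_rm.1 hi).1).1, rm_fin, rm_fin, rm_fin, rm_fin]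
  simp only [toS, Bool.and_eq_true, mem_iff, decide_eq_true_eq, Bool.not_eq_true',
    decide_eq_false_iff_not, and_assoc, ne_eq]

theorem nodup_rm {A : List ℕ} (h : A.Nodup) (x : ℕ) : (rm A x).Nodup := h.filter _

theorem par_toS (k0 : KF) {C A B : List ℕ} (hn : (A ++ B).Nodup) {x y : ℕ} (hx : x ∈ A)
    (hy : y ∈ A) (hxy : x ≠ y) :
    (toS k0 (C, A, B)).par x y = toS k0 (C, rm (rm A y) x, x :: B) ∧
      (rm (rm A y) x ++ x :: B).Nodup := by
  obtain ⟨n1, n2, n3⟩ := List.nodup_append.1 hn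
  refine ⟨?_, List.nodup_append.2 ⟨nodup_rm (nodup_rm n1 _) _,
    List.nodup_cons.2 ⟨fun hh => n3 x hx x hh rfl, n2⟩, fun a ha c hc => ?_⟩⟩
  · simp only [toS, Sta.par, rm_fin, List.toFinset_cons, Sta.mk.injEq, true_and, and_true]
    ext z
    have := n3 y hy z
    simp only [mem_erase, List.mem_toFinset, List.mem_append, mem_rm, List.mem_cons]
    grind
  · obtain ⟨a1, a2⟩ := mem_rm.1 ha
    rcases List.mem_cons.1 hc with rfl | hc
    exacts [a2, n3 a (mem_rm.1 a1).1 c hc]

theorem ser_toS (k0 : KF) {C A B : List ℕ} (hn : (A ++ B).Nodup) {x y : ℕ} (hx : x ∈ B)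
    (hy : y ∈ B) (hxy : x ≠ y) :
    (toS k0 (C, A, B)).ser x y = toS k0 (y :: C, x :: A, rm (rm B y) x) ∧
      (x :: A ++ rm (rm B y) x).Nodup := by
  obtain ⟨n1, n2, n3⟩ := List.nodup_append.1 hn
  refine ⟨?_, List.nodup_append.2 ⟨List.nodup_cons.2 ⟨fun hh => n3 x hh x hx rfl, n1⟩,
    nodup_rm (nodup_rm n2 _) _, fun a ha c hc => ?_⟩⟩
  · simp only [toS, Sta.ser, rm_fin, List.toFinset_cons, Sta.mk.injEq, and_true]
    refine ⟨?_, ?_⟩
    · funext D
      simp only [con, cn, insert_union, union_insert]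
    · ext z
      have := fun h => n3 z h y hy
      simp only [mem_erase, List.mem_toFinset, List.mem_append, mem_rm, List.mem_cons]
      grind
  · obtain ⟨a1, a2⟩ := mem_rm.1 hc
    rcases List.mem_cons.1 ha with rfl | ha
    exacts [a2.symm, n3 a ha c (mem_rm.1 a1).1]

/-- The invariant. -/
structure Inv (k0 : KF) (m : ℕ) (s0 : Sta) (j : ℕ) (s : St) : Prop where
  nd : (s.2.1 ++ s.2.2).Nodup
  bc : ∀ i ∈ s.1, i < m
  be : ∀ i ∈ s.2.1 ++ s.2.2, i < m
  mg : Mg s0 (toS k0 s) s.1.length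
  rd : (toS k0 s).Rd ∨ (toS k0 s).E.card + j ≤ m

theorem Inv.step (o : Orc κ k) {G : Inp} (hG : Valid G) {s0 : Sta} {j : ℕ} {s : St}
    (h : Inv (k G) G.2.length s0 j s) : Inv (k G) G.2.length s0 (j + 1) (stp κ G s) := by
  obtain ⟨C, A, B⟩ := s
  have hA : ∀ i ∈ A, i < G.2.length := fun i hi => h.be i (List.mem_append_left _ hi)
  have hB : ∀ i ∈ B, i < G.2.length := fun i hi => h.be i (List.mem_append_right _ hi)
  unfold stp
  cases h1 : (prs G.2.length).filter fun p => parB κ G (C, A, B) p with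
  | nil =>
    cases h2 : (prs G.2.length).filter fun p => serB κ G (C, A, B) p with
    | nil =>
      refine ⟨h.nd, h.bc, h.be, h.mg, Or.inl ⟨fun x hx y hy hxy p => ?_, fun x hx y hy hxy p => ?_⟩⟩
      · have hx' : x ∈ A := List.mem_toFinset.1 hx
        have hy' : y ∈ A := List.mem_toFinset.1 hy
        have : (x, y) ∈ (prs G.2.length).filter fun p => parB κ G (C, A, B) p :=
          List.mem_filter.2 ⟨mem_prs.2 ⟨hA x hx', hA y hy'⟩,
            (parB_iff o hG h.bc (hA x hx') (hA y hy')).2 ⟨hx', hy', hxy, p⟩⟩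
        rw [h1] at this
        exact List.not_mem_nil this
      · have hx' : x ∈ B := List.mem_toFinset.1 hx
        have hy' : y ∈ B := List.mem_toFinset.1 hy
        have : (x, y) ∈ (prs G.2.length).filter fun p => serB κ G (C, A, B) p :=
          List.mem_filter.2 ⟨mem_prs.2 ⟨hB x hx', hB y hy'⟩,
            (serB_iff o hG h.bc h.be).2 ⟨hx', hy', hxy, p⟩⟩
        rw [h2] at this
        exact List.not_mem_nil this
    | cons p t =>
      have hp : p ∈ (prs G.2.length).filter fun p => serB κ G (C, A, B) p := by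
        rw [h2]; exact List.mem_cons_self
      obtain ⟨a1, a2, a3, a4⟩ := (serB_iff o hG h.bc h.be).1 (List.mem_filter.1 hp).2
      obtain ⟨e1, e2⟩ := ser_toS (C := C) (k G) h.nd a1 a2 a3
      have b1 : p.1 ∈ (toS (k G) (C, A, B)).B := List.mem_toFinset.2 a1
      have b2 : p.2 ∈ (toS (k G) (C, A, B)).B := List.mem_toFinset.2 a2
      refine ⟨e2, fun i hi => ?_, fun i hi => ?_, ?_, Or.inr ?_⟩
      · rcases List.mem_cons.1 hi with rfl | hi
        exacts [hB _ a2, h.bc i hi]
      · rcases List.mem_append.1 hi with hi | hi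
        · rcases List.mem_cons.1 hi with rfl | hi
          exacts [hB _ a1, hA i hi]
        · exact hB i (mem_rm.1 (mem_rm.1 hi).1).1
      · have := h.mg.trans (Mg.ser b1 b2 a3 a4 (.refl _))
        rwa [e1] at this
      · have c1 := h.rd.resolve_left fun r => r.2 _ b1 _ b2 a3 a4
        have c2 := card_erase_add_one (s := (toS (k G) (C, A, B)).E) (a := p.2)
          (List.mem_toFinset.2 (List.mem_append_right _ a2))
        simp only [lcase]
        rw [← e1]
        simp only [Sta.ser]; omega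
  | cons p t =>
    have hp : p ∈ (prs G.2.length).filter fun p => parB κ G (C, A, B) p := by
      rw [h1]; exact List.mem_cons_self
    have a0 := mem_prs.1 (List.mem_filter.1 hp).1
    obtain ⟨a1, a2, a3, a4⟩ := (parB_iff o hG h.bc a0.1 a0.2).1 (List.mem_filter.1 hp).2
    obtain ⟨e1, e2⟩ := par_toS (C := C) (k G) h.nd a1 a2 a3
    have b1 : p.1 ∈ (toS (k G) (C, A, B)).A := List.mem_toFinset.2 a1
    have b2 : p.2 ∈ (toS (k G) (C, A, B)).A := List.mem_toFinset.2 a2
    refine ⟨e2, h.bc, fun i hi => ?_, ?_, Or.inr ?_⟩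
    · rcases List.mem_append.1 hi with hi | hi
      · exact hA i (mem_rm.1 (mem_rm.1 hi).1).1
      · rcases List.mem_cons.1 hi with rfl | hi
        exacts [a0.1, hB i hi]
    · have := h.mg.trans (Mg.par b1 b2 a3 a4 (.refl _))
      rwa [e1] at this
    · have c1 := h.rd.resolve_left fun r => r.1 _ b1 _ b2 a3 a4
      have c2 := card_erase_add_one (s := (toS (k G) (C, A, B)).E) (a := p.2)
        (List.mem_toFinset.2 (List.mem_append_left _ a2))
      simp only [lcase]
      rw [← e1]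
      simp only [Sta.par]; omega

theorem toS_ini (k0 : KF) (b : Bool) (G : Inp) : toS k0 (ini b G) = st0 k0 G.2.length b := by
  have : cn k0 ∅ = k0 := funext fun D => by simp [cn]
  cases b <;> simp [toS, ini, st0, this, List.toFinset_range]

theorem inv (o : Orc κ k) {G : Inp} (hG : Valid G) (b : Bool) (j : ℕ) :
    Inv (k G) G.2.length (st0 (k G) G.2.length b) j ((stp κ G)^[j] (ini b G)) := by
  induction j with
  | zero =>
    refine ⟨?_, by simp [ini], ?_, ?_, Or.inr ?_⟩
    · cases b <;> simp [ini, List.nodup_range]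
    · cases b <;> simp [ini]
    · rw [Function.iterate_zero_apply, toS_ini]; exact .refl _
    · rw [Function.iterate_zero_apply, toS_ini]; simp [st0]
  | succ j ih => rw [Function.iterate_succ_apply']; exact ih.step o hG

end Norm

theorem p_Norm : S_Norm := by
  intro κ k o b
  have h := Norm.pt_nf o.pt b
  refine ⟨fun G => (Norm.nf κ b G).1, fun G => (Norm.nf κ b G).2.1, fun G => (Norm.nf κ b G).2.2,
    h.fst, h.snd.fst, h.snd.snd, fun G hG => ?_⟩
  have i := Norm.inv o hG b G.2.length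
  refine ⟨i.nd, i.bc, i.mg, i.rd.elim id fun c => ?_⟩
  have e : (Norm.toS (k G) (Norm.nf κ b G)).E = ∅ := card_eq_zero.1 (by unfold Norm.nf; omega)
  have e' : ∀ x, x ∉ (Norm.nf κ b G).2.1 ++ (Norm.nf κ b G).2.2 := fun x hx =>
    notMem_empty x (e ▸ List.mem_toFinset.2 hx)
  exact ⟨fun x hx => absurd (List.mem_append_left _ (List.mem_toFinset.1 hx)) (e' x),
    fun x hx => absurd (List.mem_append_right _ (List.mem_toFinset.1 hx)) (e' x)⟩

end Pool.Agent.P.MP_e0c037_lc.BD
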