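import Pool.Agent.P.MP_e0c037_lc.BD.Base

/-! A state that is reduced on both sides of a two-separation needs at most one more merge. -/

namespace Pool.Agent.P.MP_e0c037_lc.BD

open Finset SG

namespace Shad

variable {k : KF} {E X S : Finset ℕ} {x y a b f : ℕ} {s : Sta}

theorem red_of (h1 : Red k (S ∩ X)) (h2 : Red k (S \ X))
    (h3 : ∀ a ∈ S, ∀ b ∈ S, a ∈ X → b ∉ X → ¬ Par k a b) : Red k S := by
  intro a ha b hb hab p
  by_cases aX : a ∈ X <;> by_cases bX : b ∈ X
  · exact h1 a (mem_inter.2 ⟨ha, aX⟩) b (mem_inter.2 ⟨hb, bX⟩) hab p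
  · exact h3 a ha b hb aX bX p
  · exact h3 b hb a ha bX aX p.symm
  · exact h2 a (mem_sdiff.2 ⟨ha, aX⟩) b (mem_sdiff.2 ⟨hb, bX⟩) hab p

theorem redS_of (h1 : RedS k E (S ∩ X)) (h2 : RedS k E (S \ X))
    (h3 : ∀ a ∈ S, ∀ b ∈ S, a ∈ X → b ∉ X → ¬ Ser k E a b) : RedS k E S := by
  intro a ha b hb hab p
  by_cases aX : a ∈ X <;> by_cases bX : b ∈ X
  · exact h1 a (mem_inter.2 ⟨ha, aX⟩) b (mem_inter.2 ⟨hb, bX⟩) hab p
  · exact h3 a ha b hb aX bX p
  · exact h3 b hb a ha bX aX p.symm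
  · exact h2 a (mem_sdiff.2 ⟨ha, aX⟩) b (mem_sdiff.2 ⟨hb, bX⟩) hab p

theorem par_ins (h : IsK k) (p : Par k x y) {T : Finset ℕ} (hx : x ∈ T) :
    k (insert y T) = k T := by
  have := par_eq h p.1 p.2.2 T
  rwa [insert_eq_of_mem hx] at this

/-- Moving an element out of `X`. -/
theorem out (hc : Conn k E) (hX : X ⊆ E) (h2 : 2 ≤ X.card) (hx : x ∈ X) :
    k (X.erase x) + k (insert x (E \ X)) < k ∅ + k E := by
  have e1 : E \ X.erase x = insert x (E \ X) := by
    ext z; simp only [mem_sdiff, mem_erase, mem_insert]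
    have := hX hx
    grind
  have := hc (X.erase x) ((erase_subset _ _).trans hX)
    (card_pos.1 (by rw [card_erase_of_mem hx]; omega)) (by rw [e1]; simp)
  rwa [e1] at this

/-- Moving an element into `X`. -/
theorem into (hc : Conn k E) (hX : X ⊆ E) (hy : y ∈ E) (hf : f ∈ E) (hfX : f ∉ X) (hfy : f ≠ y) :
    k (insert y X) + k ((E \ X).erase y) < k ∅ + k E := by
  have e1 : E \ insert y X = (E \ X).erase y := by
    ext z; simp only [mem_sdiff, mem_erase, mem_insert]; tauto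
  have := hc (insert y X) (insert_subset hy hX) (by simp)
    (by rw [e1]; exact ⟨f, mem_erase.2 ⟨hfy, mem_sdiff.2 ⟨hf, hfX⟩⟩⟩)
  rwa [e1] at this

/-- A series pair across `X`. -/
theorem cross (h : IsK k) (hX : X ⊆ E) (p : Ser k E a b) (ha : a ∈ X) (hb : b ∈ E) (hbX : b ∉ X) :
    (∀ T ⊆ X, a ∈ T → k (T.erase a) = k T + 1) ∧ k ((E \ X).erase b) = k (E \ X) + 1 := by
  obtain ⟨p1, p2⟩ := p.facts h (hX ha) hb fun hh => hbX (hh ▸ ha)
  refine ⟨fun T hT haT => ?_, ?_⟩
  · have := p1 (T.erase a) fun z hz => by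
      have h1 := hT (mem_of_mem_erase hz)
      exact mem_erase.2 ⟨ne_of_mem_erase hz, mem_erase.2 ⟨fun hh => hbX (hh ▸ h1), hX h1⟩⟩
    rwa [insert_erase haT] at this
  · have := p2 ((E \ X).erase b) fun z hz => by
      have h1 := mem_sdiff.1 (mem_of_mem_erase hz)
      exact mem_erase.2 ⟨fun hh => h1.2 (hh ▸ ha), mem_erase.2 ⟨ne_of_mem_erase hz, h1.1⟩⟩
    rwa [insert_erase (mem_sdiff.2 ⟨hb, hbX⟩)] at this

theorem casePar (w : s.WF) (hc : Conn s.k s.E) (hX : X ⊆ s.E) (h2 : 2 ≤ X.card) (hf : f ∈ s.E)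
    (hfX : f ∉ X) (hfA : f ∉ s.A) (hl : s.k ∅ + s.k s.E ≤ s.k X + s.k (s.E \ X) + 1)
    (hh : Half s X) (hx : x ∈ s.A) (hy : y ∈ s.A) (xX : x ∈ X) (yX : y ∉ X) (p : Par s.k x y) :
    (s.par x y).Rd := by
  have h := w.isK
  have hxy : x ≠ y := fun e => yX (e ▸ xX)
  have yR : y ∈ s.E \ X := mem_sdiff.2 ⟨w.sa hy, yX⟩
  have c1 := out hc hX h2 xX
  have c2 := into hc hX (w.sa hy) hf hfX fun e => hfA (e ▸ hy)
  rw [par_ins h p.symm yR] at c1
  rw [par_ins h p xX] at c2
  have c3 := h.anti (erase_subset x X)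
  have c4 := h.anti (erase_subset y (s.E \ X))
  have c5 : s.k (insert x ((s.E \ X).erase y)) = s.k ((s.E \ X).erase y) := by
    have d1 := par_eq h p.1 p.2.2 ((s.E \ X).erase y)
    rw [Finset.insert_comm, insert_erase yR, par_ins h p.symm yR] at d1
    omega
  constructor
  · refine red_of (X := X) (hh.1.mono (inter_subset_inter_right
      ((erase_subset _ _).trans (erase_subset _ _)))) (hh.2.1.mono (sdiff_subset_sdiff
      ((erase_subset _ _).trans (erase_subset _ _)) Subset.rfl)) ?_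
    intro a ha b hb aX bX q
    have aA : a ∈ s.A := mem_of_mem_erase (mem_of_mem_erase ha)
    have bR : b ∈ s.E \ X := mem_sdiff.2 ⟨w.sa (mem_of_mem_erase (mem_of_mem_erase hb)), bX⟩
    have d1 := h.dimin (A := {x, a}) (insert_subset xX (singleton_subset_iff.2 aX)) (s.E \ X)
    rw [union_sdiff_of_subset hX, insert_union, singleton_union,
      par_ins h p.symm (mem_insert_of_mem yR), par_ins h (Par.symm q) bR] at d1
    have d2 := h.anti (A := {x}) (B := {x, a}) (by simp)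
    have d3 := p.1
    exact hh.1 x (mem_inter.2 ⟨hx, xX⟩) a (mem_inter.2 ⟨aA, aX⟩) (ne_of_mem_erase ha).symm
      ⟨p.1, q.1, by omega⟩
  · have k1 : ∀ b ∈ s.B, ¬ Ser s.k (s.E.erase y) x b := by
      intro b hb q
      have hby : b ≠ y := fun e => disjoint_left.1 w.dj hy (e ▸ hb)
      have hxb : x ≠ b := fun e => disjoint_left.1 w.dj hx (e ▸ hb)
      obtain ⟨q1, -⟩ := q.facts h (mem_erase.2 ⟨hxy, w.sa hx⟩) (mem_erase.2 ⟨hby, w.sb hb⟩) hxb
      by_cases bX : b ∈ X
      · have := q1 ((s.E \ X).erase y) fun z hz => by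
          have h1 := mem_sdiff.1 (mem_of_mem_erase hz)
          exact mem_erase.2 ⟨fun e => h1.2 (e ▸ xX), mem_erase.2 ⟨fun e => h1.2 (e ▸ bX),
            mem_erase.2 ⟨ne_of_mem_erase hz, h1.1⟩⟩⟩
        omega
      · have := q1 (X.erase x) fun z hz => by
          have h1 := mem_of_mem_erase hz
          exact mem_erase.2 ⟨ne_of_mem_erase hz, mem_erase.2 ⟨fun e => bX (e ▸ h1),
            mem_erase.2 ⟨fun e => yX (e ▸ h1), hX h1⟩⟩⟩
        rw [insert_erase xX] at this
        omega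
    have k2 : RedS s.k s.E s.B := by
      refine redS_of hh.2.2.1 hh.2.2.2 fun a ha b hb aX bX q => ?_
      have hax : x ≠ a := fun e => disjoint_left.1 w.dj hx (e ▸ ha)
      have hby : y ≠ b := fun e => disjoint_left.1 w.dj hy (e ▸ hb)
      obtain ⟨q1, q2⟩ := cross h hX q aX (w.sb hb) bX
      have q3 := q1 X Subset.rfl aX
      have d1 := h.sup (X.erase a) (insert x ((s.E \ X).erase b))
      have e1 : X.erase a ∪ insert x ((s.E \ X).erase b) = (s.E.erase b).erase a := by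
        ext z; simp only [mem_union, mem_erase, mem_insert, mem_sdiff]
        have := @hX z
        grind
      have e2 : X.erase a ∩ insert x ((s.E \ X).erase b) = {x} := by
        ext z; simp only [mem_inter, mem_erase, mem_insert, mem_sdiff, mem_singleton]
        grind
      rw [e1, e2, par_ins h p.symm (mem_erase.2 ⟨hby, yR⟩), q.2.2] at d1
      have := p.1
      omega
    intro a ha b hb hab q
    rcases mem_insert.1 ha with rfl | ha'
    · exact k1 b ((mem_insert.1 hb).resolve_left hab.symm) q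
    rcases mem_insert.1 hb with rfl | hb'
    · exact k1 a ha' q.symm
    exact k2 a ha' b hb' hab (ser_of_par_del h p (w.sa hx) hxy
      (fun e => disjoint_left.1 w.dj hx (e ▸ ha')) (fun e => disjoint_left.1 w.dj hx (e ▸ hb')) q)

theorem caseSer (w : s.WF) (hc : Conn s.k s.E) (hX : X ⊆ s.E) (h2 : 2 ≤ X.card) (hf : f ∈ s.E)
    (hfX : f ∉ X) (hfB : f ∉ s.B) (hl : s.k ∅ + s.k s.E ≤ s.k X + s.k (s.E \ X) + 1)
    (hh : Half s X) (hA : Red s.k s.A) (ha : a ∈ s.B) (hb : b ∈ s.B) (aX : a ∈ X) (bX : b ∉ X)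
    (p : Ser s.k s.E a b) : (s.ser a b).Rd := by
  have h := w.isK
  have hab : a ≠ b := fun e => bX (e ▸ aX)
  have bR : b ∈ s.E \ X := mem_sdiff.2 ⟨w.sb hb, bX⟩
  obtain ⟨p1, p2⟩ := cross h hX p aX (w.sb hb) bX
  have p3 := p1 X Subset.rfl aX
  have c1 := out hc hX h2 aX
  have c2 := into hc hX (w.sb hb) hf hfX fun e => hfB (e ▸ hb)
  have c3 := h.ge X b
  constructor
  · have k1 : ∀ z ∈ s.A, ¬ Par (con s.k b) a z := by
      intro z hz ⟨_, q2, q3⟩
      have hza : z ≠ a := fun e => disjoint_left.1 w.dj hz (e ▸ ha)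
      unfold con at q2 q3
      by_cases zX : z ∈ X
      · have d1 := ser_eq h (F := X) (g := b) (by omega) (A := {z}) (singleton_subset_iff.2 zX)
        have d2 := ser_eq h (F := X) (g := b) (by omega) (A := {a, z})
          (insert_subset aX (singleton_subset_iff.2 zX))
        have d3 := h.dim {z} (X.erase a) a (singleton_subset_iff.2 (mem_erase.2 ⟨hza, zX⟩))
          (by omega)
        rw [insert_erase aX] at d3
        omega
      · rw [Finset.insert_comm] at q3
        have := h.dim {b, z} (s.E \ X) a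
          (insert_subset bR (singleton_subset_iff.2 (mem_sdiff.2 ⟨w.sa hz, zX⟩))) (by omega)
        omega
    have k2 : ∀ z ∈ s.A, z ∈ (s.E.erase b).erase a := fun z hz =>
      mem_erase.2 ⟨fun e => disjoint_left.1 w.dj hz (e ▸ ha),
        mem_erase.2 ⟨fun e => disjoint_left.1 w.dj hz (e ▸ hb), w.sa hz⟩⟩
    intro u hu v hv huv q
    rcases mem_insert.1 hu with rfl | hu'
    · exact k1 v ((mem_insert.1 hv).resolve_left huv.symm) q
    rcases mem_insert.1 hv with rfl | hv'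
    · exact k1 u hu' (Par.symm q)
    exact hA u hu' v hv' huv (par_of_ser_con h p (w.sb ha) (w.sb hb) hab (k2 u hu') (k2 v hv') q)
  · have k1 : RedS s.k s.E ((s.B.erase b).erase a) := by
      refine redS_of (X := X) (hh.2.2.1.mono (inter_subset_inter_right
        ((erase_subset _ _).trans (erase_subset _ _)))) (hh.2.2.2.mono (sdiff_subset_sdiff
        ((erase_subset _ _).trans (erase_subset _ _)) Subset.rfl)) ?_
      intro u hu v hv uX vX q
      have uB : u ∈ s.B := mem_of_mem_erase (mem_of_mem_erase hu)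
      have hua : u ≠ a := ne_of_mem_erase hu
      obtain ⟨q1, -⟩ := cross h hX q uX (w.sb (mem_of_mem_erase (mem_of_mem_erase hv))) vX
      have q2 := q1 (X.erase a) (erase_subset _ _) (mem_erase.2 ⟨hua, uX⟩)
      have d1 := h.sup ((X.erase a).erase u) (s.E \ X)
      have e1 : (X.erase a).erase u ∪ s.E \ X = (s.E.erase u).erase a := by
        ext z; simp only [mem_union, mem_erase, mem_sdiff]
        have := @hX z
        grind
      have e2 : (X.erase a).erase u ∩ (s.E \ X) = ∅ := by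
        ext z; simp only [mem_inter, mem_erase, mem_sdiff, notMem_empty]
        tauto
      rw [e1, e2] at d1
      have d2 := h.ge ((s.E.erase u).erase a) a
      rw [insert_erase (mem_erase.2 ⟨hua.symm, w.sb ha⟩)] at d2
      have d3 := q.1
      exact hh.2.2.1 a (mem_inter.2 ⟨ha, aX⟩) u (mem_inter.2 ⟨uB, uX⟩) hua.symm
        ⟨p.1, q.1, by omega⟩
    intro u hu v hv huv q
    exact k1 u hu v hv huv (ser_of_con (w.sb hb) (ne_of_mem_erase (mem_of_mem_erase hu))
      (ne_of_mem_erase (mem_of_mem_erase hv)) q)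

end Shad

open Shad in
theorem p_Shad : S_Shad := by
  intro s X f w hc hX h2 hf hfX hfA hfB hl hh
  have hl' : s.k ∅ + s.k s.E ≤ s.k X + s.k (s.E \ X) + 1 := by unfold lam at hl; omega
  by_cases h1 : ∃ x ∈ s.A, ∃ y ∈ s.A, x ∈ X ∧ y ∉ X ∧ Par s.k x y
  · obtain ⟨x, hx, y, hy, xX, yX, p⟩ := h1
    exact ⟨_, 0, zero_le_one, .par hx hy (fun e => yX (e ▸ xX)) p (.refl _),
      casePar w hc hX h2 hf hfX hfA hl' hh hx hy xX yX p⟩
  have hA : Red s.k s.A :=
    red_of hh.1 hh.2.1 fun a ha b hb aX bX p => h1 ⟨a, ha, b, hb, aX, bX, p⟩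
  by_cases h3 : ∃ a ∈ s.B, ∃ b ∈ s.B, a ∈ X ∧ b ∉ X ∧ Ser s.k s.E a b
  · obtain ⟨a, ha, b, hb, aX, bX, p⟩ := h3
    exact ⟨_, 1, le_rfl, .ser ha hb (fun e => bX (e ▸ aX)) p (.refl _),
      caseSer w hc hX h2 hf hfX hfB hl' hh hA ha hb aX bX p⟩
  exact ⟨s, 0, zero_le_one, .refl _, hA,
    redS_of hh.2.2.1 hh.2.2.2 fun a ha b hb aX bX p => h3 ⟨a, ha, b, hb, aX, bX, p⟩⟩

end Pool.Agent.P.MP_e0c037_lc.BD
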