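import Pool.Agent.P.MP_e0c037_lc.BD.Base
import Pool.Agent.P.MP_e0c037_lc.SG.CL

/-! The class lemma for graphic counts. -/

namespace Pool.Agent.P.MP_e0c037_lc.BD

open Finset SG

namespace CLB

theorem ends_of_same {n : ℕ} {L : List (ℕ × ℕ)} {i : ℕ} {u v p q : Fin n} (h : Ends L i u v)
    (hs : Same u v p q) : Ends L i p q := by
  rcases hs with ⟨rfl, rfl⟩ | ⟨rfl, rfl⟩
  exacts [h, h.symm]

theorem core (h0 : S_G0) (h1 : S_G1) (h2 : S_G2) (h3 : S_G3) (h4 : S_PA) {n : ℕ}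
    {L : List (ℕ × ℕ)} {U : Finset (Fin n)} {E A B N : Finset ℕ} {f : ℕ} (g : Gg n L U E A B)
    (hc : 4 ≤ E.card) (hf : f ∈ E) (hfA : f ∉ A) (hfB : f ∉ B) (hA : A ⊆ N) :
    ∃ e ∈ E, e ≠ f ∧ ∃ t m, m ≤ 2 ∧ Mg (Sta.op ⟨comps n L, E, A, B⟩ N e) t m ∧ t.Rd ∧
      3 ≤ t.E.card := by
  obtain ⟨p, q, hpq⟩ := exists_ends g.val (mem_range.1 (g.sub hf))
  have hK := isK_comps n L
  have w : Sta.WF ⟨comps n L, E, A, B⟩ := ⟨hK, g.sa, g.sb, g.dj⟩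
  rcases h0 (Fin n) U (Ad n L E) (Ad n L A) (Ad n L B) (Ad n L (N ∩ E)) p q g.t3
      (fun _ _ h => h.symm) (fun _ _ h => h.symm)
      (fun _ _ ⟨i, hi, e⟩ => ⟨i, mem_inter.2 ⟨hA hi, g.sa hi⟩, e⟩)
      (fun _ _ ⟨i, hi, e⟩ => ⟨i, g.sb hi, e⟩)
      (fun _ _ ⟨i, hi, e⟩ => ⟨i, (mem_inter.1 hi).2, e⟩)
      (fun x y ⟨i, hi, e⟩ ⟨j, hj, e'⟩ =>
        disjoint_left.1 g.dj hi (g.simp i (g.sa hi) j (g.sb hj) x y e e' ▸ hj))
      ⟨f, hf, hpq⟩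
      (fun ⟨i, hi, e⟩ => hfA (g.simp i (g.sa hi) f hf p q e hpq ▸ hi)) with
    ⟨u, v, ⟨e, he, huv⟩, hs, b1, b2⟩ | ⟨u, v, z, x, y, z', ht⟩ | hall
  · obtain ⟨heN, heE⟩ := mem_inter.1 he
    obtain ⟨t, m, r⟩ := h4 _ (w.ctr e) (h1 n L U E A B e u v g heE huv b1 b2)
    refine ⟨e, heE, fun hh => hs (Ends_same huv (hh ▸ hpq)), t, 0, by omega, ?_, r, ?_⟩
    · unfold Sta.op
      rw [if_pos heN]
      exact m
    · obtain ⟨z1, z2⟩ := m.zero (w.ctr e) rfl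
      have c1 : Conn t.k t.E := m.conn (w.ctr e) (tc_both hK g.tc hc heE).2
      refine three_of_rank (m.wf (w.ctr e)).isK c1 ?_
      rw [z1, z2]
      have a1 := g.rk
      have a2 := g.t3.four
      have a3 := hK.ge ∅ e
      rw [comps_empty] at a3
      change comps n L (insert e (E.erase e)) + 2 ≤ comps n L (insert e ∅)
      rw [insert_erase heE]
      omega
  · obtain ⟨e, he, t, m, r, c⟩ := h2 n L U E A B u v z x y z' g ht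
    refine ⟨e, g.sa he, fun hh => hfA (hh ▸ he), t, 1, by omega, ?_, r, c⟩
    unfold Sta.op
    rw [if_pos (hA he)]
    exact m
  · have key : ∀ i ∈ E, i ∈ N → i = f := by
      intro i hi hN
      obtain ⟨u, v, huv⟩ := exists_ends g.val (mem_range.1 (g.sub hi))
      exact g.simp i hi f hf p q (ends_of_same huv (hall u v ⟨i, mem_inter.2 ⟨hN, hi⟩, huv⟩)) hpq
    have hA0 : A = ∅ := eq_empty_of_forall_notMem fun i hi =>
      hfA (key i (g.sa hi) (hA hi) ▸ hi)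
    subst hA0
    obtain ⟨e, he, hef, t, m, hm, mg, r, c⟩ := h3 n L U E B f g hf hfB
    refine ⟨e, he, hef, t, m, hm, ?_, r, c⟩
    unfold Sta.op
    rw [if_neg fun hN => hef (key e he hN)]
    exact mg

end CLB

theorem p_CL (h0 : S_G0) (h1 : S_G1) (h2 : S_G2) (h3 : S_G3) (h4 : S_PA) (hT : SG.S_T3) :
    S_CL := by
  rintro ⟨k, E, A, B⟩ N f ⟨-, n, L, c, hL, hE, hk⟩ w hc h4' hf hfA hfB hA -
  have tc := CLaux.tc_gr hc hk
  obtain ⟨U, hU, hn, hs⟩ := hT n L E hL hE tc h4'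
  obtain ⟨e, he, hef, t, m, hm, mg, r, c3⟩ :=
    CLB.core h0 h1 h2 h3 h4 ⟨hL, hE, hU, tc, hn, hs, w.sa, w.sb, w.dj⟩ h4' hf hfA hfB hA
  have w0 : Sta.WF ⟨comps n L, E, A, B⟩ := ⟨isK_comps n L, w.sa, w.sb, w.dj⟩
  have sh : ∀ D ⊆ (Sta.op ⟨comps n L, E, A, B⟩ N e).E,
      (Sta.op ⟨comps n L, E, A, B⟩ N e).k D + 0 = (Sta.op ⟨k, E, A, B⟩ N e).k D + c := by
    intro D hD
    rw [op_E] at hD
    have hD' : D ⊆ E := hD.trans (erase_subset _ _)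
    unfold Sta.op
    split_ifs
    · exact (hk _ (insert_subset he hD')).symm
    · exact (hk _ hD').symm
  obtain ⟨k2, mg2, h⟩ := mg.congr (w0.op N e) _ sh
  refine ⟨e, he, hef, ⟨k2, t.E, t.A, t.B⟩, m, hm, ?_, r.congr (mg.wf (w0.op N e)) h, c3⟩
  have e1 : (⟨(Sta.op ⟨k, E, A, B⟩ N e).k, (Sta.op ⟨comps n L, E, A, B⟩ N e).E,
      (Sta.op ⟨comps n L, E, A, B⟩ N e).A, (Sta.op ⟨comps n L, E, A, B⟩ N e).B⟩ : Sta) =
      Sta.op ⟨k, E, A, B⟩ N e := by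
    unfold Sta.op
    split_ifs <;> rfl
  rwa [e1] at mg2

end Pool.Agent.P.MP_e0c037_lc.BD
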