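import Pool.Agent.P.MP_e0c037_lc.BD.Base

/-! Comparison of `al` at an element of inner weight with `al` at another element. -/

namespace Pool.Agent.P.MP_e0c037_lc.BD

open Finset Function SG

namespace Cp

theorem arith1 {κ r y A D : ℝ} (k0 : 0 ≤ κ) (h1 : 0 < A + r * D) (h2 : 0 < A - r ^ 2 * D)
    (y1 : -(κ * r) ≤ y) (y2 : y ≤ κ * r ^ 2) : (1 - κ) * A ≤ A - y * D := by
  rcases le_or_gt 0 D with hD | hD
  · have a := mul_le_mul_of_nonneg_right y2 hD
    have b := mul_nonneg k0 h2.le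
    nlinarith
  · have a := mul_le_mul_of_nonpos_right y1 hD.le
    have b := mul_nonneg k0 h1.le
    nlinarith

theorem arith2 {ε e X A y G : ℝ} (eps : ε = 1 ∨ ε = -1) (c0 : 0 < ε * e)
    (h : e * X = e * A - y * G) (hy : |y| ≤ 1) (hG : |G| ≤ A) :
    X ≤ (1 + 1 / (ε * e)) * A := by
  have a3 : |y * G| ≤ A := by
    rw [abs_mul]; nlinarith [abs_nonneg y, abs_nonneg G]
  obtain ⟨a4, a5⟩ := abs_le.1 a3
  have h1 : ε * e * X ≤ ε * e * A + A := by
    rcases eps with rfl | rfl <;> linarith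
  have h2 : ε * e * ((1 + 1 / (ε * e)) * A) = ε * e * A + A := by
    rw [← mul_assoc, mul_add, mul_one_div_cancel c0.ne']; ring
  exact le_of_mul_le_mul_left (h2 ▸ h1) c0

end Cp

theorem p_Cp : S_Cp := by
  intro q r ε κ p
  have S := p.sys
  have hκ : 0 < 1 - κ := by linarith [p.k1]
  have hc0 : 0 < 1 + 1 / (ε * (1 - q)) := by have := one_div_pos.2 S.c0; linarith
  refine ⟨(1 + 1 / (ε * (1 - q))) / (1 - κ), div_pos hc0 hκ, ?_⟩
  intro k E v x f h hc hx hf hxf hv hvx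
  have h2 : 2 ≤ E.card := one_lt_card.2 ⟨x, hx, f, hf, hxf⟩
  obtain ⟨s1, s2⟩ := hc.single h hx hf hxf
  have hup : ∀ w, Vw r (r ^ 2) w → ∀ e ∈ E, e ≠ f → Vw r (r ^ 2) (update v x w e) := by
    intro w hw e he _
    by_cases hex : e = x
    · rw [hex, update_self]; exact hw
    · rw [update_of_ne hex]; exact hv e he
  have r0 : 0 < r := by linarith [p.r0]
  have v0 : Vw r (r ^ 2) (-1) := ⟨by linarith, by nlinarith⟩
  obtain ⟨p0, p1, p2⟩ := claimP' S h hc hf h2 (hup _ v0)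
  obtain ⟨pa, -⟩ := claimP' S h hc hf h2 (hup _ p.vA)
  obtain ⟨pb, -⟩ := claimP' S h hc hf h2 (hup _ p.vB)
  obtain ⟨e0, -⟩ := al_rew (q := q) (v := v) hx hxf s1 s2 (-1)
  obtain ⟨ea, -⟩ := al_rew (q := q) (v := v) hx hxf s1 s2 (-1 - r)
  obtain ⟨eb, -⟩ := al_rew (q := q) (v := v) hx hxf s1 s2 (r ^ 2 - 1)
  have b1 : (1 - κ) * al q k (update v x (-1)) E f ≤ al q k v E f := by
    have := Cp.arith1 (A := al q k (update v x (-1)) E f)
      (D := al q (con k x) v (E.erase x) f) (y := 1 + v x) p.k0 (by linarith) (by linarith)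
      hvx.1 hvx.2
    linarith
  have z1 := Z_eq (k := k) (v := update v x (-1)) S.q1 hx
  have z2 := Z_eq (k := k) (v := update v x (-1)) S.q1 hf
  rw [(al_update _).1, update_self] at z1
  rw [update_of_ne hxf.symm] at z2
  have hvf := hv f hf
  have b2 := Cp.arith2 (X := al q k v E x) (A := al q k (update v x (-1)) E f) (y := 1 + v f)
    (G := ga q k (update v x (-1)) E f) S.eps S.c0 (by linarith)
    (abs_le.2 ⟨by linarith [hvf.1, S.r1], by linarith [hvf.2, S.b1]⟩)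
    (abs_le.2 ⟨by nlinarith [S.r1], by nlinarith [S.b1]⟩)
  refine b2.trans ?_
  rw [div_mul_eq_mul_div, le_div_iff₀ hκ]
  nlinarith [mul_le_mul_of_nonneg_left b1 hc0.le]

end Pool.Agent.P.MP_e0c037_lc.BD
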