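import Pool.Agent.P.MP_e0c037_lc.BD.Base

/-! The choice of an edge in a three-connected graph with two types of special edges. -/

namespace Pool.Agent.P.MP_e0c037_lc.BD

open Finset SG

namespace G0P

variable {V : Type} {U : Finset V} {adj : V → V → Prop} {u v : V}

/-- The four vertices of a three-connected graph on four vertices. -/
theorem four (h : T3 U adj) (huv : adj u v) (h4 : U.card = 4) :
    ∃ w1 w2, w1 ∈ U ∧ w2 ∈ U ∧ w1 ≠ u ∧ w1 ≠ v ∧ w2 ≠ u ∧ w2 ≠ v ∧ w2 ≠ w1 ∧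
      ∀ z ∈ U, z = u ∨ z = v ∨ z = w1 ∨ z = w2 := by
  classical
  have hu := h.mem _ _ huv
  have hv := h.mem' huv
  have n0 := h.ne huv
  obtain ⟨w1, a1, b1, -⟩ := h.deg hu v v
  obtain ⟨w2, a2, b2, c2⟩ := h.deg hu v w1
  have n1 := h.ne a1
  have n2 := h.ne a2
  refine ⟨w1, w2, h.mem' a1, h.mem' a2, n1.symm, b1, n2.symm, b2, c2, fun z hz => ?_⟩
  have hs : ({u, v, w1, w2} : Finset V) ⊆ U := by
    simp only [insert_subset_iff, singleton_subset_iff]
    exact ⟨hu, hv, h.mem' a1, h.mem' a2⟩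
  have hc : ({u, v, w1, w2} : Finset V).card = 4 := by
    rw [card_insert_of_notMem (by simp [n0, n1, n2]),
      card_insert_of_notMem (by simp [b1.symm, b2.symm]), card_pair c2.symm]
  have he := eq_of_subset_of_card_le hs (by omega)
  rw [← he] at hz
  simpa using hz

end G0P

theorem p_G0 : S_G0 := by
  intro V U adj a b c p q h sa sb ac ba ca ab hpq npq
  by_contra hn
  rw [not_or, not_or] at hn
  obtain ⟨h1, h2, h3⟩ := hn
  have aa : ∀ x y, a x y → adj x y := fun x y hh => ca _ _ (ac _ _ hh)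
  have ns : ∀ x y, a x y → ¬ Same x y p q := by
    rintro x y hh (⟨rfl, rfl⟩ | ⟨rfl, rfl⟩)
    exacts [npq hh, npq (sa _ _ hh)]
  have H : ∀ u v, c u v → ¬ Same u v p q → Bad1 adj a b u v ∨ Bad2 U a u v := by
    intro u v hc hs
    by_contra hh
    rw [not_or] at hh
    exact h1 ⟨u, v, hc, hs, hh.1, hh.2⟩
  have N2 : ∀ u v, c u v → ¬ Bad2 U a u v := by
    rintro u v hc ⟨h4, hb⟩
    obtain ⟨w1, w2, m1, m2, n1, n2, n3, n4, n5, all⟩ := G0P.four h (ca _ _ hc) h4
    obtain ⟨e1, e2⟩ := hb w1 m1 n1 n2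
    obtain ⟨e3, e4⟩ := hb w2 m2 n3 n4
    have n0 := h.ne (ca _ _ hc)
    rcases H u w1 (ac _ _ (sa _ _ e1)) (ns _ _ (sa _ _ e1)) with ⟨w, x, f1, f2, f3, f4⟩ | ⟨-, hb'⟩
    · have g1 := h.ne (aa _ _ f1)
      have g2 := h.ne (aa _ _ f2)
      rcases all w (h.mem _ _ (aa _ _ f1)) with rfl | rfl | rfl | rfl
      · exact g1 rfl
      · rcases f4 w2 (aa _ _ (sa _ _ e4)) with g | g | g
        · exact n3 g
        · exact n5 g
        · exact ab _ _ (sa _ _ e4) (g ▸ f3)
      · exact g2 rfl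
      · rcases f4 v (aa _ _ e4) with g | g | g
        · exact n0 g.symm
        · exact n2 g.symm
        · exact ab _ _ e4 (g ▸ f3)
    · have e5 := (hb' v (h.mem' (ca _ _ hc)) n0.symm n2.symm).1
      have e6 := (hb' w2 m2 n3 n5).2
      have s1 := sa _ _ e1
      have s2 := sa _ _ e2
      have s3 := sa _ _ e3
      have s4 := sa _ _ e4
      have s5 := sa _ _ e5
      have s6 := sa _ _ e6
      have g := h.ne hpq
      apply npq
      rcases all p (h.mem _ _ hpq) with rfl | rfl | rfl | rfl <;>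
        rcases all q (h.mem' hpq) with rfl | rfl | rfl | rfl <;>
        first | assumption | exact absurd rfl g
  have B1 : ∀ u v, c u v → ¬ Same u v p q → Bad1 adj a b u v := fun u v hc hs =>
    (H u v hc hs).resolve_right (N2 u v hc)
  obtain ⟨u, v, hc, hs⟩ : ∃ u v, c u v ∧ ¬ Same u v p q := by
    by_contra hh
    exact h3 fun u v hc => by
      by_contra hs
      exact hh ⟨u, v, hc, hs⟩
  obtain ⟨w, x, e1, e2, e3, e4⟩ := B1 u v hc hs
  obtain ⟨w2, y, f1, f2, f3, f4⟩ := B1 w u (ac _ _ e1) (ns _ _ e1)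
  obtain ⟨w3, z, g1, g2, g3, g4⟩ := B1 w v (ac _ _ e2) (ns _ _ e2)
  have k2 : w2 = v := by
    rcases e4 w2 (aa _ _ (sa _ _ f1)) with g | g | g
    · exact absurd g (h.ne (aa _ _ f2))
    · exact g
    · exact absurd (g ▸ e3) (ab _ _ (sa _ _ f1))
  have k3 : w3 = u := by
    rcases e4 w3 (aa _ _ (sa _ _ g1)) with g | g | g
    · exact g
    · exact absurd g (h.ne (aa _ _ g2))
    · exact absurd (g ▸ e3) (ab _ _ (sa _ _ g1))
  subst k2 k3
  refine h2 ⟨w3, w2, w, x, y, z, g2, g1, f1, e3, f3, g3, e4, fun t ht => ?_, fun t ht => ?_⟩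
  · have := f4 t ht; tauto
  · have := g4 t ht; tauto

end Pool.Agent.P.MP_e0c037_lc.BD
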