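import Pool.Agent.P.MP_e0c037_lc.BD.Base
import Pool.Agent.P.MP_e0c037_lc.SG.GCtr

/-! Contraction of a clean edge. -/

namespace Pool.Agent.P.MP_e0c037_lc.BD

open Finset SG

namespace G1

/-- The edges of a block that leave a vertex set start at `c` and end in `P`. -/
def T {V : Type} (a b : V → V → Prop) (u v c : V) (P : V → Prop) : Prop :=
  (∃ z, b c z ∧ ∀ y, P y → y = z) ∨ (a c u ∧ a c v ∧ ∀ y, P y → y = u ∨ y = v)

/-- The statement on vertices. -/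
theorem core {V : Type} {U W : Finset V} {adj a b : V → V → Prop} {u v c1 c2 : V}
    {P1 P2 : V → Prop} (h : T3 U adj) (huv : adj u v) (hW : W ⊆ U) (hu : u ∉ W) (hv : v ∉ W)
    (ex : ∃ x ∈ W, ∃ y, y ∉ W ∧ adj x y)
    (lv : ∀ x ∈ W, ∀ y, y ∉ W → adj x y → (x = c1 ∧ P1 y) ∨ (x = c2 ∧ P2 y))
    (h1 : T a b u v c1 P1) (h2 : T a b u v c2 P2) : Bad1 adj a b u v ∨ Bad2 U a u v := by
  classical
  have uU : u ∈ U := h.mem u v huv
  have vU : v ∈ U := h.mem' huv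
  have ne : u ≠ v := h.ne huv
  obtain ⟨x, hx, y, hy, hxy⟩ := ex
  have xc : x = c1 ∨ x = c2 := (lv x hx y hy hxy).imp And.left And.left
  have sub : ∀ z ∈ W, z = c1 ∨ z = c2 := by
    by_contra hn
    push Not at hn
    obtain ⟨z, hz, z1, z2⟩ := hn
    have cut := h.cut ((W.erase c1).erase c2)
      (((erase_subset _ _).trans (erase_subset _ _)).trans hW) c1 c2
      ⟨z, mem_erase.2 ⟨z2, mem_erase.2 ⟨z1, hz⟩⟩⟩
      (fun hh => notMem_erase _ _ (mem_of_mem_erase hh)) (notMem_erase _ _) fun w hw p hp => by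
        obtain ⟨w2, hw⟩ := mem_erase.1 hw
        obtain ⟨w1, hw⟩ := mem_erase.1 hw
        by_cases e1 : p = c1
        · exact Or.inr (Or.inl e1)
        by_cases e2 : p = c2
        · exact Or.inr (Or.inr e2)
        refine Or.inl (mem_erase.2 ⟨e2, mem_erase.2 ⟨e1, ?_⟩⟩)
        by_contra hp'
        exact (lv w hw p hp' hp).elim (fun hh => w1 hh.1) fun hh => w2 hh.1
    have a1 := (cut u uU).resolve_left fun hh => hu (mem_of_mem_erase (mem_of_mem_erase hh))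
    have a2 := (cut v vU).resolve_left fun hh => hv (mem_of_mem_erase (mem_of_mem_erase hh))
    have a3 : x ≠ u := fun hh => hu (hh ▸ hx)
    have a4 : x ≠ v := fun hh => hv (hh ▸ hx)
    grind
  by_cases two : c1 ∈ W ∧ c2 ∈ W ∧ c1 ≠ c2
  · obtain ⟨m1, m2, m3⟩ := two
    have n1 : ∀ p, adj c1 p → p = c2 ∨ P1 p := fun p hp => by
      by_cases hp' : p ∈ W
      · exact Or.inl ((sub p hp').resolve_left (h.ne hp).symm)
      · exact Or.inr ((lv c1 m1 p hp' hp).resolve_right fun hh => m3 hh.1).2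
    have n2 : ∀ p, adj c2 p → p = c1 ∨ P2 p := fun p hp => by
      by_cases hp' : p ∈ W
      · exact Or.inl ((sub p hp').resolve_right (h.ne hp).symm)
      · exact Or.inr ((lv c2 m2 p hp' hp).resolve_left fun hh => m3 hh.1.symm).2
    rcases h1 with ⟨z, -, hz⟩ | ⟨b1, b2, b3⟩
    · obtain ⟨p, hp, p1, p2⟩ := h.deg (hW m1) c2 z
      exact absurd (hz p ((n1 p hp).resolve_left p1)) p2
    rcases h2 with ⟨z, -, hz⟩ | ⟨d1, d2, d3⟩
    · obtain ⟨p, hp, p1, p2⟩ := h.deg (hW m2) c1 z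
      exact absurd (hz p ((n2 p hp).resolve_left p1)) p2
    have cut := h.cut W hW u v ⟨x, hx⟩ hu hv fun w hw p hp => by
      by_cases hp' : p ∈ W
      · exact Or.inl hp'
      · exact Or.inr ((lv w hw p hp' hp).elim (fun hh => b3 p hh.2) fun hh => d3 p hh.2)
    refine Or.inr ⟨le_antisymm ?_ h.four, fun w hw w1 w2 => ?_⟩
    · have hs : U ⊆ {c1, c2, u, v} := fun p hp => by
        have := cut p hp
        have := sub p
        simp only [mem_insert, mem_singleton]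
        tauto
      exact (card_le_card hs).trans card_le_four
    · rcases sub w (((cut w hw).resolve_right fun hh => hh.elim w1 w2)) with rfl | rfl
      exacts [⟨b1, b2⟩, ⟨d1, d2⟩]
  · have nb : ∀ p, adj x p → (x = c1 ∧ P1 p) ∨ (x = c2 ∧ P2 p) := fun p hp => by
      refine lv x hx p (fun hp' => two ?_) hp
      have := h.ne hp
      have := sub p hp'
      grind
    rcases h1 with ⟨z1, b1, hz1⟩ | ⟨b1, b2, b3⟩ <;> rcases h2 with ⟨z2, d1, hz2⟩ | ⟨d1, d2, d3⟩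
    · obtain ⟨p, hp, p1, p2⟩ := h.deg (hW hx) z1 z2
      exact ((nb p hp).elim (fun hh => p1 (hz1 p hh.2)) fun hh => p2 (hz2 p hh.2)).elim
    · obtain ⟨p, hp, p1, p2⟩ := h.deg (hW hx) u v
      obtain ⟨q, hq, q1, -⟩ := h.deg (hW hx) z1 z1
      obtain rfl : x = c1 := ((nb p hp).resolve_right fun hh => (d3 p hh.2).elim p1 p2).1
      obtain rfl : x = c2 := ((nb q hq).resolve_left fun hh => q1 (hz1 q hh.2)).1
      refine Or.inl ⟨x, z1, d1, d2, b1, fun z hz => ?_⟩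
      rcases nb z hz with hh | hh
      · exact Or.inr (Or.inr (hz1 z hh.2))
      · exact (d3 z hh.2).imp_right Or.inl
    · obtain ⟨p, hp, p1, p2⟩ := h.deg (hW hx) u v
      obtain ⟨q, hq, q1, -⟩ := h.deg (hW hx) z2 z2
      obtain rfl : x = c2 := ((nb p hp).resolve_left fun hh => (b3 p hh.2).elim p1 p2).1
      obtain rfl : x = c1 := ((nb q hq).resolve_right fun hh => q1 (hz2 q hh.2)).1
      refine Or.inl ⟨x, z2, b1, b2, d1, fun z hz => ?_⟩
      rcases nb z hz with hh | hh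
      · exact (b3 z hh.2).imp_right Or.inl
      · exact Or.inr (Or.inr (hz2 z hh.2))
    · obtain ⟨p, hp, p1, p2⟩ := h.deg (hW hx) u v
      exact ((nb p hp).elim (fun hh => (b3 p hh.2).elim p1 p2)
        fun hh => (d3 p hh.2).elim p1 p2).elim

variable {n : ℕ} {L : List (ℕ × ℕ)} {U : Finset (Fin n)} {E A B : Finset ℕ} {e : ℕ} {u v : Fin n}

/-- Parallel pairs after the contraction. -/
theorem pair (h1 : S_Con) (g : Gg n L U E A B) (he : e ∈ E) (hu : Ends L e u v) {x y : ℕ}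
    (hx : x ∈ E) (hy : y ∈ E) (hxy : x ≠ y) (p : Par (con (comps n L) e) x y) :
    ∃ w, (Ends L x w u ∧ Ends L y w v) ∨ (Ends L x w v ∧ Ends L y w u) := by
  have huv : u ≠ v := g.t3.ne ⟨e, he, hu⟩
  obtain ⟨-, -, c3, c4⟩ := h1 n L e u v g.val hu huv
  have k1 : ∀ A, con (comps n L) e A + 1 = comps n (mrgL L u v) A + 0 := fun A => (c3 A).symm
  have p' := par_congr (E := E) (fun A _ => k1 A) hx hy p
  have key : ∀ a b c d : Fin n, Ends L x a b → Ends L y c d → a ≠ c →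
      (if a = v then u else a) = (if c = v then u else c) →
      (if b = v then u else b) = (if d = v then u else d) →
      (if a = v then u else a) ≠ (if b = v then u else b) →
      ∃ w, (Ends L x w u ∧ Ends L y w v) ∨ (Ends L x w v ∧ Ends L y w u) := by
    intro a b c d ex ey b1 b2 b3 b4
    have b5 : b = d ∧ ((a = u ∧ c = v) ∨ (a = v ∧ c = u)) := by grind
    obtain ⟨rfl, ⟨rfl, rfl⟩ | ⟨rfl, rfl⟩⟩ := b5
    · exact ⟨b, Or.inl ⟨ex.symm, ey.symm⟩⟩
    · exact ⟨b, Or.inr ⟨ex.symm, ey.symm⟩⟩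
  have key2 : ∀ a b c d : Fin n, Ends L x a b → Ends L y c d →
      (if a = v then u else a) = (if c = v then u else c) →
      (if b = v then u else b) = (if d = v then u else d) →
      (if a = v then u else a) ≠ (if b = v then u else b) →
      ∃ w, (Ends L x w u ∧ Ends L y w v) ∨ (Ends L x w v ∧ Ends L y w u) := by
    intro a b c d ex ey b2 b3 b4
    by_cases b1 : a = c
    · by_cases b5 : b = d
      · subst b1 b5; exact absurd (g.simp x hx y hy _ _ ex ey) hxy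
      · exact key b a d c ex.symm ey.symm b5 b3 b2 b4.symm
    · exact key a b c d ex ey b1 b2 b3 b4
  obtain ⟨a, b, ex⟩ := exists_ends g.val (mem_range.1 (g.sub hx))
  obtain ⟨c, d, ey⟩ := exists_ends g.val (mem_range.1 (g.sub hy))
  obtain ⟨b1, ⟨b2, b3⟩ | ⟨b2, b3⟩⟩ := GCtr.of_par ((c4 _ _ _).2 ⟨a, b, ex, rfl, rfl⟩)
    ((c4 _ _ _).2 ⟨c, d, ey, rfl, rfl⟩) p'
  · exact key2 a b c d ex ey b2 b3 b1
  · exact key2 a b d c ex ey.symm b2 b3 b1

theorem blk_sub (g : Gg n L U E A B) {D : Finset ℕ}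
    (hD : Blk (Sta.ctr ⟨comps n L, E, A, B⟩ e) D) : D ⊆ E.erase e := by
  rcases hD with ⟨b, hb, rfl⟩ | ⟨x, hx, y, hy, -, -, rfl⟩
  · exact singleton_subset_iff.2 (erase_subset_erase _ g.sb hb)
  · exact insert_subset (erase_subset_erase _ g.sa hx)
      (singleton_subset_iff.2 (erase_subset_erase _ g.sa hy))

/-- The edges of a block that leave `W`. -/
theorem blk (h1 : S_Con) (g : Gg n L U E A B) (he : e ∈ E) (hu : Ends L e u v) {D : Finset ℕ}
    (hD : Blk (Sta.ctr ⟨comps n L, E, A, B⟩ e) D) {W : Finset (Fin n)} (uW : u ∉ W)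
    (vW : v ∉ W) : ∃ c P, T (Ad n L A) (Ad n L B) u v c P ∧
      ∀ x ∈ W, ∀ y, y ∉ W → Ad n L D x y → x = c ∧ P y := by
  rcases hD with ⟨b, hb, rfl⟩ | ⟨i, hi, j, hj, hij, p, rfl⟩
  · have hb' : b ∈ B := mem_of_mem_erase hb
    obtain ⟨p, q, h⟩ := exists_ends g.val (mem_range.1 (g.sub (g.sb hb')))
    by_cases hp : p ∈ W
    · refine ⟨p, fun y => y = q, Or.inl ⟨q, ⟨b, hb', h⟩, fun _ hh => hh⟩, ?_⟩
      rintro x hx y hy ⟨l, hl, hh⟩
      rw [mem_singleton.1 hl] at hh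
      rcases Ends_same hh h with ⟨rfl, rfl⟩ | ⟨rfl, rfl⟩
      exacts [⟨rfl, rfl⟩, absurd hp hy]
    · refine ⟨q, fun y => y = p, Or.inl ⟨p, ⟨b, hb', h.symm⟩, fun _ hh => hh⟩, ?_⟩
      rintro x hx y hy ⟨l, hl, hh⟩
      rw [mem_singleton.1 hl] at hh
      rcases Ends_same hh h with ⟨rfl, rfl⟩ | ⟨rfl, rfl⟩
      exacts [absurd hx hp, ⟨rfl, rfl⟩]
  · have hi' : i ∈ A := mem_of_mem_erase hi
    have hj' : j ∈ A := mem_of_mem_erase hj
    have main : ∀ i ∈ A, ∀ j ∈ A, ∀ w, Ends L i w u → Ends L j w v → ∀ D : Finset ℕ,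
        (∀ l ∈ D, l = i ∨ l = j) → ∃ c P, T (Ad n L A) (Ad n L B) u v c P ∧
          ∀ x ∈ W, ∀ y, y ∉ W → Ad n L D x y → x = c ∧ P y := by
      intro i hi j hj w e1 e2 D hD
      refine ⟨w, fun y => y = u ∨ y = v, Or.inr ⟨⟨i, hi, e1⟩, ⟨j, hj, e2⟩, fun _ hh => hh⟩, ?_⟩
      rintro x hx y - ⟨l, hl, hh⟩
      rcases hD l hl with rfl | rfl
      · rcases Ends_same hh e1 with ⟨rfl, rfl⟩ | ⟨rfl, rfl⟩
        exacts [⟨rfl, Or.inl rfl⟩, absurd hx uW]
      · rcases Ends_same hh e2 with ⟨rfl, rfl⟩ | ⟨rfl, rfl⟩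
        exacts [⟨rfl, Or.inr rfl⟩, absurd hx vW]
    obtain ⟨w, ⟨e1, e2⟩ | ⟨e1, e2⟩⟩ := pair h1 g he hu (g.sa hi') (g.sa hj') hij p
    · exact main i hi' j hj' w e1 e2 _ fun l hl => by simpa using hl
    · exact main j hj' i hi' w e2 e1 _ fun l hl => by simpa [or_comm] using hl

end G1

open G1 in
theorem p_G1 (h1 : SG.S_Con) (h2 : SG.S_Cmp) : S_G1 := by
  classical
  intro n L U E A B e u v g he hu nb1 nb2 D1 D2 b1 b2 _
  have s1 := blk_sub g b1
  have s2 := blk_sub g b2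
  have sD : D1 ∪ D2 ⊆ E.erase e := union_subset s1 s2
  change comps n L (insert e (E.erase e \ (D1 ∪ D2))) = comps n L (insert e (E.erase e))
  rw [insert_erase he]
  generalize hF : insert e (E.erase e \ (D1 ∪ D2)) = F
  have eF : e ∈ F := hF ▸ mem_insert_self _ _
  have mF : ∀ i ∈ E, i ∉ D1 ∪ D2 → i ∈ F := fun i hi hn => by
    rw [← hF]
    by_cases hie : i = e
    · exact mem_insert.2 (Or.inl hie)
    · exact mem_insert_of_mem (mem_sdiff.2 ⟨mem_erase.2 ⟨hie, hi⟩, hn⟩)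
  have FE : F ⊆ E := hF ▸ insert_subset he (sdiff_subset.trans (erase_subset _ _))
  have uF : F ∪ (D1 ∪ D2) = E := by
    refine Subset.antisymm (union_subset FE (sD.trans (erase_subset _ _))) fun i hi => ?_
    by_cases hn : i ∈ D1 ∪ D2
    exacts [mem_union_right _ hn, mem_union_left _ (mF i hi hn)]
  by_contra hn
  have le := (isK_comps n L).anti FE
  obtain ⟨C, cl, w, hw, x, hx, hwx⟩ := h2.2.2 n L F (D1 ∪ D2) (by rw [uF]; omega)
  have hwx' : Ad n L E w x :=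
    let ⟨i, hi, hh⟩ := hwx; ⟨i, mem_of_mem_erase (sD hi), hh⟩
  obtain ⟨W, hW, uW, vW, ex, lv⟩ : ∃ W ⊆ U, u ∉ W ∧ v ∉ W ∧ (∃ x ∈ W, ∃ y, y ∉ W ∧ Ad n L E x y) ∧
      ∀ x ∈ W, ∀ y, y ∉ W → Ad n L E x y → ¬ Ad n L F x y := by
    by_cases uC : u ∈ C
    · have vC : v ∈ C := cl u uC v ⟨e, eF, hu⟩
      refine ⟨U \ C, sdiff_subset, fun hh => (mem_sdiff.1 hh).2 uC, fun hh => (mem_sdiff.1 hh).2 vC,
        ⟨x, mem_sdiff.2 ⟨g.t3.mem' hwx', hx⟩, w, fun hh => (mem_sdiff.1 hh).2 hw, hwx'.symm⟩,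
        fun p hp q hq hE hF' => ?_⟩
      have : q ∈ C := by
        by_contra hh
        exact hq (mem_sdiff.2 ⟨g.t3.mem' hE, hh⟩)
      exact (mem_sdiff.1 hp).2 (cl q this p hF'.symm)
    · have vC : v ∉ C := fun hh => uC (cl v hh u ⟨e, eF, hu.symm⟩)
      refine ⟨U ∩ C, inter_subset_left, fun hh => uC (mem_inter.1 hh).2,
        fun hh => vC (mem_inter.1 hh).2,
        ⟨w, mem_inter.2 ⟨g.t3.mem _ _ hwx', hw⟩, x, fun hh => hx (mem_inter.1 hh).2, hwx'⟩,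
        fun p hp q hq hE hF' => ?_⟩
      exact hq (mem_inter.2 ⟨g.t3.mem' hE, cl p (mem_inter.1 hp).2 q hF'⟩)
  obtain ⟨c1, P1, t1, l1⟩ := blk h1 g he hu b1 uW vW
  obtain ⟨c2, P2, t2, l2⟩ := blk h1 g he hu b2 uW vW
  refine (core g.t3 ⟨e, he, hu⟩ hW uW vW ex (fun p hp q hq hE => ?_) t1 t2).elim nb1 nb2
  obtain ⟨i, hi, hh⟩ := id hE
  have hD : i ∈ D1 ∪ D2 := by
    by_contra hn'
    exact lv p hp q hq hE ⟨i, mF i hi hn', hh⟩
  exact (mem_union.1 hD).imp (fun h => l1 p hp q hq ⟨i, h, hh⟩) fun h => l2 p hp q hq ⟨i, h, hh⟩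

end Pool.Agent.P.MP_e0c037_lc.BD
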