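import Pool.Agent.P.MP_e0c037_lc.BD.Base

/-! The class lemma for graphs at a triangle of the first type with cubic vertices. -/

namespace Pool.Agent.P.MP_e0c037_lc.BD

open Finset SG

namespace G2P

variable {n : ℕ} {L : List (ℕ × ℕ)} {E A B : Finset ℕ} {U : Finset (Fin n)}

/-- The edges at a cubic vertex. -/
theorem at3 (G : Gg n L U E A B) {p a b c : Fin n} {i j l : ℕ} (hi : i ∈ E) (hj : j ∈ E)
    (hl : l ∈ E) (ei : Ends L i p a) (ej : Ends L j p b) (el : Ends L l p c)
    (h : ∀ t, Ad n L E p t → t = a ∨ t = b ∨ t = c) :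
    ∀ m ∈ E, ∀ t, Ends L m p t → m = i ∨ m = j ∨ m = l := by
  intro m hm t ht
  rcases h t ⟨m, hm, ht⟩ with rfl | rfl | rfl
  · exact Or.inl (G.simp m hm i hi p t ht ei)
  · exact Or.inr (Or.inl (G.simp m hm j hj p t ht ej))
  · exact Or.inr (Or.inr (G.simp m hm l hl p t ht el))

end G2P

open G2P in
theorem p_G2 : S_G2 := by
  rintro n L U E A B u v w x y z G ⟨⟨g, hg, eg⟩, ⟨e, he, ee⟩, ⟨h, hh, eh⟩, ⟨m1, hm1, em1⟩,
    ⟨l, hl, el⟩, ⟨m2, hm2, em2⟩, nw, nv, nu⟩
  have K := isK_comps n L
  have c6 := six G.t3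
  have c4 : 4 ≤ E.card := by omega
  have gE := G.sa hg
  have eE := G.sa he
  have hE := G.sa hh
  have lE := G.sb hl
  have ab : ∀ i ∈ A, ∀ j ∈ B, i ≠ j := fun i hi j hj c => disjoint_left.1 G.dj hi (c ▸ hj)
  have uv : u ≠ v := G.t3.ne ⟨g, gE, eg⟩
  have uw : u ≠ w := G.t3.ne ⟨e, eE, ee⟩
  have vw : v ≠ w := G.t3.ne ⟨h, hE, eh⟩
  have vy : v ≠ y := G.t3.ne ⟨l, lE, el⟩
  have yu : y ≠ u := fun c => ab g hg l hl (G.simp g gE l lE v y (c ▸ eg.symm) el)
  have yw : y ≠ w := fun c => ab h hh l hl (G.simp h hE l lE v y (c ▸ eh) el)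
  have ge : g ≠ e := fun c => by have := Ends_same eg (c ▸ ee); unfold Same at this; grind
  have he' : h ≠ e := fun c => by have := Ends_same eh (c ▸ ee); unfold Same at this; grind
  have gh : g ≠ h := fun c => by have := Ends_same eg (c ▸ eh); unfold Same at this; grind
  have gl := ab g hg l hl
  have hl' := ab h hh l hl
  have el' := ab e he l hl
  have atu := at3 G gE eE (G.sb hm2) eg ee em2 nu
  have atv := at3 G gE hE lE eg.symm eh el nv
  have atw := at3 G eE hE (G.sb hm1) ee.symm eh.symm em1 nw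
  have far : ∀ a ∈ A, a ≠ e → a ≠ g → a ≠ h →
      (∀ t, ¬ Ends L a u t) ∧ (∀ t, ¬ Ends L a v t) ∧ ∀ t, ¬ Ends L a w t := by
    intro a ha a1 a2 a3
    refine ⟨fun t ht => ?_, fun t ht => ?_, fun t ht => ?_⟩
    · rcases atu a (G.sa ha) t ht with c | c | c
      exacts [a2 c, a1 c, ab a ha m2 hm2 c]
    · rcases atv a (G.sa ha) t ht with c | c | c
      exacts [a2 c, a3 c, ab a ha l hl c]
    · rcases atw a (G.sa ha) t ht with c | c | c
      exacts [a1 c, a3 c, ab a ha m1 hm1 c]
  have lu : ∀ t, ¬ Ends L l u t := fun t ht => by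
    have := Ends_same ht el; unfold Same at this; grind
  have lw : ∀ t, ¬ Ends L l w t := fun t ht => by
    have := Ends_same ht el; unfold Same at this; grind
  have gw : ∀ t, ¬ Ends L g w t := fun t ht => by
    have := Ends_same ht eg; unfold Same at this; grind
  have r1 : comps n L {e} + 1 = comps n L ∅ := by
    have := fresh (S := ∅) ee uw (by simp)
    rwa [insert_empty_eq] at this
  have pp : Par (con (comps n L) e) g h := by
    have a1 := (tc_pair K G.tc c4 eE gE ge.symm).1
    have a2 := (tc_pair K G.tc c4 eE hE he'.symm).1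
    have a3 := tri (S := {e, g}) eh (j := g) (l := e) (by simp) (by simp) eg.symm ee uv.symm uw
    have e1 : (insert h {e, g} : Finset ℕ) = insert e {g, h} := by
      ext j; simp only [mem_insert, mem_singleton]; tauto
    rw [e1] at a3
    unfold Par con
    rw [insert_empty_eq]
    exact ⟨by omega, by omega, by omega⟩
  have sp : Ser (con (comps n L) e) ((E.erase e).erase h) g l := by
    have a1 := (tc_pair K G.tc c4 gE hE gh).2
    have a2 := (tc_pair K G.tc c4 lE hE hl'.symm).2
    have a3 := K.anti (erase_subset h E)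
    have a4 := K.anti (erase_subset g (E.erase h))
    have a5 := fresh (S := ((E.erase h).erase l).erase g) eg.symm uv.symm fun j hj t ht => by
      simp only [mem_erase] at hj
      rcases atv j hj.2.2.2 t ht with c | c | c
      exacts [hj.1 c, hj.2.2.1 c, hj.2.1 c]
    rw [insert_erase (mem_erase.2 ⟨gl, mem_erase.2 ⟨gh, gE⟩⟩)] at a5
    have e1 : insert e ((E.erase e).erase h) = E.erase h := by
      rw [erase_right_comm, insert_erase (mem_erase.2 ⟨he'.symm, eE⟩)]
    have e2 : insert e (((E.erase e).erase h).erase g) = (E.erase h).erase g := by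
      ext j; simp only [mem_insert, mem_erase]; grind
    have e3 : insert e (((E.erase e).erase h).erase l) = (E.erase h).erase l := by
      ext j; simp only [mem_insert, mem_erase]; grind
    have e4 : insert e ((((E.erase e).erase h).erase l).erase g) =
        ((E.erase h).erase l).erase g := by
      ext j; simp only [mem_insert, mem_erase]; grind
    unfold Ser con
    rw [e1, e2, e3, e4]
    exact ⟨by omega, by omega, by omega⟩
  have r2 := (tc_pair K G.tc c4 eE lE el').1
  have kg : ∀ b ∈ A, b ≠ e → b ≠ g → b ≠ h →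
      comps n L (insert e (insert l {g, b})) + 4 = comps n L ∅ := by
    intro b hb b1 b2 b3
    obtain ⟨f1, -, f3⟩ := far b hb b1 b2 b3
    have a1 := (tc_pair K G.tc c4 lE (G.sa hb) (ab b hb l hl).symm).1
    have a2 := fresh (S := {l, b}) eg uv fun j hj t ht => by
      rcases mem_insert.1 hj with c | c
      · exact lu t (c ▸ ht)
      · exact f1 t (mem_singleton.1 c ▸ ht)
    have a3 := fresh (S := insert g {l, b}) ee.symm uw.symm fun j hj t ht => by
      rcases mem_insert.1 hj with c | c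
      · exact gw t (c ▸ ht)
      rcases mem_insert.1 c with c | c
      · exact lw t (c ▸ ht)
      · exact f3 t (mem_singleton.1 c ▸ ht)
    rw [Finset.insert_comm l g]
    omega
  refine ⟨e, he, _, .par (x := g) (y := h) (mem_erase.2 ⟨ge, hg⟩) (mem_erase.2 ⟨he', hh⟩) gh pp
    (.ser (x := g) (y := l) (mem_insert_self _ _)
      (mem_insert_of_mem (mem_erase.2 ⟨el'.symm, hl⟩)) gl sp (.refl _)), ⟨?_, ?_⟩, ?_⟩
  · intro a ha b hb hab p
    have p3 : comps n L (insert e (insert l {a, b})) + 1 = comps n L (insert e (insert l ∅)) :=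
      p.2.2
    rw [insert_empty_eq] at p3
    simp only [Sta.ser, Sta.par, Sta.ctr, mem_insert, mem_erase] at ha hb
    rcases ha with rfl | ⟨a2, a3, a1, ha⟩
    · rcases hb with rfl | ⟨b2, b3, b1, hb⟩
      · exact hab rfl
      · have := kg b hb b1 b2 b3
        omega
    rcases hb with rfl | ⟨b2, b3, b1, hb⟩
    · have := kg a ha a1 a2 a3
      rw [pair_comm] at this
      omega
    obtain ⟨f1, f2, -⟩ := far a ha a1 a2 a3
    obtain ⟨g1, g2, -⟩ := far b hb b1 b2 b3
    have d1 := (tc_pair K G.tc c4 (G.sa ha) (G.sa hb) hab).1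
    have d2 := fresh (S := {a, b}) el vy fun j hj t ht => by
      rcases mem_insert.1 hj with c | c
      · exact f2 t (c ▸ ht)
      · exact g2 t (mem_singleton.1 c ▸ ht)
    have d3 := fresh (S := insert l {a, b}) ee uw fun j hj t ht => by
      rcases mem_insert.1 hj with c | c
      · exact lu t (c ▸ ht)
      rcases mem_insert.1 c with c | c
      · exact f1 t (c ▸ ht)
      · exact g1 t (mem_singleton.1 c ▸ ht)
    omega
  · intro a ha b hb hab p
    simp only [Sta.ser, Sta.par, Sta.ctr, mem_insert, mem_erase] at ha hb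
    obtain ⟨a1, a2, ha⟩ := ha
    obtain ⟨b1, b2, hb⟩ := hb
    obtain ⟨a3, ha⟩ := ha.resolve_left a1
    obtain ⟨b3, hb⟩ := hb.resolve_left b1
    have q1 : Ser (con (comps n L) e) ((E.erase e).erase h) a b :=
      ser_of_con (mem_erase.2 ⟨hl'.symm, mem_erase.2 ⟨el'.symm, lE⟩⟩) a2 b2 p
    have q2 := ser_of_par_del (K.con e) pp (mem_erase.2 ⟨ge, gE⟩) gh a1 b1 q1
    have q3 := (ser_of_con eE a3 b3 q2).2.2
    have := (tc_pair K G.tc c4 (G.sb ha) (G.sb hb) hab).2
    omega
  · change 3 ≤ (((E.erase e).erase h).erase l).card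
    have a1 := card_erase_add_one eE
    have a2 := card_erase_add_one (mem_erase.2 ⟨he', hE⟩)
    have a3 := card_erase_add_one (mem_erase.2 ⟨hl'.symm, mem_erase.2 ⟨el'.symm, lE⟩⟩)
    omega

end Pool.Agent.P.MP_e0c037_lc.BD
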