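import Pool.Agent.P.MP_e0c037_lc.BD.Base
import Pool.Agent.P.MP_e0c037_lc.SG.DCtr

/-! The class lemma for graphs when the first set of special elements is empty. -/

namespace Pool.Agent.P.MP_e0c037_lc.BD

open Finset SG

namespace G3

variable {n : ℕ} {L : List (ℕ × ℕ)} {E B : Finset ℕ} {U : Finset (Fin n)}

/-- The choice of the edge. -/
theorem pick (h1 : SG.S_Reg) (h2 : SG.S_Dc) (h : T3 U (Ad n L E)) {f : ℕ} {p q : Fin n}
    (hf : f ∈ E) (hpq : Ends L f p q) :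
    ∃ e ∈ E, e ≠ f ∧ ∃ u v, Ends L e u v ∧ Star U (Ad n L E) u v ∧
      (U.card = 4 → ∃ z, Ends L f u z) := by
  by_cases h4 : U.card = 4
  · obtain ⟨v, ⟨e, he, hv⟩, hq, -⟩ := h.deg (h.mem p q ⟨f, hf, hpq⟩) q q
    refine ⟨e, he, fun hh => ?_, p, v, hv, fun C hC hp hv' hd => ?_, fun _ => ⟨q, hpq⟩⟩
    · rcases Ends_same hv (hh ▸ hpq) with ⟨-, a⟩ | ⟨a, -⟩
      · exact hq a
      · exact h.ne ⟨f, hf, hpq⟩ a
    · obtain ⟨-, -, -, d4, -⟩ := h2 _ U _ h
      have hvU : v ∈ U := h.mem' ⟨e, he, hv⟩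
      have s1 : C ⊆ U.erase v := fun x hx => mem_erase.2 ⟨fun hh => hv' (hh ▸ hx), hC hx⟩
      have c1 := card_le_card s1
      have c2 := card_erase_add_one hvU
      have c3 : 0 < C.card := card_pos.2 ⟨p, hp⟩
      have c4 : C.card ≠ 2 := fun hh => by have := d4 C hC hh; omega
      by_cases c5 : C.card = 1
      · obtain ⟨x, rfl⟩ := card_eq_one.1 c5
        exact Or.inl (by rw [mem_singleton.1 hp])
      · exact Or.inr (eq_of_subset_of_card_le s1 (by omega))
  · obtain ⟨A, hA⟩ := h1 _ U (Ad n L E) (fun _ _ => False) (Ad n L {f}) h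
      ⟨fun _ _ a => a, fun _ _ a => a.elim, fun _ _ a => a.symm,
        fun x y ⟨j, hj, a⟩ => ⟨⟨j, mem_singleton.1 hj ▸ hf, a⟩, not_false⟩,
        fun x y z w ⟨i, hi, a⟩ ⟨j, hj, b⟩ =>
          Ends_same a (by rw [mem_singleton.1 hi, ← mem_singleton.1 hj]; exact b),
        fun a => absurd ⟨f, mem_singleton_self f, hpq⟩ (a p q)⟩
    obtain ⟨u, hu⟩ := hA.ne
    obtain ⟨a, ha, -⟩ := h.deg (hA.sub hu) u u
    obtain ⟨b, hb, hba, -⟩ := h.deg (hA.sub hu) a a
    have key : ∃ v, Ad n L E u v ∧ v ∈ A ∧ ¬ Ad n L {f} u v := by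
      by_contra hn
      have hn' : ∀ v, Ad n L E u v → v ∉ A ∨ Ad n L {f} u v := fun v hv => by
        by_contra hh
        exact hn ⟨v, hv, by_contra fun c => hh (Or.inl c), fun c => hh (Or.inr c)⟩
      exact hba (hA.one u hu b a hb ha (hn' b hb) (hn' a ha))
    obtain ⟨v, hv, hvA, hfe⟩ := key
    have hs := hA.star u hu v hvA hv hfe
    obtain ⟨e, he, hv⟩ := hv
    exact ⟨e, he, fun hh => hfe ⟨f, mem_singleton_self f, hh ▸ hv⟩, u, v, hv, hs,
      fun a => absurd a h4⟩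

open Classical in
/-- The edges of `F` at `u`. -/
noncomputable def at' (L : List (ℕ × ℕ)) (F : Finset ℕ) (u : Fin n) : Finset ℕ :=
  F.filter fun j => ∃ z, Ends L j u z

theorem mem_at {F : Finset ℕ} {u : Fin n} {j : ℕ} :
    j ∈ at' L F u ↔ j ∈ F ∧ ∃ z, Ends L j u z := by
  classical
  unfold at'
  convert mem_filter

theorem at_eq (h : T3 U (Ad n L E)) {e x y : ℕ} {u v : Fin n} (he : e ∈ E)
    (hx : x ∈ E.erase e) (hy : y ∈ E.erase e) (huv : Ends L e u v)
    (h1 : ∀ j ∈ E, ∀ z, Ends L j u z → j = e ∨ j = x ∨ j = y) :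
    at' L (E.erase e) u = {x, y} := by
  have a1 := (DCtr.star_al h he (mem_of_mem_erase hx) (mem_of_mem_erase hy) huv h1).2
  have a2 := (DCtr.star_al h he (mem_of_mem_erase hy) (mem_of_mem_erase hx) huv
    fun j hj z hz => (h1 j hj z hz).imp_right Or.symm).2
  ext j
  rw [mem_at, mem_insert, mem_singleton]
  constructor
  · rintro ⟨hj, z, hz⟩
    exact (h1 j (mem_of_mem_erase hj) z hz).resolve_left (ne_of_mem_erase hj)
  · rintro (rfl | rfl)
    exacts [⟨hx, a1⟩, ⟨hy, a2⟩]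

/-- A vertex with two edges besides `e`. -/
theorem two (g : Gg n L U E ∅ B) {e : ℕ} {u v : Fin n} (he : e ∈ E) (huv : Ends L e u v)
    (h2 : (at' L (E.erase e) u).card = 2) :
    ∃ i j a b, at' L (E.erase e) u = {i, j} ∧ Ends L i u a ∧ Ends L j u b ∧ a ≠ b ∧ a ≠ u ∧
      b ≠ u ∧ a ≠ v ∧ b ≠ v ∧ ∀ z, Ad n L E u z → z = v ∨ z = a ∨ z = b := by
  obtain ⟨i, j, hij, h3⟩ := card_eq_two.1 h2
  obtain ⟨hi, a, ha⟩ := mem_at.1 (h3.symm ▸ mem_insert_self i {j} : i ∈ at' L (E.erase e) u)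
  obtain ⟨hj, b, hb⟩ := mem_at.1
    (h3.symm ▸ mem_insert_of_mem (mem_singleton_self j) : j ∈ at' L (E.erase e) u)
  have hi' := mem_of_mem_erase hi
  have hj' := mem_of_mem_erase hj
  have sm : ∀ {l x y}, l ∈ E → Ends L l u x → Ends L l u y → x = y := fun hl h4 h5 => by
    rcases Ends_same h4 h5 with ⟨-, h6⟩ | ⟨-, h6⟩
    · exact h6
    · exact absurd h6.symm (g.t3.ne ⟨_, hl, h4⟩)
  refine ⟨i, j, a, b, h3, ha, hb, fun hh => hij (g.simp i hi' j hj' u a ha (hh ▸ hb)),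
    (g.t3.ne ⟨i, hi', ha⟩).symm, (g.t3.ne ⟨j, hj', hb⟩).symm,
    fun hh => ne_of_mem_erase hi (g.simp i hi' e he u a ha (hh ▸ huv)),
    fun hh => ne_of_mem_erase hj (g.simp j hj' e he u b hb (hh ▸ huv)), ?_⟩
  rintro z ⟨l, hl, hz⟩
  by_cases hle : l = e
  · exact Or.inl (sm hl hz (hle ▸ huv))
  · have h4 : l ∈ ({i, j} : Finset ℕ) := h3 ▸ mem_at.2 ⟨mem_erase.2 ⟨hle, hl⟩, z, hz⟩
    rcases mem_insert.1 h4 with h5 | h5
    · exact Or.inr (Or.inl (sm hl hz (h5 ▸ ha)))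
    · exact Or.inr (Or.inr (sm hl hz (mem_singleton.1 h5 ▸ hb)))

/-- Four independent edges. -/
theorem four {i j l m : ℕ} {u v a b c d : Fin n} (hi : Ends L i u a) (hj : Ends L j u b)
    (hl : Ends L l v c) (hm : Ends L m v d) (h1 : a ≠ b) (h2 : a ≠ u) (h3 : b ≠ u) (h4 : a ≠ v)
    (h5 : c ≠ d) (h6 : c ≠ v) (h7 : d ≠ v) (h8 : c ≠ u) (h9 : d ≠ u) (h10 : u ≠ v)
    (h11 : a ≠ c) (h12 : a ≠ d) : comps n L ({i, j} ∪ {l, m}) + 4 = comps n L ∅ := by
  have a1 := fresh (S := ∅) hl h6.symm (by simp)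
  have a2 := fresh (S := insert l ∅) hm.symm h7 fun x hx z hz => by
    rw [insert_empty_eq, mem_singleton] at hx
    have := Ends_same hz (hx ▸ hl); unfold Same at this; grind
  have a3 := fresh (S := insert m (insert l ∅)) hj h3.symm fun x hx z hz => by
    rw [insert_empty_eq, mem_insert, mem_singleton] at hx
    rcases hx with hx | hx
    · have := Ends_same hz (hx ▸ hm); unfold Same at this; grind
    · have := Ends_same hz (hx ▸ hl); unfold Same at this; grind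
  have a4 := fresh (S := insert j (insert m (insert l ∅))) hi.symm h2 fun x hx z hz => by
    rw [insert_empty_eq, mem_insert, mem_insert, mem_singleton] at hx
    rcases hx with hx | hx | hx
    · have := Ends_same hz (hx ▸ hj); unfold Same at this; grind
    · have := Ends_same hz (hx ▸ hm); unfold Same at this; grind
    · have := Ends_same hz (hx ▸ hl); unfold Same at this; grind
  have e1 : ({i, j} ∪ {l, m} : Finset ℕ) = insert i (insert j (insert m (insert l ∅))) := by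
    ext x; simp only [mem_union, mem_insert, mem_singleton, notMem_empty]; tauto
  rw [e1]
  omega

/-- The rank of the two pairs. -/
theorem rank (g : Gg n L U E ∅ B) {e : ℕ} {u v : Fin n} (he : e ∈ E) (huv : Ends L e u v)
    (h4 : U.card ≠ 4) (h1 : (at' L (E.erase e) u).card = 2)
    (h2 : (at' L (E.erase e) v).card = 2) :
    comps n L (at' L (E.erase e) u ∪ at' L (E.erase e) v) + 4 = comps n L ∅ := by
  obtain ⟨i, j, a, b, e1, hi, hj, a1, a2, a3, a4, a5, a6⟩ := two g he huv h1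
  obtain ⟨l, m, c, d, e2, hl, hm, b1, b2, b3, b4, b5, b6⟩ := two g he huv.symm h2
  have huv' : u ≠ v := g.t3.ne ⟨e, he, huv⟩
  rw [e1, e2]
  by_cases ha : a ≠ c ∧ a ≠ d
  · exact four hi hj hl hm a1 a2 a3 a4 b1 b2 b3 b4 b5 huv' ha.1 ha.2
  by_cases hb : b ≠ c ∧ b ≠ d
  · rw [pair_comm i j]
    exact four hj hi hl hm a1.symm a3 a2 a5 b1 b2 b3 b4 b5 huv' hb.1 hb.2
  exfalso
  have c1 := g.t3.cut {u, v}
    (insert_subset (g.t3.mem u v ⟨e, he, huv⟩) (singleton_subset_iff.2 (g.t3.mem' ⟨e, he, huv⟩)))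
    a b (insert_nonempty _ _) (by simp [a2, a4]) (by simp [a3, a5]) fun w hw x hx => by
      rw [mem_insert, mem_singleton] at hw ⊢
      rcases hw with rfl | rfl
      · have := a6 x hx; tauto
      · have := b6 x hx; grind
  have c2 : U ⊆ insert u {v, a, b} := fun x hx => by
    have := c1 x hx
    simp only [mem_insert, mem_singleton] at this ⊢
    tauto
  have c3 := card_le_card c2
  have c4 := card_insert_le u ({v, a, b} : Finset (Fin n))
  have c5 := card_le_three (a := v) (b := a) (c := b)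
  have := g.t3.four
  omega

end G3

open G3 in
theorem p_G3 (h1 : SG.S_Reg) (h2 : SG.S_Dc) (h3 : SG.S_Cmp) (h4 : S_SA) : S_G3 := by
  intro n L U E B f g hf hfB
  obtain ⟨p, q, hpq⟩ := exists_ends g.val (mem_range.1 (g.sub hf))
  obtain ⟨e, he, hef, u, v, huv, hs, hf4⟩ := pick h1 h2 g.t3 hf hpq
  have w : Sta.WF ⟨comps n L, E, ∅, B⟩ := ⟨isK_comps n L, g.sa, g.sb, g.dj⟩
  have huv' : u ≠ v := g.t3.ne ⟨e, he, huv⟩
  obtain ⟨t, m, m2, mg, rd, hc⟩ := h4 (Sta.del ⟨comps n L, E, ∅, B⟩ e) (at' L (E.erase e) u)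
    (at' L (E.erase e) v) (w.del e) (erase_empty e)
    (disjoint_left.2 fun j hj hj' => by
      obtain ⟨a1, z, hz⟩ := mem_at.1 hj
      obtain ⟨-, z', hz'⟩ := mem_at.1 hj'
      rcases Ends_same hz hz' with ⟨a2, -⟩ | ⟨-, a2⟩
      · exact huv' a2
      · exact ne_of_mem_erase a1 (g.simp j (mem_of_mem_erase a1) e he u v (a2 ▸ hz) huv))
    (fun x hx y hy _ hser => by
      have hx' : x ∈ E.erase e := erase_subset_erase _ g.sb hx
      have hy' : y ∈ E.erase e := erase_subset_erase _ g.sb hy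
      have a1 : comps n L (((E.erase e).erase y).erase x) = comps n L (E.erase e) + 1 := hser.2.2
      have a2 := (isK_comps n L).anti (erase_subset e E)
      have e1 : E \ {e, x, y} = ((E.erase e).erase y).erase x := by
        ext j; simp only [mem_sdiff, mem_erase, mem_insert, mem_singleton]; tauto
      obtain ⟨z, rfl | rfl, a3⟩ := DCtr.cut3 h3 h2 g.t3 he (mem_of_mem_erase hx')
        (mem_of_mem_erase hy') huv hs (by rw [e1]; omega)
      · exact Or.inl (at_eq g.t3 he hx' hy' huv a3)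
      · exact Or.inr (at_eq g.t3 he hx' hy' huv.symm a3))
    (fun a1 _ a3 a4 => rank g he huv (fun hh => hfB (mem_of_mem_erase
      (a1 (mem_at.2 ⟨mem_erase.2 ⟨hef.symm, hf⟩, hf4 hh⟩)))) a3 a4)
  refine ⟨e, he, hef, t, m, m2, mg, rd, ?_⟩
  have a1 := six g.t3
  have a2 := card_erase_add_one he
  change (E.erase e).card ≤ _ at hc
  omega

end Pool.Agent.P.MP_e0c037_lc.BD
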