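import Pool.Agent.P.MP_e0c037_lc.BD.Base
import Pool.Agent.P.MP_e0c037_lc.SG.Glue
import Pool.Agent.P.MP_e0c037_lc.WP.Defs

/-! The parts put together. -/

namespace Pool.Agent.P.MP_e0c037_lc.BD

open Finset SG

theorem easy_bd (h1 : S_Num) (h2 : S_Cp) (h3 : S_Step) (h4 : S_Bnd) (h5 : S_Main) (h6 : S_CL)
    (h7 : S_Algo) (hM : S_Mc) {q r : ℝ} (hq : q = (1 + r) ^ 2 * (1 - r)) (hq1 : q ≠ 1)
    (r0 : 1 / 3 < r) (r1 : r < 1) : Easy q (-1 - r) ∧ Easy q (r ^ 2 - 1) := by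
  obtain ⟨κ, p, g⟩ := h1 q r hq hq1 r0 r1
  have st : Step Gr := h3 Gr hM.1 h6
  obtain ⟨J, I, gs⟩ := g 1 one_pos
  have s2 := gs.sub 2 le_rfl gs.two
  exact h7 q r _ κ p (h5 Gr q r _ κ hM.1 st p
    ⟨s2 _ gs.ns.1, s2 _ gs.ns.2.1, s2 _ gs.ns.2.2.1, s2 _ gs.ns.2.2.2⟩
    (h4 Gr q r _ κ hM.1 st p g (h2 q r _ κ p)))

theorem closed_of (h : ∀ q r : ℝ, q = (1 + r) ^ 2 * (1 - r) → q ≠ 1 → 1 / 3 < r → r < 1 →
      Easy q (-1 - r) ∧ Easy q (r ^ 2 - 1))
    {q w v : ℝ} (hq : q ∈ Set.Ioo (0 : ℝ) 1 ∪ Set.Ioo 1 (32 / 27))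
    (hw : IsMiddleRoot q w) (h1 : q / w ≤ v) (h2 : v ≤ w) :
    ∃ f : ℕ × List (ℕ × ℕ) → ℤ,
      Nonempty (Turing.TM2ComputableInPolyTime encGraph encInt f) ∧
      ∀ (n : ℕ) (L : List (ℕ × ℕ)), (∀ e ∈ L, e.1 < n ∧ e.2 < n) →
        f (n, L) = (SignType.sign (dichromatic n L q v) : ℤ) := by
  have hq0 : 0 < q := by rcases hq with h | h <;> linarith [h.1]
  have hq1 : q ≠ 1 := by
    rcases hq with h | h
    · exact h.2.ne
    · exact h.1.ne'
  obtain ⟨a, c, a1, a2, a3, a4⟩ := hw.2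
  obtain ⟨r, r1, r2, r3, r4, r5⟩ := middle_root hq0 a1 a2 a3 hw.1 a4
  obtain ⟨e1, e2⟩ := h q r r1 hq1 r2 r3
  rcases h1.eq_or_lt with h1 | h1
  · rw [← h1, r4]; exact e1.tm
  rcases h2.eq_or_lt with h2 | h2
  · rw [h2, r5]; exact e2.tm
  exact polytime_diamond hq hw h1 h2

/-- For `r < 1 / 2` every connected count with two elements has the standard sign. -/
theorem sign_small {q r v : ℝ} (hq : q = (1 + r) ^ 2 * (1 - r)) (r0 : 1 / 3 ≤ r) (r1 : r < 1 / 2)
    (h1 : -1 - r ≤ v) (h2 : v ≤ r ^ 2 - 1) (k : KF) (E : Finset ℕ) (h : IsK k) (hc : Conn k E)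
    (hE : 2 ≤ E.card) : 0 < ((-1 : SignType) : ℝ) * (sg k E * Zk q k (fun _ => v) E) := by
  have a0 : 0 < r := by linarith
  have a1 : r ^ 3 < q - 1 := by
    rw [hq]; nlinarith [mul_pos a0 (mul_pos (by linarith : 0 < 1 - 2 * r) (by linarith : 0 < 1 + r))]
  have a2 : 0 < r ^ 3 := pow_pos a0 3
  have hq0 : 0 < q := by linarith
  have hb : Bf q r = r ^ 2 := by
    unfold Bf; rw [hq]; field_simp; ring
  have a3 : r ^ 2 ≤ 1 := by nlinarith
  have hp : ∀ v w, In q r v → In q r w → In q r (v + w + v * w) := fun v w hv hw =>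
    par_in a0.le (by rw [hb]; positivity) a0.le (by rw [hb]; positivity)
      (by rw [hb]; nlinarith) (by rw [hb]; nlinarith) (by rw [hb]; nlinarith)
      (by rw [hb]; nlinarith [sq_nonneg r]) hv hw
  have S : Sys q r (r ^ 2) (-1) 0 fun _ _ => False :=
    ⟨hq0, Or.inr rfl, by linarith, a0.le, by linarith, by positivity, by nlinarith,
      by simpa only [In, hb] using hp,
      fun v w hv hw => by
        simpa only [In, hb] using ser_of_par hq0 a0.le a0.le a0.le hp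
          (by simpa only [In, hb] using hv) (by simpa only [In, hb] using hw),
      fun _ _ _ h => h.elim, fun _ h => absurd h (Nat.not_lt_zero _),
      fun _ h => absurd h (Nat.not_lt_zero _), fun _ _ h => h.elim⟩
  obtain ⟨f, hf⟩ : E.Nonempty := card_pos.1 (by omega)
  obtain ⟨p1, p2, p3⟩ := claimP' S (v := fun _ => v) h hc hf hE
    fun _ _ _ => ⟨by linarith, by linarith⟩
  rw [Z_eq S.q1 hf]
  obtain ⟨b1, -⟩ := prod_bounds (x := 1 + v) (y := ga q k (fun _ => v) E f) (a := r) (A := r ^ 2)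
    (c := r * al q k (fun _ => v) E f) (C := r ^ 2 * al q k (fun _ => v) E f)
    (L := r ^ 3 * al q k (fun _ => v) E f) (U := al q k (fun _ => v) E f) a0.le (by positivity)
    (by positivity) (by positivity) (by linarith) (by linarith) (by linarith) p3
    (by apply le_of_eq; ring) (by apply le_of_eq; ring) (by nlinarith)
    (by nlinarith [mul_le_mul a3 a3 (sq_nonneg r) zero_le_one])
  simp only [SignType.coe_neg_one]
  nlinarith [mul_lt_mul_of_pos_right a1 p1]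

theorem dia_of (h : ∀ q r : ℝ, q = (1 + r) ^ 2 * (1 - r) → q ≠ 1 → 1 / 3 < r → r < 1 →
      Easy q (-1 - r) ∧ Easy q (r ^ 2 - 1)) : WP.S_Dia := by
  intro r v r0 r1 h1 h2
  have hq0 : 0 < (1 + r) ^ 2 * (1 - r) := mul_pos (pow_pos (by linarith) 2) (by linarith)
  rcases lt_or_ge r (1 / 2) with hr | hr
  · exact polytime_of hq0 (-1) 2 (sign_small rfl r0 hr h1 h2)
  by_cases hq1 : (1 + r) ^ 2 * (1 - r) = 1
  · rw [hq1]
    refine Easy.tm ⟨fun G => ((SignType.sign (v + 1) : SignType) : ℤ) ^ G.2.length, ?_,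
      fun G _ => ?_⟩
    · rcases SignType.sign (v + 1) with _ | _ | _
      · refine Pool.Agent.Lib.helper21.PT.of_eq
          (f := fun G : Inp => cond (decide (G.2.length = 0)) (1 : ℤ) 0) (by fun_prop) fun G => ?_
        cases G.2.length <;> simp
      · show Pool.Agent.Lib.helper21.PT fun G : Inp => (-1 : ℤ) ^ G.2.length
        fun_prop
      · exact (Pool.Agent.Lib.helper21.PT.const 1).of_eq fun G => by simp
    · have : dichromatic G.1 G.2 1 v = (v + 1) ^ G.2.length := by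
        unfold dichromatic
        simpa using Finset.sum_pow_mul_eq_add_pow v 1 (range G.2.length)
      rw [this, sign_pow]; simp
  obtain ⟨e1, e2⟩ := h _ r rfl hq1 (by linarith) r1
  rcases h1.eq_or_lt with h1 | h1
  · rw [← h1]; exact e1.tm
  rcases h2.eq_or_lt with h2 | h2
  · rw [h2]; exact e2.tm
  obtain ⟨M, hM⟩ := sign_diamond (lo := v) (hi := v) rfl hq1 (by linarith) r1 h1 h2
  exact polytime_of hq0 _ M fun k E h hc hE => hM ℕ k _ E h hc hE fun _ _ => ⟨le_rfl, le_rfl⟩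

end Pool.Agent.P.MP_e0c037_lc.BD
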