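import Pool.Agent.P.MP_e0c037_lc.BD.Base

/-! The sign rule for large reduced connected states. -/

namespace Pool.Agent.P.MP_e0c037_lc.BD

open Finset Function SG

namespace MainB

/-- The bound at a fixed exponent. -/
def Bd (C : KF → Finset ℕ → Prop) (q r ε : ℝ) (m M : ℕ) : Prop :=
  ∀ (s : Sta) f (u : ℕ → ℝ), C s.k s.E → s.WF → Conn s.k s.E → s.Rd →
    f ∈ s.E → f ∉ s.A → f ∉ s.B → s.E ⊆ insert f (s.A ∪ s.B) → Vw r (r ^ 2) (u f) →
    2 ≤ s.E.card → M ≤ s.A.card + 2 * s.B.card →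
    -(ε * (sg s.k s.E * Zk q s.k (wt r s u) s.E)) ≤ r ^ m * al q s.k (wt r s u) s.E f

variable {C : KF → Finset ℕ → Prop} {q r ε κ : ℝ} {m M : ℕ}

theorem vw_wt (p : Pm q r ε κ) {s : Sta} (w : s.WF) (u : ℕ → ℝ) {x : ℕ} (hx : x ∈ s.A ∪ s.B) :
    Vw r (r ^ 2) (wt r s u x) := by
  rcases mem_union.1 hx with h | h
  · rw [wt_A h]; exact p.vA
  · rw [wt_B w h]; exact p.vB

/-- One element of inner weight gives the strict sign. -/
theorem pos_inner (p : Pm q r ε κ) (hB : Bd C q r ε m M) (hm : r ^ m < (1 - κ) * (ε * (1 - q)))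
    (s : Sta) (e : ℕ) (w : ℝ) (c : C s.k s.E) (wf : s.WF) (hc : Conn s.k s.E) (rd : s.Rd)
    (he : e ∈ s.E) (ha : e ∉ s.A) (hb : e ∉ s.B) (hs : s.E ⊆ insert e (s.A ∪ s.B))
    (hw : Vw (κ * r) (κ * r ^ 2) w) (h2 : 2 ≤ s.E.card) (hM : M ≤ s.A.card + 2 * s.B.card) :
    0 < ε * (sg s.k s.E * Zk q s.k (wt r s fun _ => w) s.E) := by
  have k0 := p.k0
  have k1 := p.k1
  have r0 : 0 < r := by linarith [p.r0]
  have hk : (2 - κ) * κ ≤ 1 := by nlinarith [sq_nonneg (1 - κ)]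
  have hv : Vw r (r ^ 2) ((2 - κ) * (1 + w) - 1) := by
    obtain ⟨w1, w2⟩ := hw
    have a1 := mul_le_mul_of_nonneg_left w1 (by linarith : 0 ≤ 2 - κ)
    have a2 := mul_le_mul_of_nonneg_left w2 (by linarith : 0 ≤ 2 - κ)
    have a3 := mul_le_mul_of_nonneg_right hk r0.le
    have a4 := mul_le_mul_of_nonneg_right hk (sq_nonneg r)
    constructor <;> nlinarith
  have b1 := hB s e (fun _ => (2 - κ) * (1 + w) - 1) c wf hc rd he ha hb hs hv h2 hM
  have hsp : ∀ x ∈ s.E, x ≠ e → x ∈ s.A ∪ s.B := fun x hx hxe =>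
    (mem_insert.1 (hs hx)).resolve_left hxe
  obtain ⟨p1, -⟩ := claimP' p.sys (v := wt r s fun _ => w) wf.isK hc he h2
    fun x hx hxe => vw_wt p wf _ (hsp x hx hxe)
  obtain ⟨a1, a2⟩ := al_congr (q := q) (k := s.k) (E := s.E) (f := e)
    (v := wt r s fun _ => (2 - κ) * (1 + w) - 1) (v' := wt r s fun _ => w) fun x hx hxe => by
      rcases mem_union.1 (hsp x hx hxe) with h | h
      · rw [wt_A h, wt_A h]
      · rw [wt_B wf h, wt_B wf h]
  rw [Z_eq p.sys.q1 he, a1, a2, wt_N ha hb] at b1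
  rw [Z_eq p.sys.q1 he, wt_N ha hb]
  have b2 := mul_lt_mul_of_pos_right hm p1
  refine pos_of_mul_pos_left (b := 2 - κ) ?_ (by linarith)
  nlinarith

/-- The bound passes back along special merges. -/
theorem bd_mg (hM : Mc C) (p : Pm q r ε κ) (hB : Bd C q r ε m M) {s t : Sta} {n f : ℕ}
    (u : ℕ → ℝ) (g : Mg s t n) (rd : t.Rd) (c : C s.k s.E) (wf : s.WF) (hc : Conn s.k s.E)
    (hf : f ∈ s.E) (ha : f ∉ s.A) (hb : f ∉ s.B) (hs : s.E ⊆ insert f (s.A ∪ s.B))
    (hv : Vw r (r ^ 2) (u f)) (h2 : 2 ≤ s.E.card) (hn : M + 3 * n ≤ s.A.card + 2 * s.B.card) :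
    -(ε * (sg s.k s.E * Zk q s.k (wt r s u) s.E)) ≤ r ^ m * al q s.k (wt r s u) s.E f := by
  have r0 : 0 < r := by linarith [p.r0]
  obtain ⟨t1, t2, t3⟩ := (g.ns f).2 ⟨hf, ha, hb⟩
  have hsz := g.size wf
  have b1 := hB t f u (g.mc hM wf c) (g.wf wf) (g.conn wf hc) rd t1 t2 t3 (fun x hx => by
    by_contra hh
    simp only [mem_insert, mem_union, not_or] at hh
    obtain ⟨a1, a2, a3⟩ := (g.ns x).1 ⟨hx, hh.2.1, hh.2.2⟩
    have := hs a1
    simp only [mem_insert, mem_union] at this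
    tauto) hv (g.two wf hf ha hb h2) (by omega)
  obtain ⟨d, d0, d1, d2⟩ := g.scale (u := u) p.hq p.sys.q1 r0 p.r1 wf hc hf ha hb
  rw [d1, d2]
  nlinarith [mul_le_mul_of_nonneg_left b1 d0.le]

theorem size_two {s : Sta} (hs : s.E ⊆ s.A ∪ s.B) (x y : ℕ) :
    s.E.card ≤ ((s.A.erase x).erase y).card + 2 * ((s.B.erase x).erase y).card + 2 := by
  have h1 : s.E ⊆ insert x (insert y ((s.A.erase x).erase y ∪ (s.B.erase x).erase y)) := by
    intro z hz
    have := hs hz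
    simp only [mem_insert, mem_union, mem_erase] at this ⊢
    tauto
  have h2 := card_le_card h1
  have h3 := card_insert_le x (insert y ((s.A.erase x).erase y ∪ (s.B.erase x).erase y))
  have h4 := card_insert_le y ((s.A.erase x).erase y ∪ (s.B.erase x).erase y)
  have h5 := card_union_le ((s.A.erase x).erase y) ((s.B.erase x).erase y)
  omega

theorem wt_merge {s : Sta} (wf : s.WF) (hs : s.E ⊆ s.A ∪ s.B) (k' : KF) (e g : ℕ) (w : ℝ) :
    ∀ z ∈ s.E.erase g, update (wt r s fun _ => 0) e w z =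
      wt r ⟨k', s.E.erase g, (s.A.erase g).erase e, (s.B.erase g).erase e⟩ (fun _ => w) z := by
  intro z hz
  obtain ⟨hzg, hzE⟩ := mem_erase.1 hz
  by_cases hze : z = e
  · subst hze
    simp [wt]
  · rw [update_of_ne hze]
    rcases mem_union.1 (hs hzE) with h | h
    · simp [wt, h, hze, hzg]
    · simp [wt, h, hze, hzg, disjoint_right.1 wf.dj h]

theorem sub_merge {s : Sta} (hs : s.E ⊆ s.A ∪ s.B) (e g : ℕ) :
    s.E.erase g ⊆ insert e ((s.A.erase g).erase e ∪ (s.B.erase g).erase e) := by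
  intro z hz
  obtain ⟨hzg, hzE⟩ := mem_erase.1 hz
  have := hs hzE
  simp only [mem_insert, mem_union, mem_erase] at this ⊢
  tauto

theorem wf_merge {s : Sta} (wf : s.WF) {k' : KF} (h : IsK k') (e g : ℕ) :
    Sta.WF ⟨k', s.E.erase g, (s.A.erase g).erase e, (s.B.erase g).erase e⟩ :=
  ⟨h, (erase_subset _ _).trans (erase_subset_erase _ wf.sa),
    (erase_subset _ _).trans (erase_subset_erase _ wf.sb),
    wf.dj.mono ((erase_subset _ _).trans (erase_subset _ _))
      ((erase_subset _ _).trans (erase_subset _ _))⟩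

theorem pair_case (hM : Mc C) (p : Pm q r ε κ) (hN : NS q r (Vw (κ * r) (κ * r ^ 2)))
    (hB : Bd C q r ε m M) (hm : r ^ m < (1 - κ) * (ε * (1 - q))) (s : Sta) (c : C s.k s.E)
    (wf : s.WF) (hc : Conn s.k s.E) (rd : s.Rd) (hs : s.E ⊆ s.A ∪ s.B) (hn : M + 3 ≤ s.E.card)
    {e g : ℕ} (he : e ∈ s.E) (hg : g ∈ s.E) (heg : e ≠ g) (hp : Par s.k e g ∨ Ser s.k s.E e g) :
    0 < ε * (sg s.k s.E * Zk q s.k (wt r s fun _ => 0) s.E) := by
  have he' : e ∈ s.E.erase g := mem_erase.2 ⟨heg, he⟩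
  have hsz := size_two hs g e
  have h2 : 2 ≤ (s.E.erase g).card := by rw [card_erase_of_mem hg]; omega
  have sA : (s.A.erase g).erase e ⊆ s.A := (erase_subset _ _).trans (erase_subset _ _)
  have sB : (s.B.erase g).erase e ⊆ s.B := (erase_subset _ _).trans (erase_subset _ _)
  obtain ⟨n1, n2, n3, n4⟩ := hN
  obtain ⟨s3, s4⟩ := hc.single wf.isK hg he heg.symm
  rcases hp with hp | hp
  · have hw : Vw (κ * r) (κ * r ^ 2) (wt r s (fun _ => 0) e + wt r s (fun _ => 0) g +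
        wt r s (fun _ => 0) e * wt r s (fun _ => 0) g) := by
      rcases mem_union.1 (hs he) with a | a <;> rcases mem_union.1 (hs hg) with b | b
      · exact absurd hp (rd.1 e a g b heg)
      · rw [wt_A a, wt_B wf b]; exact n1
      · rw [wt_B wf a, wt_A b]; convert n1 using 1; ring
      · rw [wt_B wf a, wt_B wf b]; exact n2
    have := pos_inner p hB hm ⟨s.k, s.E.erase g, (s.A.erase g).erase e, (s.B.erase g).erase e⟩ e _
      (hM.del _ _ _ c (erase_subset _ _)) (wf_merge wf wf.isK e g)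
      (conn_par wf.isK hc he hg heg hp.2.2)
      ⟨rd.1.mono sA, fun a ha b hb hab hh => rd.2 a (sB ha) b (sB hb) hab
        (ser_of_par_del wf.isK hp he heg (ne_of_mem_erase ha) (ne_of_mem_erase hb) hh)⟩
      he' (notMem_erase _ _) (notMem_erase _ _) (sub_merge hs e g) hw h2 (by dsimp only; omega)
    dsimp only at this
    rw [Zk_par he hg heg (par_eq wf.isK hp.1 hp.2.2) (par_eq wf.isK hp.symm.1 hp.symm.2.2),
      Zk_congr (fun _ _ => rfl) (wt_merge wf hs s.k e g _), ← sg_del s4]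
    exact this
  · have hw : Vw (κ * r) (κ * r ^ 2) (wt r s (fun _ => 0) e * wt r s (fun _ => 0) g /
        (q + wt r s (fun _ => 0) e + wt r s (fun _ => 0) g)) := by
      rcases mem_union.1 (hs he) with a | a <;> rcases mem_union.1 (hs hg) with b | b
      · rw [wt_A a, wt_A b]; exact n3
      · rw [wt_A a, wt_B wf b]; exact n4
      · rw [wt_B wf a, wt_A b]; convert n4 using 2 <;> ring
      · exact absurd hp (rd.2 e a g b heg)
    obtain ⟨t1, -⟩ := p.sys.ser _ _ (vw_wt p wf (fun _ => 0) (hs he))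
      (vw_wt p wf (fun _ => 0) (hs hg))
    have sE : (s.A.erase g).erase e ⊆ (s.E.erase g).erase e :=
      erase_subset_erase _ (erase_subset_erase _ wf.sa)
    have := pos_inner p hB hm
      ⟨con s.k g, s.E.erase g, (s.A.erase g).erase e, (s.B.erase g).erase e⟩ e _
      (hM.con _ _ _ c hg) (wf_merge wf (wf.isK.con g) e g)
      (conn_ser wf.isK hc he hg heg hp.2.2)
      ⟨fun a ha b hb hab hh => rd.1 a (sA ha) b (sA hb) hab
          (par_of_ser_con wf.isK hp he hg heg (sE ha) (sE hb) hh),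
        fun a ha b hb hab hh => rd.2 a (sB ha) b (sB hb) hab
          (ser_of_con hg (ne_of_mem_erase (mem_of_mem_erase ha))
            (ne_of_mem_erase (mem_of_mem_erase hb)) hh)⟩
      he' (notMem_erase _ _) (notMem_erase _ _) (sub_merge hs e g) hw h2 (by dsimp only; omega)
    dsimp only at this
    obtain ⟨p1, p2⟩ := hp.facts wf.isK he hg heg
    rw [sg_con hg s3] at this
    rw [Zk_ser he hg heg p1 p2 t1.ne, Zk_congr (fun _ _ => rfl) (wt_merge wf hs (con s.k g) e g _)]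
    nlinarith [mul_pos (neg_pos.2 t1) this]

theorem wt_one {s : Sta} (wf : s.WF) (u : ℕ → ℝ) (f z : ℕ) :
    wt r ⟨s.k, s.E, s.A.erase f, s.B.erase f⟩ (wt r s u) z = wt r s u z := by
  by_cases a : z ∈ s.A.erase f
  · rw [wt_A (mem_of_mem_erase a)]; exact if_pos a
  · by_cases b : z ∈ s.B.erase f
    · rw [wt_B wf (mem_of_mem_erase b)]; exact (if_neg a).trans (if_pos b)
    · exact wt_N a b

theorem move_case (hM : Mc C) (p : Pm q r ε κ) (hB : Bd C q r ε m M)
    (hm : r ^ m < (1 - r ^ 2) * (ε * (1 - q))) (s : Sta) (c : C s.k s.E) (wf : s.WF)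
    (hc : Conn s.k s.E) (hs : s.E ⊆ s.A ∪ s.B) (hn : M + 11 ≤ s.E.card) {e f n : ℕ} {t : Sta}
    (he : e ∈ s.E) (hf : f ∈ s.E) (hef : e ≠ f) (c1 : Conn s.k (s.E.erase e))
    (c2 : Conn (con s.k e) (s.E.erase e)) (h3 : n ≤ 3)
    (g : Mg (Sta.op ⟨s.k, s.E, s.A.erase f, s.B.erase f⟩ s.A e) t n) (rd : t.Rd)
    (hmin : al q s.k (wt r s fun _ => 0) s.E f ≤ al q s.k (wt r s fun _ => 0) s.E e) :
    0 < ε * (sg s.k s.E * Zk q s.k (wt r s fun _ => 0) s.E) := by
  set v := wt r s fun _ => 0 with hvd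
  have r0 : 0 < r := by linarith [p.r0]
  have r1 := p.r1
  have c0 := p.sys.c0
  have wf1 : Sta.WF ⟨s.k, s.E, s.A.erase f, s.B.erase f⟩ :=
    ⟨wf.isK, (erase_subset _ _).trans wf.sa, (erase_subset _ _).trans wf.sb,
      wf.dj.mono (erase_subset _ _) (erase_subset _ _)⟩
  have hf' : f ∈ s.E.erase e := mem_erase.2 ⟨hef.symm, hf⟩
  have h2 : 2 ≤ (s.E.erase e).card := by rw [card_erase_of_mem he]; omega
  have hsz := size_two hs f e
  have hv : ∀ x ∈ s.E, Vw r (r ^ 2) (v x) := fun x hx => vw_wt p wf _ (hs hx)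
  have b1 := bd_mg (f := f) hM p hB v g rd
    (mc_op (s := ⟨s.k, s.E, s.A.erase f, s.B.erase f⟩) hM c he _) (wf1.op _ _)
    (by unfold Sta.op; split_ifs; exacts [c2, c1]) (by rw [op_E]; exact hf')
    (by rw [op_A]; exact fun hh => notMem_erase _ _ (mem_of_mem_erase hh))
    (by rw [op_B]; exact fun hh => notMem_erase _ _ (mem_of_mem_erase hh))
    (by
      rw [op_E, op_A, op_B]
      intro z hz
      obtain ⟨hze, hzE⟩ := mem_erase.1 hz
      have := hs hzE
      simp only [mem_insert, mem_union, mem_erase] at this ⊢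
      tauto)
    (hv f hf) (by rw [op_E]; exact h2) (by rw [op_A, op_B]; dsimp only; omega)
  have hw : ∀ z ∈ s.E.erase e,
      wt r (Sta.op ⟨s.k, s.E, s.A.erase f, s.B.erase f⟩ s.A e) v z = v z := fun z hz => by
    rw [wt_op _ (ne_of_mem_erase hz)]; exact wt_one wf _ f z
  rw [op_E] at b1
  dsimp only at b1
  rw [Zk_congr (fun _ _ => rfl) hw, (al_congr fun z hz _ => hw z hz).1] at b1
  obtain ⟨s1, s2⟩ := hc.single wf.isK he hf hef
  obtain ⟨a1, -⟩ := al_dc (q := q) (v := v) he hef s1 s2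
  have hv' : ∀ x ∈ s.E.erase e, x ≠ f → Vw r (r ^ 2) (v x) :=
    fun x hx _ => hv x (mem_of_mem_erase hx)
  obtain ⟨p4, -⟩ := claimP' p.sys wf.isK c1 hf' h2 hv'
  obtain ⟨p5, -⟩ := claimP' p.sys (wf.isK.con e) c2 hf' h2 hv'
  obtain ⟨p6, -⟩ := claimP' p.sys wf.isK hc he (by omega) fun x hx _ => hv x hx
  have hp := pow_pos r0 m
  have b2 := mul_lt_mul_of_pos_right hm p6
  have rr : r ^ 2 < 1 := by nlinarith
  rcases mem_union.1 (hs he) with a | a
  · have ve : v e = -1 - r := wt_A a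
    have ek : (Sta.op ⟨s.k, s.E, s.A.erase f, s.B.erase f⟩ s.A e).k = con s.k e := by
      unfold Sta.op; rw [if_pos a]; rfl
    rw [ek, sg_con he s1] at b1
    have d2 : al q (con s.k e) v (s.E.erase e) f ≤ al q s.k v s.E e := by
      refine le_trans ?_ hmin
      rw [a1, ve]; nlinarith [mul_pos r0 p5]
    have d3 := mul_le_mul_of_nonneg_left d2 hp.le
    have d4 := mul_le_mul_of_nonneg_left (b1.trans d3) r0.le
    have d5 : r * (r ^ m * al q s.k v s.E e) ≤ r ^ m * al q s.k v s.E e :=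
      mul_le_of_le_one_left (mul_pos hp p6).le r1.le
    have d6 := mul_nonneg (sq_nonneg r) (mul_pos c0 p6).le
    rw [Z_con p.sys.q1 he, ve]
    nlinarith
  · have ve : v e = r ^ 2 - 1 := wt_B wf a
    have ek : (Sta.op ⟨s.k, s.E, s.A.erase f, s.B.erase f⟩ s.A e).k = s.k := by
      unfold Sta.op; rw [if_neg (disjoint_right.1 wf.dj a)]; rfl
    rw [ek, sg_del s2] at b1
    have d2 : al q s.k v (s.E.erase e) f ≤ al q s.k v s.E e := by
      refine le_trans ?_ hmin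
      rw [a1, ve]; nlinarith [mul_pos (sub_pos.2 rr) p5]
    have d3 := mul_le_mul_of_nonneg_left d2 hp.le
    have d4 := mul_le_mul_of_nonneg_left (b1.trans d3) (sq_nonneg r)
    have d5 : r ^ 2 * (r ^ m * al q s.k v s.E e) ≤ r ^ m * al q s.k v s.E e :=
      mul_le_of_le_one_left (mul_pos hp p6).le rr.le
    rw [Z_del p.sys.q1 he, ve]
    nlinarith

end MainB

open MainB in
theorem p_Main : S_Main := by
  intro C q r ε κ hM hS p hN hB
  have r0 : 0 < r := by linarith [p.r0]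
  have r1 := p.r1
  have rr : r ^ 2 < 1 := by nlinarith
  obtain ⟨m, hm⟩ := exists_pow_lt_of_lt_one
    (lt_min (mul_pos (sub_pos.2 p.k1) p.sys.c0) (mul_pos (sub_pos.2 rr) p.sys.c0)) r1
  obtain ⟨m1, m2⟩ := lt_min_iff.1 hm
  obtain ⟨M, hB'⟩ := hB m
  refine ⟨M + 11, fun s c wf hc rd hs hn => ?_⟩
  obtain ⟨f, hf, hmin⟩ := exists_min_image s.E (al q s.k (wt r s fun _ => 0) s.E)
    (card_pos.1 (by omega))
  rcases hS ⟨s.k, s.E, s.A.erase f, s.B.erase f⟩ s.A f c
    ⟨wf.isK, (erase_subset _ _).trans wf.sa, (erase_subset _ _).trans wf.sb,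
      wf.dj.mono (erase_subset _ _) (erase_subset _ _)⟩ hc
    ⟨rd.1.mono (erase_subset _ _), rd.2.mono (erase_subset _ _)⟩ hf (notMem_erase _ _)
    (notMem_erase _ _) (erase_subset _ _) (wf.dj.symm.mono_left (erase_subset _ _))
    (by dsimp only; omega) with ⟨e, he, g, hg, heg, -, -, hp⟩ | ⟨e, he, hef, c1, c2, t, n, h3, g, rt⟩
  · exact pair_case hM p hN hB' m1 s c wf hc rd hs (by omega) he hg heg hp
  · exact move_case hM p hB' m2 s c wf hc hs hn he hf hef c1 c2 h3 g rt (hmin e he)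

end Pool.Agent.P.MP_e0c037_lc.BD
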