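import Pool.Agent.P.MP_e0c037_lc.BD.Base

/-! The graded system of intervals on the boundary curves. -/

namespace Pool.Agent.P.MP_e0c037_lc.BD

open Finset SG

namespace NumP

variable {q r : ℝ}

theorem q_pos (hq : q = (1 + r) ^ 2 * (1 - r)) (r0 : 0 < r) (r1 : r < 1) : 0 < q := by
  rw [hq]; exact mul_pos (pow_pos (by linarith) 2) (by linarith)

theorem Bf_r (hq : q = (1 + r) ^ 2 * (1 - r)) (r0 : 0 < r) : Bf q r = r ^ 2 := by
  have h := Bf_mul (q := q) r0.le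
  refine mul_right_cancel₀ (b := 1 + r) (by linarith) ?_
  rw [h, hq]; ring

theorem in_r (hq : q = (1 + r) ^ 2 * (1 - r)) (r0 : 0 < r) : In q r = Vw r (r ^ 2) := by
  funext v; unfold In; rw [Bf_r hq r0]

/-- The ungraded system. -/
theorem sys0 {ε : ℝ} (hq : q = (1 + r) ^ 2 * (1 - r)) (r0 : 0 < r) (r1 : r < 1)
    (he : ε = 1 ∨ ε = -1) (hc : 0 < ε * (1 - q)) : Sys q r (r ^ 2) ε 0 fun _ _ => False := by
  have q0 := q_pos hq r0 r1
  have b := Bf_r hq r0
  have r2 : r ^ 2 < 1 := by nlinarith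
  have r3 : 0 < r ^ 2 := by positivity
  have hpar : ∀ v w, In q r v → In q r w → In q r (v + w + v * w) := fun v w hv hw =>
    par_in r0.le (by rw [b]; positivity) r0.le (by rw [b]; positivity) (by rw [b]; nlinarith)
      (by rw [b]; nlinarith) (by rw [b]; nlinarith) (by rw [b]; nlinarith) hv hw
  have hser : ∀ v w, In q r v → In q r w → q + v + w < 0 ∧ In q r (v * w / (q + v + w)) :=
    fun v w hv hw => ser_of_par q0 r0.le r0.le r0.le hpar hv hw
  rw [in_r hq r0] at hpar hser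
  exact ⟨q0, he, hc, r0.le, r1, r3.le, r2, hpar, hser, fun _ _ _ h => h.elim,
    fun _ h => absurd h (Nat.not_lt_zero _), fun _ h => absurd h (Nat.not_lt_zero _),
    fun _ _ h => h.elim⟩

/-- The first level. -/
theorem level (hq : q = (1 + r) ^ 2 * (1 - r)) (r0 : 0 < r) (r1 : r < 1) :
    ∃ a, 0 < a ∧ a < r ∧ Bf q a < r ^ 2 ∧ NS q r (In q a) := by
  have q0 := q_pos hq r0 r1
  have r3 : 0 < r ^ 2 := by positivity
  have t1 : r ^ 3 < r := by nlinarith [mul_pos r0 (mul_pos (sub_pos.2 r1) (by linarith : 0 < 1 + r))]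
  have t2 : (r - r ^ 2) / (1 + r ^ 2) < r := by
    rw [div_lt_iff₀ (by positivity)]; nlinarith [mul_pos r0 r3]
  obtain ⟨a, a1, a2⟩ := exists_between (max_lt t1 t2)
  rw [max_lt_iff, div_lt_iff₀ (by positivity)] at a1
  obtain ⟨a3, a4⟩ := a1
  have r4 : 0 < r ^ 3 := by positivity
  have r5 : 0 < r ^ 4 := by positivity
  have a0 : 0 < a := by linarith
  have m := Bf_mul (q := q) a0.le
  have b1 : r ^ 4 ≤ Bf q a := by
    refine le_of_mul_le_mul_right (a := 1 + a) ?_ (by linarith)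
    rw [m, hq]
    nlinarith [mul_pos (mul_pos (sub_pos.2 r1) (by linarith : 0 < 1 + r)) (sub_pos.2 a4)]
  have b2 : Bf q a < r ^ 2 := by
    rw [← Bf_r hq r0]
    unfold Bf
    have := div_lt_div_of_pos_left q0 (by linarith : 0 < 1 + a) (by linarith : 1 + a < 1 + r)
    linarith
  have n1 : In q a (-1 - r + (r ^ 2 - 1) + (-1 - r) * (r ^ 2 - 1)) :=
    ⟨by nlinarith, by nlinarith⟩
  have n2 : In q a (r ^ 2 - 1 + (r ^ 2 - 1) + (r ^ 2 - 1) * (r ^ 2 - 1)) :=
    ⟨by nlinarith, by nlinarith⟩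
  refine ⟨a, a0, a2, b2, n1, n2, ?_, ?_⟩
  · have h := n2.dual q0 a0.le
    have e : q + (-1 - r) + (-1 - r) = -((1 + r) * (1 + r ^ 2)) := by rw [hq]; ring
    have e' : 0 < (1 + r) * (1 + r ^ 2) := by positivity
    rwa [(div_eq_div_iff (n2.neg q0 a0.le).ne (by rw [e]; linarith)).2
      (by rw [e, hq]; ring : q * (q + (-1 - r) + (-1 - r)) = (-1 - r) * (-1 - r) * _)] at h
  · have h := n1.dual q0 a0.le
    have e : q + (-1 - r) + (r ^ 2 - 1) = -1 - r + (r ^ 2 - 1) + (-1 - r) * (r ^ 2 - 1) := by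
      rw [hq]; ring
    have e' : (-1 - r) * (r ^ 2 - 1) = q := by rw [hq]; ring
    rw [e]
    nth_rewrite 1 [e']
    exact h

/-- Uniform gaps between two levels. -/
theorem gap {a0 a2 δ : ℝ} (hq : q = (1 + r) ^ 2 * (1 - r)) (r0 : 0 < r) (r1 : r < 1)
    (h0 : 0 ≤ a0) (h1 : r ^ 2 + r - 1 ≤ a0) (h2 : 1 - r - r ^ 2 ≤ a0 * r) (h3 : a2 < r)
    (hδ : 0 < δ) :
    ∃ θ, 0 < θ ∧ θ ≤ a0 + δ ∧ ∀ a, a0 + δ ≤ a → a ≤ a2 → a * r ^ 2 ≤ a - θ ∧
      Bf q a * r ≤ a - θ ∧ a * r ≤ Bf q a - 2 * θ ∧ Bf q a * r ^ 2 ≤ Bf q a - 2 * θ := by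
  have r3 : 0 < r ^ 2 := by positivity
  have r2 : 0 < 1 - r ^ 2 := by nlinarith
  have p3 : 0 < r - a2 := sub_pos.2 h3
  obtain ⟨θ, θ0, θ1, θ2, θ3⟩ : ∃ θ, 0 < θ ∧ θ ≤ δ * r * (1 - r ^ 2) / 2 ∧ θ ≤ δ * r ^ 2 / 2 ∧
      θ ≤ δ * r * (r - a2) / 4 :=
    ⟨min (δ * r * (1 - r ^ 2) / 2) (min (δ * r ^ 2 / 2) (δ * r * (r - a2) / 4)), by positivity,
      min_le_left _ _, (min_le_right _ _).trans (min_le_left _ _),
      (min_le_right _ _).trans (min_le_right _ _)⟩
  have c0 : δ * r ^ 2 ≤ δ := by nlinarith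
  refine ⟨θ, θ0, by linarith, fun a a1 a2' => ?_⟩
  have a3 : δ ≤ a := by linarith
  have a4 : 0 < a := by linarith
  have a5 : 1 + a ≤ 2 := by linarith
  have m := Bf_mul (q := q) a4.le
  have c1 : δ * (1 - r ^ 2) ≤ a * (1 - r ^ 2) := mul_le_mul_of_nonneg_right a3 r2.le
  have c2 : δ * r * (1 - r ^ 2) ≤ δ * (1 - r ^ 2) :=
    mul_le_mul_of_nonneg_right (by nlinarith) r2.le
  have c3 : 0 < δ * r * (1 - r ^ 2) := by positivity
  have g2 : Bf q a * r ≤ a - θ := by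
    refine le_of_mul_le_mul_right (a := 1 + a) ?_ (by linarith)
    have e : (a - Bf q a * r) * (1 + a) = (a - (r ^ 2 + r - 1)) * (a + r ^ 2) := by
      rw [hq] at m; rw [hq]; linear_combination (-r) * m
    have i : δ * r ^ 2 ≤ (a - (r ^ 2 + r - 1)) * (a + r ^ 2) :=
      mul_le_mul (by linarith) (by linarith) r3.le (by linarith)
    nlinarith
  have g3 : a * r ≤ Bf q a - 2 * θ := by
    refine le_of_mul_le_mul_right (a := 1 + a) ?_ (by linarith)
    have e : (Bf q a - a * r) * (1 + a) = (a * r - (1 - r - r ^ 2)) * (r - a) := by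
      rw [hq] at m; rw [hq]; linear_combination m
    have i : δ * r * (r - a2) ≤ (a * r - (1 - r - r ^ 2)) * (r - a) :=
      mul_le_mul (by nlinarith) (by linarith) p3.le (by nlinarith)
    nlinarith
  have g4 : δ * r ≤ Bf q a := by nlinarith
  have c4 := mul_le_mul_of_nonneg_right g4 r2.le
  exact ⟨by linarith, g2, g3, by linarith⟩

/-- The construction, given the limit level `a0`. -/
theorem core {ε a0 : ℝ} (hq : q = (1 + r) ^ 2 * (1 - r)) (h3 : 1 / 3 < r) (r1 : r < 1)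
    (he : ε = 1 ∨ ε = -1) (hc : 0 < ε * (1 - q)) (h0 : 0 ≤ a0) (h1 : r ^ 2 + r - 1 ≤ a0)
    (h2 : 1 - r - r ^ 2 ≤ a0 * r)
    (htop : ∀ η, 0 < η → ∀ v y, In q (a0 + η / 2) v → -r ≤ y → y ≤ r ^ 2 →
      ε * (1 + v) * y ≤ ε * (1 - q) + η) :
    ∃ κ, Pm q r ε κ ∧ ∀ η, 0 < η → ∃ J I, Gs q r ε κ η J I := by
  have r0 : 0 < r := by linarith
  have r3 : 0 < r ^ 2 := by positivity
  have q0 := q_pos hq r0 r1
  have q2 : q ≤ 2 := by rw [hq]; nlinarith [mul_pos r0 r3]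
  obtain ⟨a2, p0, p1, p2, p3⟩ := level hq r0 r1
  refine ⟨max (a2 / r) (Bf q a2 / r ^ 2), ⟨sys0 hq r0 r1 he hc, hq, h3,
    le_max_of_le_left (by positivity),
    max_lt ((div_lt_one r0).2 p1) ((div_lt_one r3).2 p2)⟩, fun η hη => ?_⟩
  have k1 := (div_le_iff₀ r0).1 (le_max_left (a2 / r) (Bf q a2 / r ^ 2))
  have k2 := (div_le_iff₀ r3).1 (le_max_right (a2 / r) (Bf q a2 / r ^ 2))
  generalize max (a2 / r) (Bf q a2 / r ^ 2) = κ at k1 k2
  obtain ⟨θ, θ0, θ1, hg⟩ := gap hq r0 r1 h0 h1 h2 p1 (half_pos hη)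
  have ht := htop η hη
  have s0 : 0 < a0 + η / 2 := by linarith
  generalize a0 + η / 2 = s at θ1 hg ht s0
  have lt1 : ∀ g < ⌈(a2 - s) / θ⌉₊, s < a2 - g * θ := fun g hg => by
    rw [Nat.lt_ceil, lt_div_iff₀ θ0] at hg; linarith
  have le1 : ∀ g : ℕ, a2 - g * θ ≤ a2 := fun g => by
    have : 0 ≤ g * θ := by positivity
    linarith
  have ge0 : ∀ g ≤ ⌈(a2 - s) / θ⌉₊, 0 ≤ a2 - g * θ := fun g hg => by
    rcases g with _ | g
    · simp [p0.le]
    · have := lt1 g hg; push_cast; linarith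
  have key : ∀ g < ⌈(a2 - s) / θ⌉₊, ∀ v w, In q (a2 - g * θ) v → In q r w →
      In q (a2 - (g + 1 : ℕ) * θ) (v + w + v * w) := fun g hg' v w hv hw => by
    have a1 := lt1 g hg'
    obtain ⟨c1, c2, c3, c4⟩ := hg _ a1.le (le1 g)
    have c5 := Bf_lip (a := a2 - g * θ) q0 q2 θ0.le (by linarith)
    have c6 : 0 < (a2 - g * θ) * r := mul_pos (by linarith) r0
    have e : a2 - (g + 1 : ℕ) * θ = a2 - g * θ - θ := by push_cast; ring
    rw [e]
    exact par_in (by linarith) (by linarith) r0.le (by rw [Bf_r hq r0]; exact r3.le)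
      (by rw [Bf_r hq r0]; exact c1) c2 (by linarith) (by rw [Bf_r hq r0]; linarith) hv hw
  refine ⟨⌈(a2 - s) / θ⌉₊ + 2, fun g => In q (a2 - (g - 2 : ℕ) * θ), by omega, ?_, by simpa using p3,
    ?_, ?_, ?_⟩
  · intro g g1 g2 v hv
    have := hv.mono q0 (ge0 _ (by omega)) (le1 _)
    exact ⟨by linarith [this.1], this.2.trans k2⟩
  · intro g g1 g2 v w hv hw
    obtain ⟨n, rfl⟩ := Nat.exists_eq_add_of_le' g1
    rw [← in_r hq r0] at hw
    exact key n (by omega) v w hv hw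
  · intro g g1 g2 v w hv hw
    obtain ⟨n, rfl⟩ := Nat.exists_eq_add_of_le' g1
    rw [← in_r hq r0] at hw
    exact (ser_of_par q0 (ge0 n (by omega)) r0.le (ge0 (n + 1) (by omega)) (key n (by omega))
      hv hw).2
  · intro v y hv
    refine ht v y (In.mono q0 (ge0 _ le_rfl) ?_ hv)
    have := Nat.le_ceil ((a2 - s) / θ)
    rw [div_le_iff₀ θ0] at this
    linarith

end NumP

open NumP in
theorem p_Num : S_Num := by
  intro q r hq hq1 h3 r1
  have r0 : 0 < r := by linarith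
  have r3 : 0 < r ^ 2 := by positivity
  have r2 : r ^ 2 < 1 := by nlinarith
  have q0 := q_pos hq r0 r1
  have q2 : q ≤ 2 := by rw [hq]; nlinarith [mul_pos r0 r3]
  have e0 : 1 - q = r * (r ^ 2 + r - 1) := by rw [hq]; ring
  have lip : ∀ a η : ℝ, 0 ≤ a → 0 < η → Bf q (a + η / 2) ≤ Bf q a + η := fun a η ha hη => by
    have := Bf_lip (a := a + η / 2) (η := η / 2) q0 q2 (by linarith) (by linarith)
    rw [add_sub_cancel_right] at this
    linarith
  rcases lt_or_gt_of_ne hq1 with hlt | hgt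
  · have hc : 0 < 1 - q := by linarith
    have a0 : 0 < r ^ 2 + r - 1 := pos_of_mul_pos_left (b := r) (by linarith) r0.le
    have m := Bf_mul (q := q) a0.le
    have b : Bf q (r ^ 2 + r - 1) * r ^ 2 = 1 - q := by
      refine mul_right_cancel₀ (b := 1 + r) (by linarith) ?_
      linear_combination r * m - e0
    have b0 : 0 ≤ Bf q (r ^ 2 + r - 1) := by by_contra hh; nlinarith
    rw [sign_pos hc]
    refine core hq h3 r1 (Or.inl rfl) (by simpa) a0.le le_rfl (by nlinarith) ?_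
    intro η hη v y hv y1 y2
    have l := lip _ η a0.le hη
    have b1 := b0.trans (Bf_mono q0 a0.le (by linarith : _ ≤ r ^ 2 + r - 1 + η / 2))
    have s0 : 0 ≤ r ^ 2 + r - 1 + η / 2 := by linarith
    have := (prod_bounds (U := 1 - q + η) s0 b1 r0.le r3.le hv.1 hv.2 y1 y2
      (le_add_of_nonneg_right (mul_nonneg b1 r0.le)) (le_add_of_nonneg_left (mul_nonneg s0 r3.le))
      (by nlinarith) (by nlinarith)).2
    simpa using this
  · have hc : 0 < q - 1 := by linarith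
    have t0 : 0 < 1 - r - r ^ 2 := pos_of_mul_pos_left (b := r) (by linarith) r0.le
    have a0 : 0 < (1 - r - r ^ 2) / r := div_pos t0 r0
    have e1 : (1 - r - r ^ 2) / r * r = 1 - r - r ^ 2 := div_mul_cancel₀ _ r0.ne'
    generalize (1 - r - r ^ 2) / r = a at a0 e1
    have m := Bf_mul (q := q) a0.le
    have b : Bf q a = 1 - r - r ^ 2 := by
      refine mul_right_cancel₀ (b := 1 - r ^ 2) (by linarith) ?_
      linear_combination r * m - (Bf q a - 1) * e1 + r * e0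
    rw [sign_neg (by linarith : 1 - q < 0)]
    refine core hq h3 r1 (Or.inr (by simp)) (by simpa) a0.le (by linarith) e1.ge ?_
    intro η hη v y hv y1 y2
    have l := lip _ η a0.le hη
    have b1 := (t0.le.trans b.ge).trans (Bf_mono q0 a0.le (by linarith : _ ≤ a + η / 2))
    have s0 : 0 ≤ a + η / 2 := by linarith
    have := (prod_bounds (L := q - 1 + η) s0 b1 r0.le r3.le hv.1 hv.2 y1 y2
      (by nlinarith) (by nlinarith)
      (le_add_of_nonneg_right (mul_nonneg b1 r3.le))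
      (le_add_of_nonneg_left (mul_nonneg s0 r0.le))).1
    simp only [SignType.coe_neg_one]
    linarith

end Pool.Agent.P.MP_e0c037_lc.BD
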