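import Pool.Agent.P.MP_e0c037_lc.BD.Base

/-! All parallel pairs of the first type are merged. -/

namespace Pool.Agent.P.MP_e0c037_lc.BD

open Finset SG

namespace PA

variable {s : Sta} {x y : ℕ} {D : Finset ℕ}

/-- A block of the merged state is the new element or an old block avoiding both elements. -/
theorem blk (w : s.WF) (hx : x ∈ s.A) (hy : y ∈ s.A) (h : Blk (s.par x y) D) :
    D = {x} ∨ (Blk s D ∧ x ∉ D ∧ y ∉ D) := by
  rcases h with ⟨b, hb, rfl⟩ | ⟨a, ha, b, hb, hab, p, rfl⟩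
  · rcases mem_insert.1 hb with rfl | hb
    · exact Or.inl rfl
    · refine Or.inr ⟨Or.inl ⟨b, hb, rfl⟩, ?_, ?_⟩
      · rw [mem_singleton]; rintro rfl; exact disjoint_left.1 w.dj hx hb
      · rw [mem_singleton]; rintro rfl; exact disjoint_left.1 w.dj hy hb
  · obtain ⟨a1, a2⟩ := mem_erase.1 ha
    obtain ⟨a3, a4⟩ := mem_erase.1 a2
    obtain ⟨b1, b2⟩ := mem_erase.1 hb
    obtain ⟨b3, b4⟩ := mem_erase.1 b2
    refine Or.inr ⟨Or.inr ⟨a, a4, b, b4, hab, p, rfl⟩, ?_, ?_⟩
    · simp only [mem_insert, mem_singleton, not_or]; exact ⟨a1.symm, b1.symm⟩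
    · simp only [mem_insert, mem_singleton, not_or]; exact ⟨a3.symm, b3.symm⟩

/-- The new element together with an old block. -/
theorem one (hq : Qb s) (hx : x ∈ s.A) (hy : y ∈ s.A) (hxy : x ≠ y) (p : Par s.k x y)
    (h : Blk s D) (h1 : x ∉ D) (h2 : y ∉ D) : s.k (s.E.erase y \ ({x} ∪ D)) = s.k s.E := by
  have h3 : Disjoint ({x, y} : Finset ℕ) D :=
    disjoint_insert_left.2 ⟨h1, disjoint_singleton_left.2 h2⟩
  rw [← hq {x, y} D (Or.inr ⟨x, hx, y, hy, hxy, p, rfl⟩) h h3]
  congr 1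
  ext z
  simp only [mem_sdiff, mem_erase, mem_union, mem_insert, mem_singleton]
  tauto

/-- A parallel merge keeps the block property. -/
theorem qb (w : s.WF) (hq : Qb s) (hx : x ∈ s.A) (hy : y ∈ s.A) (hxy : x ≠ y)
    (p : Par s.k x y) : Qb (s.par x y) := by
  intro D1 D2 b1 b2 hd
  change s.k (s.E.erase y \ (D1 ∪ D2)) = s.k (s.E.erase y)
  rw [par_erase w.isK p (w.sa hx) hxy]
  rcases blk w hx hy b1 with rfl | ⟨c1, c2, c3⟩
  · rcases blk w hx hy b2 with rfl | ⟨d1, d2, d3⟩
    · exact absurd (mem_singleton_self x) (disjoint_singleton_left.1 hd)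
    · exact one hq hx hy hxy p d1 d2 d3
  · rcases blk w hx hy b2 with rfl | ⟨d1, d2, d3⟩
    · rw [union_comm]; exact one hq hx hy hxy p c1 c2 c3
    · have e : s.E.erase y \ (D1 ∪ D2) = (s.E \ (D1 ∪ D2)).erase y := by
        ext z
        simp only [mem_sdiff, mem_erase]
        tauto
      rw [e, par_erase w.isK p (mem_sdiff.2 ⟨w.sa hx, by simp [c2, d2]⟩) hxy]
      exact hq D1 D2 c1 d1 hd

theorem redS (hq : Qb s) : RedS s.k s.E s.B := by
  intro a ha b hb hab c
  have h := hq {a} {b} (Or.inl ⟨a, ha, rfl⟩) (Or.inl ⟨b, hb, rfl⟩) (disjoint_singleton.2 hab)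
  have e : s.E \ ({a} ∪ {b}) = (s.E.erase b).erase a := by
    ext z
    simp only [mem_sdiff, mem_erase, mem_union, mem_singleton]
    tauto
  rw [e] at h
  have := c.2.2
  omega

end PA

theorem p_PA : S_PA := by
  intro s
  induction h : s.A.card using Nat.strong_induction_on generalizing s with
  | _ n ih =>
    intro w hq
    by_cases hr : Red s.k s.A
    · exact ⟨s, .refl s, hr, PA.redS hq⟩
    · unfold Red at hr
      push Not at hr
      obtain ⟨x, hx, y, hy, hxy, p⟩ := hr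
      have h1 : (s.par x y).A.card < n := by
        have := card_erase_lt_of_mem hy
        have := card_erase_le (s := s.A.erase y) (a := x)
        change ((s.A.erase y).erase x).card < n
        omega
      obtain ⟨t, m, r⟩ := ih _ h1 (s.par x y) rfl (w.par hx hxy hy) (PA.qb w hq hx hy hxy p)
      exact ⟨t, .par hx hy hxy p m, r⟩

end Pool.Agent.P.MP_e0c037_lc.BD
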