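import Pool.Agent.P.MP_e0c037_lc.BD.Base

/-! At most two series merges. -/

namespace Pool.Agent.P.MP_e0c037_lc.BD

open Finset SG

theorem p_SA : S_SA := by
  intro s P1 P2 w hA _ H hr
  by_cases r0 : RedS s.k s.E s.B
  · exact ⟨s, 0, by omega, .refl s, ⟨fun x hx => by simp [hA] at hx, r0⟩, by omega⟩
  unfold RedS at r0
  push Not at r0
  obtain ⟨x, hx, y, hy, hxy, p⟩ := r0
  have c1 := card_erase_add_one (w.sb hy)
  by_cases r1 : RedS (con s.k y) (s.E.erase y) ((s.B.erase y).erase x)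
  · refine ⟨s.ser x y, 1, by omega, .ser hx hy hxy p (.refl _), ⟨fun a ha b hb hab => ?_, r1⟩, ?_⟩
    · simp only [Sta.ser, hA, insert_empty_eq, mem_singleton] at ha hb
      exact absurd (ha.trans hb.symm) hab
    · simp only [Sta.ser]; omega
  unfold RedS at r1
  push Not at r1
  obtain ⟨x', hx', y', hy', hxy', p'⟩ := r1
  have w1 := w.ser hx hxy hy
  have c2 := card_erase_add_one (w1.sb hy')
  obtain ⟨x1, x2⟩ := mem_erase.1 hx'
  obtain ⟨x2, x3⟩ := mem_erase.1 x2
  obtain ⟨y1, y2⟩ := mem_erase.1 hy'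
  obtain ⟨y2, y3⟩ := mem_erase.1 y2
  have sub : ∀ {a b : ℕ}, a ∈ s.B → b ∈ s.B → ({a, b} : Finset ℕ) ⊆ s.B := fun ha hb =>
    insert_subset ha (singleton_subset_iff.2 hb)
  have ne : ({x, y} : Finset ℕ) ≠ {x', y'} := fun e => by
    have : x' ∈ ({x, y} : Finset ℕ) := e ▸ mem_insert_self _ _
    simp [x1, x2] at this
  have key : P1 ∪ P2 = {y, y', x, x'} ∧ s.k (P1 ∪ P2) + 4 = s.k ∅ := by
    have e1 : ({x, y} : Finset ℕ) ∪ {x', y'} = {y, y', x, x'} := by
      ext z; simp only [mem_union, mem_insert, mem_singleton]; tauto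
    rcases H x hx y hy hxy p with a | a <;>
      rcases H x' x3 y' y3 hxy' (ser_of_con (w.sb hy) x2 y2 p') with b | b
    · exact absurd (a.symm.trans b) ne
    · exact ⟨by rw [a, b, e1], hr (a ▸ sub hx hy) (b ▸ sub x3 y3) (a ▸ card_pair hxy)
        (b ▸ card_pair hxy')⟩
    · exact ⟨by rw [a, b, union_comm, e1], hr (b ▸ sub x3 y3) (a ▸ sub hx hy)
        (b ▸ card_pair hxy') (a ▸ card_pair hxy)⟩
    · exact absurd (a.symm.trans b) ne
  obtain ⟨k1, k2⟩ := key
  refine ⟨(s.ser x y).ser x' y', 2, le_rfl, .ser hx hy hxy p (.ser hx' hy' hxy' p' (.refl _)),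
    ⟨fun a ha b hb hab q => ?_, fun a ha b hb hab q => ?_⟩, ?_⟩
  · have q3 := q.2.2
    have a1 := w.isK.rank_le {y, y'}
    have a2 : ({y, y'} : Finset ℕ).card ≤ 2 := card_le_two
    have e2 : ({a, b} : Finset ℕ) = {x, x'} := by
      simp only [Sta.ser, hA, insert_empty_eq, mem_insert, mem_singleton] at ha hb
      rcases ha with rfl | rfl <;> rcases hb with rfl | rfl
      · exact absurd rfl hab
      · exact pair_comm _ _
      · rfl
      · exact absurd rfl hab
    simp only [Sta.ser, con, e2, insert_empty_eq] at q3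
    rw [k1] at k2
    omega
  · obtain ⟨a1, a2⟩ := mem_erase.1 ha
    obtain ⟨a2, a3⟩ := mem_erase.1 a2
    obtain ⟨a3, a4⟩ := mem_erase.1 a3
    obtain ⟨a4, a5⟩ := mem_erase.1 a4
    obtain ⟨b2, b3⟩ := mem_erase.1 (mem_of_mem_erase hb)
    obtain ⟨b4, b5⟩ := mem_erase.1 (mem_of_mem_erase b3)
    have q1 := ser_of_con (w.sb hy) a4 b4 (ser_of_con (w1.sb hy') a2 b2 q)
    have : a ∈ P1 ∪ P2 := by
      rcases H a a5 b b5 hab q1 with e | e
      · exact mem_union_left _ (e ▸ mem_insert_self _ _)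
      · exact mem_union_right _ (e ▸ mem_insert_self _ _)
    simp [k1, a1, a2, a3, a4] at this
  · simp only [Sta.ser] at c2 ⊢
    omega

end Pool.Agent.P.MP_e0c037_lc.BD
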