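import Pool.Agent.P.MP_e0c037_lc.BD.Base
import Pool.Agent.P.MP_e0c037_lc.SG.Step

/-! The moves from the class lemma. -/

namespace Pool.Agent.P.MP_e0c037_lc.BD

open Finset SG

theorem p_Step (h1 : SG.S_Tor) (h2 : S_Lift) (h3 : S_Shad) : S_Step := by
  intro C hM hL s N f hC w hc hr hf hfA hfB hAN hBN h3E
  have hK := w.isK
  obtain ⟨Y, ⟨y1, y2, y3⟩, hmin⟩ := StepP.least
    (fun Y => Y ⊆ s.E.erase f ∧ 2 ≤ Y.card ∧ lam s.k s.E Y ≤ 1) ⟨s.E.erase f, Subset.rfl,
      by rw [card_erase_of_mem hf]; omega, by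
        obtain ⟨a, ha, haf⟩ := exists_mem_ne (by omega : 1 < s.E.card) f
        obtain ⟨s1, s2⟩ := hc.single hK hf ha haf.symm
        rw [← sdiff_singleton_eq_erase, lam_compl (by simpa)]
        unfold lam
        rw [sdiff_singleton_eq_erase]
        omega⟩
  have hY : Y ⊆ s.E := y1.trans (erase_subset _ _)
  have hfY : f ∉ Y := fun hh => notMem_erase f s.E (y1 hh)
  by_cases h3Y : 3 ≤ Y.card
  · have m : MinY s.k s.E Y := fun Z hZ hne hc2 => by
      by_contra hn
      have := hmin Z ⟨hZ.trans y1, hc2, by omega⟩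
      have := card_lt_card (ssubset_of_subset_of_ne hZ hne)
      omega
    have hfd : f ∈ s.E \ Y := mem_sdiff.2 ⟨hf, hfY⟩
    obtain ⟨k', c1, c2, c3⟩ := h1 C hM s.k s.E Y f hC hc hY hfd (card_pos.1 (by omega)) y3
    have hK' := hM.isK _ _ c1
    have tc : Tc k' (insert f Y) := StepP.tc_tor hY hfY c3 m c2
    have w' : Sta.WF ⟨k', insert f Y, s.A ∩ Y, s.B ∩ Y⟩ :=
      ⟨hK', inter_subset_right.trans (subset_insert _ _),
        inter_subset_right.trans (subset_insert _ _),
        w.dj.mono inter_subset_left inter_subset_left⟩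
    obtain ⟨e, he, hef, t', n, hn, mg, rd, h3t⟩ :=
      hL ⟨k', insert f Y, s.A ∩ Y, s.B ∩ Y⟩ N f c1 w' tc
        (by show 4 ≤ (insert f Y).card; rw [card_insert_of_notMem hfY]; omega)
        (mem_insert_self _ _) (fun hh => hfY (mem_inter.1 hh).2)
        (fun hh => hfY (mem_inter.1 hh).2) (inter_subset_left.trans hAN)
        (hBN.mono_left inter_subset_left)
    have heY : e ∈ Y := (mem_insert.1 he).resolve_left hef
    obtain ⟨b1, b2⟩ := both hK hc hY hfd h3Y y3 m heY
    obtain ⟨t, mt, st, lt, ht⟩ := h2 s t' k' Y N f e n w hr hK' hY hfd c3 tc h3Y heY mg rd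
    have wo := w.op N e
    have co : Conn (s.op N e).k (s.op N e).E := by
      unfold Sta.op; split_ifs
      exacts [b2, b1]
    obtain ⟨f1, f2, f3⟩ := (mt.ns f).2 ⟨by rw [op_E]; exact mem_erase.2 ⟨hef.symm, hf⟩,
      by rw [op_A]; exact fun hh => hfA (mem_of_mem_erase hh),
      by rw [op_B]; exact fun hh => hfB (mem_of_mem_erase hh)⟩
    have hX : 2 ≤ (t'.E.erase f).card := by
      have := pred_card_le_card_erase (s := t'.E) (a := f)
      omega
    obtain ⟨u, n', hn', mu, ru⟩ := h3 t (t'.E.erase f) f (mt.wf wo) (mt.conn wo co) st hX f1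
      (notMem_erase _ _) f2 f3 lt ht
    exact Or.inr ⟨e, hY heY, hef, b1, b2, u, n + n', by omega, mt.trans mu, ru⟩
  · obtain ⟨e, g, heg, rfl⟩ := card_eq_two.1 (show Y.card = 2 by omega)
    have he : e ∈ s.E := hY (by simp)
    have hg : g ∈ s.E := hY (by simp)
    have hef : e ≠ f := fun hh => hfY (by simp [hh])
    have hgf : g ≠ f := fun hh => hfY (by simp [hh])
    exact Or.inl ⟨e, he, g, hg, heg, hef, hgf,
      (StepP.pair hK hc he hg heg y3).imp_right (ser_of_conn hK hc he hg heg)⟩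

end Pool.Agent.P.MP_e0c037_lc.BD
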