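import Pool.Agent.P.MP_e0c037_lc.BD.Defs

/-! Basic facts on special merges. -/

namespace Pool.Agent.P.MP_e0c037_lc.BD

open Finset Function SG

variable {k k' : KF} {E S Y : Finset ℕ} {x y a b e f : ℕ} {s t : Sta} {n : ℕ}

theorem Ser.symm (h : Ser k E x y) : Ser k E y x :=
  ⟨h.2.1, h.1, by rw [erase_right_comm]; exact h.2.2⟩

theorem RedS.mono {S' : Finset ℕ} (h : RedS k E S) (hS : S' ⊆ S) : RedS k E S' :=
  fun x hx y hy => h x (hS hx) y (hS hy)

/-- Both elements of a series pair are independent of the rest. -/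
theorem Ser.facts (h : IsK k) (p : Ser k E x y) (hx : x ∈ E) (hy : y ∈ E) (hxy : x ≠ y) :
    (∀ A ⊆ (E.erase y).erase x, k A = k (insert x A) + 1) ∧
      ∀ A ⊆ (E.erase y).erase x, k A = k (insert y A) + 1 := by
  obtain ⟨p1, p2, p3⟩ := p
  have e0 : insert y ((E.erase y).erase x) = E.erase x := by
    rw [erase_right_comm, insert_erase (mem_erase.2 ⟨hxy.symm, hy⟩)]
  have e1 : insert x ((E.erase y).erase x) = E.erase y := insert_erase (mem_erase.2 ⟨hxy, hx⟩)
  exact ⟨fun A hA => ser_eq h (by rw [e1]; omega) hA, fun A hA => ser_eq h (by rw [e0]; omega) hA⟩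

theorem ser_of_conn (h : IsK k) (hc : Conn k E) (hx : x ∈ E) (hy : y ∈ E) (hxy : x ≠ y)
    (hh : k ((E.erase y).erase x) = k E + 1) : Ser k E x y :=
  ⟨(hc.single h hx hy hxy).2, (hc.single h hy hx hxy.symm).2, hh⟩

/-- Removing one of two parallel elements does not change the count. -/
theorem par_erase (h : IsK k) (p : Par k x y) {T : Finset ℕ} (hx : x ∈ T) (hxy : x ≠ y) :
    k (T.erase y) = k T := by
  by_cases hy : y ∈ T
  · have := par_eq h p.1 p.2.2 ((T.erase y).erase x)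
    rw [insert_erase (mem_erase.2 ⟨hxy, hx⟩), insert_erase hy] at this
    exact this.symm
  · rw [erase_eq_of_notMem hy]

/-- After the deletion of `y` parallel to `x`, series pairs avoiding `x` are old. -/
theorem ser_of_par_del (h : IsK k) (p : Par k x y) (hx : x ∈ E) (hxy : x ≠ y) (ha : a ≠ x)
    (hb : b ≠ x) (c : Ser k (E.erase y) a b) : Ser k E a b := by
  obtain ⟨c1, c2, c3⟩ := c
  rw [erase_right_comm, par_erase h p (mem_erase.2 ⟨ha.symm, hx⟩) hxy,
    par_erase h p hx hxy] at c1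
  rw [erase_right_comm, par_erase h p (mem_erase.2 ⟨hb.symm, hx⟩) hxy,
    par_erase h p hx hxy] at c2
  rw [erase_right_comm (a := y), erase_right_comm (a := y),
    par_erase h p (mem_erase.2 ⟨ha.symm, mem_erase.2 ⟨hb.symm, hx⟩⟩) hxy,
    par_erase h p hx hxy] at c3
  exact ⟨c1, c2, c3⟩

/-- Series pairs of a contraction are old. -/
theorem ser_of_con (hy : y ∈ E) (ha : a ≠ y) (hb : b ≠ y) (c : Ser (con k y) (E.erase y) a b) :
    Ser k E a b := by
  obtain ⟨c1, c2, c3⟩ := c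
  unfold con at c1 c2 c3
  rw [insert_erase hy] at c1 c2 c3
  rw [erase_right_comm, insert_erase (mem_erase.2 ⟨ha.symm, hy⟩)] at c1
  rw [erase_right_comm, insert_erase (mem_erase.2 ⟨hb.symm, hy⟩)] at c2
  rw [erase_right_comm (a := y), erase_right_comm (a := y),
    insert_erase (mem_erase.2 ⟨ha.symm, mem_erase.2 ⟨hb.symm, hy⟩⟩)] at c3
  exact ⟨c1, c2, c3⟩

/-- After the contraction of `y` in series with `x`, parallel pairs avoiding `x` are old. -/
theorem par_of_ser_con (h : IsK k) (p : Ser k E x y) (hx : x ∈ E) (hy : y ∈ E) (hxy : x ≠ y)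
    (ha : a ∈ (E.erase y).erase x) (hb : b ∈ (E.erase y).erase x) (c : Par (con k y) a b) :
    Par k a b := by
  obtain ⟨-, p2⟩ := p.facts h hx hy hxy
  obtain ⟨c1, c2, c3⟩ := c
  unfold con at c1 c2 c3
  have := p2 ∅ (empty_subset _)
  have := p2 {a} (singleton_subset_iff.2 ha)
  have := p2 {b} (singleton_subset_iff.2 hb)
  have := p2 {a, b} (insert_subset ha (singleton_subset_iff.2 hb))
  exact ⟨by omega, by omega, by omega⟩

theorem Sta.WF.par (w : s.WF) (hx : x ∈ s.A) (hxy : x ≠ y) (hy : y ∈ s.A) : (s.par x y).WF where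
  isK := w.isK
  sa := (erase_subset _ _).trans (erase_subset_erase _ w.sa)
  sb := insert_subset (mem_erase.2 ⟨hxy, w.sa hx⟩) fun _ hz =>
    mem_erase.2 ⟨fun hh => disjoint_left.1 w.dj hy (hh ▸ hz), w.sb hz⟩
  dj := disjoint_insert_right.2 ⟨notMem_erase _ _,
    w.dj.mono_left ((erase_subset _ _).trans (erase_subset _ _))⟩

theorem Sta.WF.ser (w : s.WF) (hx : x ∈ s.B) (hxy : x ≠ y) (hy : y ∈ s.B) : (s.ser x y).WF where
  isK := w.isK.con y
  sa := insert_subset (mem_erase.2 ⟨hxy, w.sb hx⟩) fun _ hz =>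
    mem_erase.2 ⟨fun hh => disjoint_left.1 w.dj (hh ▸ hz) hy, w.sa hz⟩
  sb := (erase_subset _ _).trans (erase_subset_erase _ w.sb)
  dj := disjoint_insert_left.2 ⟨notMem_erase _ _,
    w.dj.mono_right ((erase_subset _ _).trans (erase_subset _ _))⟩

theorem Sta.WF.del (w : s.WF) (e : ℕ) : (s.del e).WF :=
  ⟨w.isK, erase_subset_erase _ w.sa, erase_subset_erase _ w.sb,
    w.dj.mono (erase_subset _ _) (erase_subset _ _)⟩

theorem Sta.WF.ctr (w : s.WF) (e : ℕ) : (s.ctr e).WF :=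
  ⟨w.isK.con e, erase_subset_erase _ w.sa, erase_subset_erase _ w.sb,
    w.dj.mono (erase_subset _ _) (erase_subset _ _)⟩

theorem Sta.WF.op (w : s.WF) (N : Finset ℕ) (e : ℕ) : (s.op N e).WF := by
  unfold Sta.op; split_ifs
  exacts [w.ctr e, w.del e]

theorem op_E (N : Finset ℕ) : (s.op N e).E = s.E.erase e := by unfold Sta.op; split_ifs <;> rfl
theorem op_A (N : Finset ℕ) : (s.op N e).A = s.A.erase e := by unfold Sta.op; split_ifs <;> rfl
theorem op_B (N : Finset ℕ) : (s.op N e).B = s.B.erase e := by unfold Sta.op; split_ifs <;> rfl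

theorem Mg.wf (m : Mg s t n) (w : s.WF) : t.WF := by
  induction m with
  | refl => exact w
  | par a b c _ _ ih => exact ih (w.par a c b)
  | ser a b c _ _ ih => exact ih (w.ser a c b)

theorem Mg.trans {u : Sta} {n' : ℕ} (m : Mg s t n) (m' : Mg t u n') : Mg s u (n + n') := by
  induction m with
  | refl => rwa [zero_add]
  | par a b c d _ ih => exact .par a b c d (ih m')
  | ser a b c d _ ih => rw [add_right_comm]; exact .ser a b c d (ih m')

theorem Mg.sub (m : Mg s t n) : t.E ⊆ s.E := by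
  induction m with
  | refl => exact Subset.rfl
  | par _ _ _ _ _ ih => exact ih.trans (erase_subset _ _)
  | ser _ _ _ _ _ ih => exact ih.trans (erase_subset _ _)

/-- The set of elements that are not special does not change. -/
theorem Mg.ns (m : Mg s t n) (z : ℕ) :
    (z ∈ t.E ∧ z ∉ t.A ∧ z ∉ t.B) ↔ (z ∈ s.E ∧ z ∉ s.A ∧ z ∉ s.B) := by
  induction m with
  | refl => rfl
  | par a b c _ _ ih => rw [ih]; simp only [Sta.par, mem_erase, mem_insert]; grind
  | ser a b c _ _ ih => rw [ih]; simp only [Sta.ser, mem_erase, mem_insert]; grind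

theorem Mg.size (m : Mg s t n) (w : s.WF) :
    t.A.card + 2 * t.B.card + 3 * n = s.A.card + 2 * s.B.card := by
  induction m with
  | refl => rfl
  | @par s t n x y a b c _ _ ih =>
    rw [ih (w.par a c b)]
    have h1 := card_erase_add_one b
    have h2 := card_erase_add_one (mem_erase.2 ⟨c, a⟩)
    have h3 := card_insert_of_notMem (disjoint_left.1 w.dj a)
    simp only [Sta.par]; omega
  | @ser s t n x y a b c _ _ ih =>
    have h0 := ih (w.ser a c b)
    have h1 := card_erase_add_one b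
    have h2 := card_erase_add_one (mem_erase.2 ⟨c, a⟩)
    have h3 := card_insert_of_notMem (disjoint_right.1 w.dj a)
    simp only [Sta.ser] at h0; omega

theorem Mg.conn (m : Mg s t n) (w : s.WF) (c : Conn s.k s.E) : Conn t.k t.E := by
  induction m with
  | refl => exact c
  | par a b d p _ ih => exact ih (w.par a d b) (conn_par w.isK c (w.sa a) (w.sa b) d p.2.2)
  | ser a b d p _ ih => exact ih (w.ser a d b) (conn_ser w.isK c (w.sb a) (w.sb b) d p.2.2)

theorem Mg.mc {C : KF → Finset ℕ → Prop} (hM : Mc C) (m : Mg s t n) (w : s.WF) (c : C s.k s.E) :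
    C t.k t.E := by
  induction m with
  | refl => exact c
  | par a b d _ _ ih => exact ih (w.par a d b) (hM.del _ _ _ c (erase_subset _ _))
  | ser a b d _ _ ih => exact ih (w.ser a d b) (hM.con _ _ _ c (w.sb b))

theorem mc_op {C : KF → Finset ℕ → Prop} (hM : Mc C) (c : C s.k s.E) (he : e ∈ s.E)
    (N : Finset ℕ) : C (s.op N e).k (s.op N e).E := by
  unfold Sta.op; split_ifs
  exacts [hM.con _ _ _ c he, hM.del _ _ _ c (erase_subset _ _)]

/-- With an element that is not special, two elements remain. -/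
theorem Mg.two (m : Mg s t n) (w : s.WF) (hf : f ∈ s.E) (ha : f ∉ s.A) (hb : f ∉ s.B)
    (h2 : 2 ≤ s.E.card) : 2 ≤ t.E.card := by
  induction m with
  | refl => exact h2
  | @par s t n x y a b c _ _ ih =>
    have hx : f ≠ x := fun hh => ha (hh ▸ a)
    have hf' : f ∈ s.E.erase y := mem_erase.2 ⟨fun hh => ha (hh ▸ b), hf⟩
    exact ih (w.par a c b) hf' (fun hh => ha (mem_of_mem_erase (mem_of_mem_erase hh)))
      (by simp [Sta.par, hx, hb]) (one_lt_card.2 ⟨f, hf', x, mem_erase.2 ⟨c, w.sa a⟩, hx⟩)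
  | @ser s t n x y a b c _ _ ih =>
    have hx : f ≠ x := fun hh => hb (hh ▸ a)
    have hf' : f ∈ s.E.erase y := mem_erase.2 ⟨fun hh => hb (hh ▸ b), hf⟩
    exact ih (w.ser a c b) hf' (by simp [Sta.ser, hx, ha])
      (fun hh => hb (mem_of_mem_erase (mem_of_mem_erase hh)))
      (one_lt_card.2 ⟨f, hf', x, mem_erase.2 ⟨c, w.sb a⟩, hx⟩)

/-- Without series merges the count and the rank are kept. -/
theorem Mg.zero (m : Mg s t n) (w : s.WF) (h0 : n = 0) : t.k = s.k ∧ s.k t.E = s.k s.E := by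
  induction m with
  | refl => exact ⟨rfl, rfl⟩
  | par a b c p _ ih =>
    obtain ⟨h1, h2⟩ := ih (w.par a c b) h0
    exact ⟨h1, h2.trans (par_erase w.isK p (w.sa a) c)⟩
  | ser => omega

theorem ser_congr {c c' : ℕ} (hk : ∀ A ⊆ E, k A + c = k' A + c') (h : Ser k E x y) :
    Ser k' E x y := by
  have := hk E Subset.rfl
  have := hk _ (erase_subset x E)
  have := hk _ (erase_subset y E)
  have := hk _ ((erase_subset x _).trans (erase_subset y E))
  obtain ⟨a, b, d⟩ := h
  exact ⟨by omega, by omega, by omega⟩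

/-- Transfer along a shift of the count. -/
theorem Mg.congr {c c' : ℕ} (m : Mg s t n) (w : s.WF) :
    ∀ k1 : KF, (∀ D ⊆ s.E, s.k D + c = k1 D + c') →
      ∃ k2 : KF, Mg ⟨k1, s.E, s.A, s.B⟩ ⟨k2, t.E, t.A, t.B⟩ n ∧
        ∀ D ⊆ t.E, t.k D + c = k2 D + c' := by
  induction m with
  | refl => exact fun k1 h => ⟨k1, .refl _, h⟩
  | par a b d p _ ih =>
    intro k1 h
    obtain ⟨k2, h1, h2⟩ := ih (w.par a d b) k1 fun D hD => h D (hD.trans (erase_subset _ _))
    exact ⟨k2, .par a b d (par_congr h (w.sa a) (w.sa b) p) h1, h2⟩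
  | @ser s t n x y a b d p _ ih =>
    intro k1 h
    obtain ⟨k2, h1, h2⟩ := ih (w.ser a d b) (con k1 y) fun D hD =>
      h _ (insert_subset (w.sb b) (hD.trans (erase_subset _ _)))
    exact ⟨k2, .ser a b d (ser_congr h p) h1, h2⟩

theorem Sta.Rd.congr {c c' : ℕ} {k2 : KF} (r : t.Rd) (w : t.WF)
    (h : ∀ D ⊆ t.E, t.k D + c = k2 D + c') : Sta.Rd ⟨k2, t.E, t.A, t.B⟩ :=
  ⟨fun x hx y hy hxy p => r.1 x hx y hy hxy
      (par_congr (fun D hD => (h D hD).symm) (w.sa hx) (w.sa hy) p),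
    fun x hx y hy hxy p => r.2 x hx y hy hxy (ser_congr (fun D hD => (h D hD).symm) p)⟩

/-- In a minimal two-separating set both minors are connected. -/
theorem both (h : IsK k) (hc : Conn k E) (hY : Y ⊆ E) (hf : f ∈ E \ Y) (h3 : 3 ≤ Y.card)
    (hl : lam k E Y ≤ 1) (m : MinY k E Y) (he : e ∈ Y) :
    Conn k (E.erase e) ∧ Conn (con k e) (E.erase e) := by
  obtain ⟨hfE, hfY⟩ := mem_sdiff.1 hf
  by_contra hn
  obtain ⟨S, s1, s2, -, s4, s5, s6, s7, s8⟩ :=
    good_of_not h hc (hY he) hfE (fun hh => hfY (hh ▸ he)) hn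
  have key : ∀ T ⊆ E, f ∉ T → lam k E T ≤ 1 → T ∩ Y = Y ∨ (T ∩ Y).card ≤ 1 := by
    intro T hT hfT hl'
    have a1 := h.lam_sub E T Y
    have a2 := hc.one_le (union_subset hT hY) ⟨e, mem_union_right _ he⟩ hfE (by simp [hfT, hfY])
    by_contra hh
    push Not at hh
    have := m _ inter_subset_right hh.1 hh.2
    omega
  have hT : insert e S ⊆ E := insert_subset (hY he) s2
  have b1 := (key S s2 s5 s7).resolve_left fun hh => s4 (mem_inter.1 (hh.symm ▸ he)).1
  have e1 : insert e S ∩ Y = insert e (S ∩ Y) := insert_inter_of_mem he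
  have c1 := card_insert_of_notMem (fun hh => s4 (mem_inter.1 hh).1 : e ∉ S ∩ Y)
  have b2 := (key _ hT (by simp [s5, s6.symm]) s8).resolve_left fun hh => by
    rw [e1] at hh; rw [← hh] at h3; omega
  rw [e1, c1] at b2
  have b3 : S ∩ Y = ∅ := card_eq_zero.1 (by omega)
  have b4 : ∀ z ∈ S, z ∉ Y := fun z hz hz' => notMem_empty z (b3 ▸ mem_inter.2 ⟨hz, hz'⟩)
  have e2 : Y \ insert e S = Y.erase e := by
    ext z; simp only [mem_sdiff, mem_insert, mem_erase]; have := b4 z; tauto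
  have e3 : insert e S \ Y = S := by
    ext z; simp only [mem_sdiff, mem_insert]; have := b4 z; grind
  have a3 := h.lam_pos hY hT
  rw [e2, e3] at a3
  have a4 := hc.one_le s2 s1 hfE s5
  have a5 := m (Y.erase e) (erase_subset _ _) (fun hh => notMem_erase e Y (hh.symm ▸ he))
    (by rw [card_erase_of_mem he]; omega)
  omega

theorem tc_pair (h : IsK k) (c : Tc k E) (h4 : 4 ≤ E.card) (hx : x ∈ E) (hy : y ∈ E)
    (hxy : x ≠ y) : k {x, y} + 2 = k ∅ ∧ k ((E.erase y).erase x) = k E := by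
  have hs : ({x, y} : Finset ℕ) ⊆ E := insert_subset hx (singleton_subset_iff.2 hy)
  have e1 : E \ {x, y} = (E.erase y).erase x := by
    ext z; simp only [mem_insert, mem_sdiff, mem_erase, mem_singleton]; tauto
  have a1 := c.2 {x, y} hs (card_pair hxy).ge (by rw [card_sdiff_of_subset hs, card_pair hxy]; omega)
  have a2 := h.rank_le {x, y}
  have a3 := h.anti ((erase_subset x _).trans (erase_subset y E))
  rw [card_pair hxy] at a2
  unfold lam at a1
  rw [e1] at a1
  omega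

theorem tc_both (h : IsK k) (c : Tc k E) (h4 : 4 ≤ E.card) (he : e ∈ E) :
    Conn k (E.erase e) ∧ Conn (con k e) (E.erase e) := by
  obtain ⟨f, hf, hfe⟩ := exists_mem_ne (by omega : 1 < E.card) e
  obtain ⟨s1, s2⟩ := c.1.single h hf he hfe
  refine both (Y := E.erase f) h c.1 (erase_subset _ _) (f := f) (by simp [hf])
    (by rw [card_erase_of_mem hf]; omega) ?_ (fun Z hZ hne h2 => ?_) (mem_erase.2 ⟨hfe.symm, he⟩)
  · rw [← sdiff_singleton_eq_erase, lam_compl (by simpa)]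
    unfold lam
    rw [sdiff_singleton_eq_erase]
    omega
  · have hZE := hZ.trans (erase_subset _ _)
    have := card_lt_card (ssubset_of_subset_of_ne hZ hne)
    rw [card_erase_of_mem hf] at this
    exact c.2 Z hZE h2 (by rw [card_sdiff_of_subset hZE]; omega)

/-! ### Weights -/

section weights

variable {q r : ℝ} {u : ℕ → ℝ}

theorem wt_A (hx : x ∈ s.A) : wt r s u x = -1 - r := if_pos hx

theorem wt_B (w : s.WF) (hx : x ∈ s.B) : wt r s u x = r ^ 2 - 1 := by
  unfold wt; rw [if_neg (disjoint_right.1 w.dj hx), if_pos hx]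

theorem wt_N (ha : x ∉ s.A) (hb : x ∉ s.B) : wt r s u x = u x := by
  unfold wt; rw [if_neg ha, if_neg hb]

theorem al_congr {v v' : ℕ → ℝ} (hv : ∀ e ∈ E, e ≠ f → v e = v' e) :
    al q k v E f = al q k v' E f ∧ ga q k v E f = ga q k v' E f := by
  have h : ∀ k1 : KF, Zk q k1 v (E.erase f) = Zk q k1 v' (E.erase f) := fun k1 =>
    Zk_congr (fun _ _ => rfl) fun e he => hv e (mem_of_mem_erase he) (ne_of_mem_erase he)
  unfold al ga
  rw [h, h]
  exact ⟨rfl, rfl⟩

theorem wt_par (hx : x ∈ s.A) (hy : y ∈ s.A) {z : ℕ} (hz : z ≠ y) :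
    update (wt r s u) x (wt r s u x + wt r s u y + wt r s u x * wt r s u y) z =
      wt r (s.par x y) u z := by
  rw [wt_A hx, wt_A hy]
  by_cases h : z = x
  · subst h
    simp only [update_self, wt, Sta.par, notMem_erase, if_false, mem_insert_self, if_true]
    ring
  · simp [wt, Sta.par, h, hz]

theorem ser_val (hq : q = (1 + r) ^ 2 * (1 - r)) (r0 : 0 < r) (r1 : r < 1) :
    q + (r ^ 2 - 1) + (r ^ 2 - 1) < 0 ∧
      (r ^ 2 - 1) * (r ^ 2 - 1) / (q + (r ^ 2 - 1) + (r ^ 2 - 1)) = -1 - r := by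
  have e : q + (r ^ 2 - 1) + (r ^ 2 - 1) = -((1 + r) * (1 - r) ^ 2) := by rw [hq]; ring
  have h : 0 < (1 + r) * (1 - r) ^ 2 := mul_pos (by linarith) (pow_pos (by linarith) 2)
  rw [e]
  refine ⟨by linarith, ?_⟩
  rw [div_eq_iff (by linarith)]
  ring

theorem wt_ser (hq : q = (1 + r) ^ 2 * (1 - r)) (r0 : 0 < r) (r1 : r < 1) (w : s.WF)
    (hx : x ∈ s.B) (hy : y ∈ s.B) {z : ℕ} (hz : z ≠ y) :
    update (wt r s u) x (wt r s u x * wt r s u y / (q + wt r s u x + wt r s u y)) z =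
      wt r (s.ser x y) u z := by
  rw [wt_B w hx, wt_B w hy, (ser_val hq r0 r1).2]
  by_cases h : z = x
  · subst h
    simp only [update_self, wt, Sta.ser, mem_insert_self, if_true]
  · simp [wt, Sta.ser, h, hz]

theorem wt_op (N : Finset ℕ) {z : ℕ} (hz : z ≠ e) : wt r (s.op N e) u z = wt r s u z := by
  unfold wt; rw [op_A, op_B]; simp [hz]

/-- The polynomial along special merges. -/
theorem Mg.Z (hq : q = (1 + r) ^ 2 * (1 - r)) (r0 : 0 < r) (r1 : r < 1) (m : Mg s t n)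
    (w : s.WF) : Zk q s.k (wt r s u) s.E =
      (q + (r ^ 2 - 1) + (r ^ 2 - 1)) ^ n * Zk q t.k (wt r t u) t.E := by
  induction m with
  | refl => simp
  | par a b c p _ ih =>
    rw [← ih (w.par a c b), Zk_par (w.sa a) (w.sa b) c (par_eq w.isK p.1 p.2.2)
      (par_eq w.isK p.symm.1 p.symm.2.2)]
    exact Zk_congr (fun _ _ => rfl) fun z hz => wt_par a b (ne_of_mem_erase hz)
  | ser a b c p _ ih =>
    obtain ⟨p1, p2⟩ := p.facts w.isK (w.sb a) (w.sb b) c
    rw [pow_succ', mul_assoc, ← ih (w.ser a c b), Zk_ser (w.sb a) (w.sb b) c p1 p2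
      (by rw [wt_B w a, wt_B w b]; exact (ser_val hq r0 r1).1.ne)]
    congr 1
    · rw [wt_B w a, wt_B w b]
    · exact Zk_congr (fun _ _ => rfl) fun z hz => wt_ser hq r0 r1 w a b (ne_of_mem_erase hz)

/-- The quantities `al` and `ga` along special merges. -/
theorem Mg.al (hq : q = (1 + r) ^ 2 * (1 - r)) (r0 : 0 < r) (r1 : r < 1) (m : Mg s t n)
    (w : s.WF) (hc : Conn s.k s.E) (hf : f ∈ s.E) (ha : f ∉ s.A) (hb : f ∉ s.B) :
    ∃ c : ℝ, 0 < c ∧ al q s.k (wt r s u) s.E f = c * al q t.k (wt r t u) t.E f ∧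
      ga q s.k (wt r s u) s.E f = c * ga q t.k (wt r t u) t.E f := by
  induction m with
  | refl => exact ⟨1, one_pos, by simp, by simp⟩
  | @par s t n x y a b c p _ ih =>
    have hx : x ≠ f := fun hh => ha (hh ▸ a)
    have hy : y ≠ f := fun hh => ha (hh ▸ b)
    obtain ⟨c1, -, c2, c3⟩ := al_par (q := q) (v := wt r s u) w.isK hc (w.sa a) (w.sa b) c hx hy
      p.2.2
    obtain ⟨d, d0, d1, d2⟩ := ih (w.par a c b) c1 (mem_erase.2 ⟨hy.symm, hf⟩)
      (fun hh => ha (mem_of_mem_erase (mem_of_mem_erase hh))) (by simp [Sta.par, hx.symm, hb])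
    obtain ⟨e1, e2⟩ := al_congr (q := q) (k := s.k) (E := s.E.erase y) (f := f)
      fun z hz _ => wt_par (r := r) (u := u) a b (ne_of_mem_erase hz)
    exact ⟨d, d0, by rw [c2, e1]; exact d1, by rw [c3, e2]; exact d2⟩
  | @ser s t n x y a b c p _ ih =>
    have hx : x ≠ f := fun hh => hb (hh ▸ a)
    have hy : y ≠ f := fun hh => hb (hh ▸ b)
    have h0 : q + wt r s u x + wt r s u y < 0 := by
      rw [wt_B w a, wt_B w b]; exact (ser_val hq r0 r1).1
    obtain ⟨c2, c3⟩ := al_ser (q := q) (v := wt r s u) w.isK hc hf (w.sb a) (w.sb b) c hx hy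
      p.2.2 h0.ne
    obtain ⟨d, d0, d1, d2⟩ := ih (w.ser a c b) (conn_ser w.isK hc (w.sb a) (w.sb b) c p.2.2)
      (mem_erase.2 ⟨hy.symm, hf⟩) (by simp [Sta.ser, hx.symm, ha])
      (fun hh => hb (mem_of_mem_erase (mem_of_mem_erase hh)))
    obtain ⟨e1, e2⟩ := al_congr (q := q) (k := con s.k y) (E := s.E.erase y) (f := f)
      fun z hz _ => wt_ser (u := u) hq r0 r1 w a b (ne_of_mem_erase hz)
    exact ⟨-(q + wt r s u x + wt r s u y) * d, mul_pos (by linarith) d0,
      by rw [c2, e1, mul_assoc]; exact congrArg _ d1,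
      by rw [c3, e2, mul_assoc]; exact congrArg _ d2⟩

/-- The signed polynomial and `al` are scaled by the same positive factor. -/
theorem Mg.scale (hq : q = (1 + r) ^ 2 * (1 - r)) (hq1 : q ≠ 1) (r0 : 0 < r) (r1 : r < 1)
    (m : Mg s t n) (w : s.WF) (hc : Conn s.k s.E) (hf : f ∈ s.E) (ha : f ∉ s.A) (hb : f ∉ s.B) :
    ∃ c : ℝ, 0 < c ∧ MP_e0c037_lc.al q s.k (wt r s u) s.E f =
        c * MP_e0c037_lc.al q t.k (wt r t u) t.E f ∧
      sg s.k s.E * Zk q s.k (wt r s u) s.E = c * (sg t.k t.E * Zk q t.k (wt r t u) t.E) := by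
  obtain ⟨c, c0, c1, c2⟩ := m.al (u := u) hq r0 r1 w hc hf ha hb
  obtain ⟨t1, t2, t3⟩ := (m.ns f).2 ⟨hf, ha, hb⟩
  refine ⟨c, c0, c1, ?_⟩
  rw [Z_eq hq1 hf, Z_eq hq1 t1, c1, c2, wt_N ha hb, wt_N t2 t3]
  ring

theorem Pm.r1 {ε κ : ℝ} (p : Pm q r ε κ) : r < 1 := p.sys.r1

theorem Pm.vA {ε κ : ℝ} (p : Pm q r ε κ) : Vw r (r ^ 2) (-1 - r) :=
  ⟨by linarith, by nlinarith [p.r0]⟩

theorem Pm.vB {ε κ : ℝ} (p : Pm q r ε κ) : Vw r (r ^ 2) (r ^ 2 - 1) :=
  ⟨by nlinarith [p.r0], by linarith⟩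

theorem Pm.inner {ε κ v : ℝ} (p : Pm q r ε κ) (h : Vw (κ * r) (κ * r ^ 2) v) : Vw r (r ^ 2) v :=
  ⟨by nlinarith [p.r0, p.k1, h.1], by nlinarith [p.k1, h.2, sq_nonneg r]⟩

end weights

/-! ### Graphs -/

section graphs

variable {m : ℕ} {L : List (ℕ × ℕ)} {i : ℕ} {p q : Fin m}

/-- An edge with an end not met by `S` joins two components of `S`. -/
theorem fresh (h : Ends L i p q) (hpq : p ≠ q) (hS : ∀ j ∈ S, ∀ z, ¬ Ends L j p z) :
    comps m L (insert i S) + 1 = comps m L S := by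
  refine h.comps.2 fun ⟨w⟩ => ?_
  cases w with
  | nil => exact hpq rfl
  | cons a _ =>
    obtain ⟨-, j, hj, e⟩ := adj_iff.1 a
    exact hS j hj _ e

/-- The third edge of a triangle does not change the count. -/
theorem tri {j l : ℕ} {w : Fin m} (h : Ends L i p q) (hj : j ∈ S) (hl : l ∈ S) (h1 : Ends L j p w)
    (h2 : Ends L l w q) (hp : p ≠ w) (hq : w ≠ q) : comps m L (insert i S) = comps m L S :=
  h.comps.1 ((adj_iff.2 ⟨hp, j, hj, h1⟩).reachable.trans (adj_iff.2 ⟨hq, l, hl, h2⟩).reachable)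

theorem six {U : Finset (Fin m)} (h : T3 U (Ad m L E)) : 6 ≤ E.card := by
  obtain ⟨p, hp⟩ : U.Nonempty := card_pos.1 (by have := h.four; omega)
  obtain ⟨a, ha, -⟩ := h.deg hp p p
  obtain ⟨b, hb, hba, -⟩ := h.deg hp a a
  obtain ⟨c, hc, hca, hcb⟩ := h.deg hp a b
  obtain ⟨x, hx, hxp, -⟩ := h.deg (h.mem' ha) p p
  obtain ⟨y, hy, hyp, hyx⟩ := h.deg (h.mem' ha) p x
  obtain ⟨z, hz, hzp, hza⟩ := h.deg (h.mem' hb) p a
  have := h.ne ha; have := h.ne hb; have := h.ne hc
  obtain ⟨i1, m1, e1⟩ := ha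
  obtain ⟨i2, m2, e2⟩ := hb
  obtain ⟨i3, m3, e3⟩ := hc
  obtain ⟨i4, m4, e4⟩ := hx
  obtain ⟨i5, m5, e5⟩ := hy
  obtain ⟨i6, m6, e6⟩ := hz
  have key : ∀ {i j : ℕ} {x y z t : Fin m}, Ends L i x y → Ends L j z t → ¬ Same x y z t → i ≠ j :=
    fun a b c d => c (Ends_same a (d ▸ b))
  have hs : ({i1, i2, i3, i4, i5, i6} : Finset ℕ) ⊆ E := by
    simp only [insert_subset_iff, singleton_subset_iff]; exact ⟨m1, m2, m3, m4, m5, m6⟩
  refine le_trans (le_of_eq ?_) (card_le_card hs)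
  have := key e1 e2 (by unfold Same; grind)
  have := key e1 e3 (by unfold Same; grind)
  have := key e1 e4 (by unfold Same; grind)
  have := key e1 e5 (by unfold Same; grind)
  have := key e1 e6 (by unfold Same; grind)
  have := key e2 e3 (by unfold Same; grind)
  have := key e2 e4 (by unfold Same; grind)
  have := key e2 e5 (by unfold Same; grind)
  have := key e2 e6 (by unfold Same; grind)
  have := key e3 e4 (by unfold Same; grind)
  have := key e3 e5 (by unfold Same; grind)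
  have := key e3 e6 (by unfold Same; grind)
  have := key e4 e5 (by unfold Same; grind)
  have := key e4 e6 (by unfold Same; grind)
  have := key e5 e6 (by unfold Same; grind)
  rw [card_insert_of_notMem (by simp [*]), card_insert_of_notMem (by simp [*]),
    card_insert_of_notMem (by simp [*]), card_insert_of_notMem (by simp [*]),
    card_insert_of_notMem (by simp [*]), card_singleton]

end graphs

end Pool.Agent.P.MP_e0c037_lc.BD
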