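import Pool.Agent.P.MP_e0c037_lc.BD.Base

/-! The bound for the negative part. -/

namespace Pool.Agent.P.MP_e0c037_lc.BD

open Finset Function SG

namespace Bnd

variable {C : KF → Finset ℕ → Prop} {q r ε κ η : ℝ} {J : ℕ} {I : ℕ → ℝ → Prop} {s t : Sta}
  {e f g x : ℕ} {u : ℕ → ℝ} {gr : ℕ → ℕ}

/-- The level of an element. -/
def lev (s : Sta) (gr : ℕ → ℕ) : ℕ → ℕ :=
  fun x => if x ∈ s.A then 0 else if x ∈ s.B then 1 else gr x

/-- The potential. -/
def pot (s : Sta) (f : ℕ) (gr : ℕ → ℕ) : ℕ := ∑ x ∈ s.E.erase f, 2 ^ lev s gr x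

/-- The state after an ordinary merge. -/
def mrg (s : Sta) (k : KF) (e g : ℕ) : Sta :=
  ⟨k, s.E.erase g, (s.A.erase g).erase e, (s.B.erase g).erase e⟩

/-- The data of the induction. -/
structure Dat (C : KF → Finset ℕ → Prop) (r : ℝ) (J : ℕ) (I : ℕ → ℝ → Prop) (s : Sta) (f : ℕ)
    (u : ℕ → ℝ) (gr : ℕ → ℕ) : Prop where
  c : C s.k s.E
  wf : s.WF
  conn : Conn s.k s.E
  rd : s.Rd
  mem : f ∈ s.E
  nA : f ∉ s.A
  nB : f ∉ s.B
  two : 2 ≤ s.E.card
  vf : Vw r (r ^ 2) (u f)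
  lv : ∀ x ∈ s.E, x ≠ f → x ∉ s.A → x ∉ s.B → 2 ≤ gr x ∧ gr x ≤ J ∧ I (gr x) (u x)

theorem lev_N (ha : x ∉ s.A) (hb : x ∉ s.B) : lev s gr x = gr x := by
  unfold lev; rw [if_neg ha, if_neg hb]

theorem lev_S (h : x ∈ s.A ∨ x ∈ s.B) : lev s gr x ≤ 1 := by
  unfold lev; split_ifs <;> first | omega | tauto

theorem pot_eq (w : s.WF) (ha : f ∉ s.A) (hb : f ∉ s.B) :
    pot s f gr = s.A.card + 2 * s.B.card +
      ∑ x ∈ s.E.filter (fun x => x ≠ f ∧ x ∉ s.A ∧ x ∉ s.B), 2 ^ gr x := by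
  have e1 : s.E.erase f = s.A ∪ (s.B ∪ s.E.filter (fun x => x ≠ f ∧ x ∉ s.A ∧ x ∉ s.B)) := by
    ext z
    simp only [mem_erase, mem_union, mem_filter]
    have := @w.sa z
    have := @w.sb z
    by_cases h : z = f
    · subst h; tauto
    · tauto
  have d1 : Disjoint s.B (s.E.filter (fun x => x ≠ f ∧ x ∉ s.A ∧ x ∉ s.B)) :=
    disjoint_left.2 fun z hz hz' => (mem_filter.1 hz').2.2.2 hz
  have d2 : Disjoint s.A (s.B ∪ s.E.filter (fun x => x ≠ f ∧ x ∉ s.A ∧ x ∉ s.B)) :=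
    disjoint_union_right.2 ⟨w.dj, disjoint_left.2 fun z hz hz' => (mem_filter.1 hz').2.2.1 hz⟩
  have a1 : ∑ x ∈ s.A, 2 ^ lev s gr x = s.A.card := by
    rw [card_eq_sum_ones]
    exact sum_congr rfl fun z hz => by unfold lev; rw [if_pos hz, pow_zero]
  have a2 : ∑ x ∈ s.B, 2 ^ lev s gr x = 2 * s.B.card := by
    rw [card_eq_sum_ones, mul_sum]
    exact sum_congr rfl fun z hz => by
      unfold lev; rw [if_neg (disjoint_right.1 w.dj hz), if_pos hz, pow_one, mul_one]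
  unfold pot
  rw [e1, sum_union d2, sum_union d1, a1, a2, add_assoc]
  congr 2
  exact sum_congr rfl fun z hz => by rw [lev_N (mem_filter.1 hz).2.2.1 (mem_filter.1 hz).2.2.2]

theorem pot_mg {n : ℕ} (m : Mg s t n) (w : s.WF) (hf : f ∈ s.E) (ha : f ∉ s.A) (hb : f ∉ s.B) :
    pot t f gr + 3 * n = pot s f gr := by
  obtain ⟨-, t2, t3⟩ := (m.ns f).2 ⟨hf, ha, hb⟩
  have e1 : t.E.filter (fun x => x ≠ f ∧ x ∉ t.A ∧ x ∉ t.B) =
      s.E.filter (fun x => x ≠ f ∧ x ∉ s.A ∧ x ∉ s.B) := by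
    ext z
    simp only [mem_filter]
    have := m.ns z
    tauto
  rw [pot_eq w ha hb, pot_eq (m.wf w) t2 t3, e1, ← m.size w]
  ring

theorem pot_op (N : Finset ℕ) (he : e ∈ s.E) (hef : e ≠ f) :
    pot s f gr = 2 ^ lev s gr e + pot (s.op N e) f gr := by
  unfold pot
  rw [← add_sum_erase _ _ (mem_erase.2 ⟨hef, he⟩), op_E, erase_right_comm]
  congr 1
  refine sum_congr rfl fun z hz => ?_
  have hz' : z ≠ e := ne_of_mem_erase (mem_of_mem_erase hz)
  unfold lev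
  rw [op_A, op_B]
  simp [hz']

theorem pot_mrg (k : KF) {n : ℕ} (he : e ∈ s.E) (hg : g ∈ s.E) (heg : e ≠ g) (hef : e ≠ f)
    (hgf : g ≠ f) (hn : 2 ^ lev s gr e + 2 ^ lev s gr g ≤ 2 ^ n) :
    pot s f gr ≤ pot (mrg s k e g) f (update gr e n) := by
  have hg' : g ∈ s.E.erase f := mem_erase.2 ⟨hgf, hg⟩
  have he' : e ∈ (s.E.erase f).erase g := by simp [he, heg, hef]
  have a0 : lev (mrg s k e g) (update gr e n) e = n := by simp [lev, mrg]
  have a1 : ∑ x ∈ ((s.E.erase f).erase g).erase e, 2 ^ lev (mrg s k e g) (update gr e n) x =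
      ∑ x ∈ ((s.E.erase f).erase g).erase e, 2 ^ lev s gr x :=
    sum_congr rfl fun z hz => by
      have h1 : z ≠ e := ne_of_mem_erase hz
      have h2 : z ≠ g := ne_of_mem_erase (mem_of_mem_erase hz)
      simp [lev, mrg, h1, h2]
  unfold pot
  change _ ≤ ∑ x ∈ (s.E.erase g).erase f, _
  rw [erase_right_comm (a := g), ← add_sum_erase _ _ hg', ← add_sum_erase _ _ he',
    ← add_sum_erase _ _ he', a0, a1]
  omega

theorem wt_mrg (k : KF) (w : ℝ) (hx : x ≠ g) :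
    update (wt r s u) e w x = wt r (mrg s k e g) (update u e w) x := by
  by_cases h : x = e
  · subst h; simp [wt, mrg]
  · simp [wt, mrg, h, hx]

theorem Dat.vw (d : Dat C r J I s f u gr) (p : Pm q r ε κ) (G : Gs q r ε κ η J I)
    (hx : x ∈ s.E) : Vw r (r ^ 2) (wt r s u x) := by
  by_cases ha : x ∈ s.A
  · rw [wt_A ha]; exact p.vA
  by_cases hb : x ∈ s.B
  · rw [wt_B d.wf hb]; exact p.vB
  rw [wt_N ha hb]
  by_cases h : x = f
  · rw [h]; exact d.vf
  · obtain ⟨a1, a2, a3⟩ := d.lv x hx h ha hb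
    exact p.inner (G.sub _ a1 a2 _ a3)

/-- The level of a merged element. -/
theorem Dat.level (d : Dat C r J I s f u gr) (p : Pm q r ε κ) (G : Gs q r ε κ η J I)
    (φ : ℝ → ℝ → ℝ) (hφ : ∀ v w, φ v w = φ w v)
    (hs : ∀ g, 2 ≤ g → g < J → ∀ v w, I g v → Vw r (r ^ 2) w → I (g + 1) (φ v w))
    (hlt : ∀ x ∈ s.E, x ≠ f → lev s gr x < J) (he : e ∈ s.E) (hg : g ∈ s.E) (hef : e ≠ f)
    (hgf : g ≠ f)
    (hb : (e ∈ s.A ∨ e ∈ s.B) → (g ∈ s.A ∨ g ∈ s.B) → I 2 (φ (wt r s u e) (wt r s u g))) :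
    ∃ n, 2 ≤ n ∧ n ≤ J ∧ 2 ^ lev s gr e + 2 ^ lev s gr g ≤ 2 ^ n ∧
      I n (φ (wt r s u e) (wt r s u g)) := by
  have key : ∀ {e g}, e ∈ s.E → g ∈ s.E → e ≠ f → ¬ (e ∈ s.A ∨ e ∈ s.B) →
      lev s gr g ≤ lev s gr e → ∃ n, 2 ≤ n ∧ n ≤ J ∧ 2 ^ lev s gr e + 2 ^ lev s gr g ≤ 2 ^ n ∧
        I n (φ (wt r s u e) (wt r s u g)) := by
    intro e g he hg hef hn hl
    push Not at hn
    obtain ⟨a1, -, a3⟩ := d.lv e he hef hn.1 hn.2
    have a4 := hlt e he hef
    have a5 := Nat.pow_le_pow_right (by norm_num : 0 < 2) hl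
    rw [lev_N hn.1 hn.2] at a4 a5 ⊢
    refine ⟨gr e + 1, by omega, a4, by rw [pow_succ]; omega, ?_⟩
    rw [wt_N hn.1 hn.2]
    exact hs _ a1 a4 _ _ a3 (d.vw p G hg)
  have low : ∀ {e}, e ∈ s.E → e ≠ f → ¬ (e ∈ s.A ∨ e ∈ s.B) → 2 ≤ lev s gr e := by
    intro e he hef hn
    push Not at hn
    rw [lev_N hn.1 hn.2]
    exact (d.lv e he hef hn.1 hn.2).1
  by_cases h1 : (e ∈ s.A ∨ e ∈ s.B) ∧ (g ∈ s.A ∨ g ∈ s.B)
  · have b1 := Nat.pow_le_pow_right (by norm_num : 0 < 2) (lev_S (gr := gr) h1.1)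
    have b2 := Nat.pow_le_pow_right (by norm_num : 0 < 2) (lev_S (gr := gr) h1.2)
    exact ⟨2, le_rfl, G.two, by omega, hb h1.1 h1.2⟩
  rcases le_total (lev s gr g) (lev s gr e) with h | h
  · refine key he hg hef (fun h2 => ?_) h
    have := lev_S (gr := gr) h2
    have := low hg hgf fun h3 => h1 ⟨h2, h3⟩
    omega
  · rw [hφ, add_comm]
    refine key hg he hgf (fun h2 => ?_) h
    have := lev_S (gr := gr) h2
    have := low he hef fun h3 => h1 ⟨h3, h2⟩
    omega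

theorem Dat.mrg (d : Dat C r J I s f u gr) {k : KF} {n : ℕ} {w : ℝ} (hg : g ∈ s.E) (hef : e ≠ f)
    (hgf : g ≠ f) (h3 : 3 ≤ s.E.card) (hc : C k (s.E.erase g)) (hk : IsK k)
    (cn : Conn k (s.E.erase g)) (rd : (mrg s k e g).Rd) (n1 : 2 ≤ n) (n2 : n ≤ J) (hw : I n w) :
    Dat C r J I (mrg s k e g) f (update u e w) (update gr e n) where
  c := hc
  wf := ⟨hk, (erase_subset _ _).trans (erase_subset_erase _ d.wf.sa),
    (erase_subset _ _).trans (erase_subset_erase _ d.wf.sb),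
    d.wf.dj.mono ((erase_subset _ _).trans (erase_subset _ _))
      ((erase_subset _ _).trans (erase_subset _ _))⟩
  conn := cn
  rd := rd
  mem := mem_erase.2 ⟨hgf.symm, d.mem⟩
  nA := fun h => d.nA (mem_of_mem_erase (mem_of_mem_erase h))
  nB := fun h => d.nB (mem_of_mem_erase (mem_of_mem_erase h))
  two := by
    change 2 ≤ (s.E.erase g).card
    rw [card_erase_of_mem hg]; omega
  vf := by rw [update_of_ne hef.symm]; exact d.vf
  lv := by
    intro x hx hxf ha hb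
    by_cases h : x = e
    · rw [h, update_self, update_self]; exact ⟨n1, n2, hw⟩
    · have hx' := mem_erase.1 hx
      rw [update_of_ne h, update_of_ne h]
      exact d.lv x hx'.2 hxf (fun h' => ha (mem_erase.2 ⟨h, mem_erase.2 ⟨hx'.1, h'⟩⟩))
        fun h' => hb (mem_erase.2 ⟨h, mem_erase.2 ⟨hx'.1, h'⟩⟩)

theorem conn_op {N : Finset ℕ} (c1 : Conn s.k (s.E.erase e)) (c2 : Conn (con s.k e) (s.E.erase e)) :
    Conn (s.op N e).k (s.op N e).E := by
  unfold Sta.op; split_ifs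
  exacts [c2, c1]

theorem Dat.move (d : Dat C r J I s f u gr) (mc : Mc C) {N : Finset ℕ} {n : ℕ} (he : e ∈ s.E)
    (hef : e ≠ f) (h3 : 3 ≤ s.E.card) (cn : Conn (s.op N e).k (s.op N e).E)
    (m : Mg (s.op N e) t n) (rd : t.Rd) : Dat C r J I t f u gr := by
  have w := d.wf.op N e
  have f1 : f ∈ (s.op N e).E := by rw [op_E]; exact mem_erase.2 ⟨hef.symm, d.mem⟩
  have f2 : f ∉ (s.op N e).A := by rw [op_A]; exact fun h => d.nA (mem_of_mem_erase h)
  have f3 : f ∉ (s.op N e).B := by rw [op_B]; exact fun h => d.nB (mem_of_mem_erase h)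
  obtain ⟨t1, t2, t3⟩ := (m.ns f).2 ⟨f1, f2, f3⟩
  refine ⟨m.mc mc w (mc_op mc d.c he N), m.wf w, m.conn w cn, rd, t1, t2, t3,
    m.two w f1 f2 f3 (by rw [op_E, card_erase_of_mem he]; omega), d.vf, fun x hx hxf ha hb => ?_⟩
  obtain ⟨a1, a2, a3⟩ := (m.ns x).1 ⟨hx, ha, hb⟩
  rw [op_E] at a1
  rw [op_A] at a2
  rw [op_B] at a3
  have hx' := mem_erase.1 a1
  exact d.lv x hx'.2 hxf (fun h => a2 (mem_erase.2 ⟨hx'.1, h⟩)) fun h => a3 (mem_erase.2 ⟨hx'.1, h⟩)

/-- The analytic part of a move. -/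
theorem fin (p : Pm q r ε κ) {k : KF} {E : Finset ℕ} {v : ℕ → ℝ} {m : ℕ} (h : IsK k)
    (hc : Conn k E) (he : e ∈ E) (hf : f ∈ E) (hef : e ≠ f) (h3 : 3 ≤ E.card)
    (c1 : Conn k (E.erase e)) (c2 : Conn (con k e) (E.erase e))
    (hv : ∀ x ∈ E, Vw r (r ^ 2) (v x))
    (hb : (0 ≤ 1 + v e ∧ -(ε * (sg k (E.erase e) * Zk q k v (E.erase e))) ≤
        r ^ m * al q k v (E.erase e) f) ∨
      (1 + v e < 0 ∧ -(ε * (sg (con k e) (E.erase e) * Zk q (con k e) v (E.erase e))) ≤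
        r ^ m * al q (con k e) v (E.erase e) f)) :
    -(ε * (sg k E * Zk q k v E)) ≤ r ^ (m + 1) * al q k v E f := by
  have S := p.sys
  have hk0 : 0 ≤ r := S.r0
  obtain ⟨s1, s2⟩ := hc.single h he hf hef
  obtain ⟨a1, -⟩ := al_dc (q := q) (v := v) he hef s1 s2
  have hf' : f ∈ E.erase e := mem_erase.2 ⟨hef.symm, hf⟩
  have hn' : 2 ≤ (E.erase e).card := by rw [card_erase_of_mem he]; omega
  have hv' : ∀ x ∈ E.erase e, x ≠ f → Vw r (r ^ 2) (v x) :=
    fun x hx _ => hv x (mem_of_mem_erase hx)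
  obtain ⟨p4, -⟩ := claimP' S h c1 hf' hn' hv'
  obtain ⟨p5, -⟩ := claimP' S (h.con e) c2 hf' hn' hv'
  obtain ⟨p6, -⟩ := claimP' S h hc he (by omega) fun x hx _ => hv x hx
  obtain ⟨v1, v2⟩ := hv e he
  have hneg : 0 < -v e := by have := S.b1; linarith
  have a0 := mul_pos S.c0 p6
  have hp := pow_nonneg hk0 m
  have r2 : r ^ 2 ≤ r := by nlinarith [p.r1]
  rcases hb with ⟨hy, b1⟩ | ⟨hy, b2⟩
  · rw [sg_del s2] at b1
    have d1 : -(ε * (sg k E * Zk q k v E)) ≤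
        (1 + v e) * -(ε * (sg k E * Zk q k v (E.erase e))) := by
      rw [Z_del S.q1 he]; nlinarith [mul_pos hneg a0]
    have d2 : al q k v (E.erase e) f ≤ al q k v E f := by
      rw [a1]; nlinarith [mul_pos hneg p5]
    calc _ ≤ _ := d1
      _ ≤ (1 + v e) * (r ^ m * al q k v (E.erase e) f) := mul_le_mul_of_nonneg_left b1 hy
      _ ≤ r * (r ^ m * al q k v E f) :=
        mul_le_mul (v2.trans r2) (mul_le_mul_of_nonneg_left d2 hp) (mul_nonneg hp p4.le) hk0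
      _ = _ := by ring
  · rw [sg_con he s1] at b2
    have d1 : -(ε * (sg k E * Zk q k v E)) ≤
        -(1 + v e) * -(ε * (-sg k E * Zk q (con k e) v (E.erase e))) := by
      rw [Z_con S.q1 he]; nlinarith
    have d2 : al q (con k e) v (E.erase e) f ≤ al q k v E f := by
      rw [a1]; nlinarith [mul_pos (neg_pos.2 hy) p5]
    calc _ ≤ _ := d1
      _ ≤ -(1 + v e) * (r ^ m * al q (con k e) v (E.erase e) f) :=
        mul_le_mul_of_nonneg_left b2 (by linarith)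
      _ ≤ r * (r ^ m * al q k v E f) :=
        mul_le_mul (by linarith) (mul_le_mul_of_nonneg_left d2 hp) (mul_nonneg hp p5.le) hk0
      _ = _ := by ring

theorem main (mc : Mc C) (st : Step C) (p : Pm q r ε κ) (G : Gs q r ε κ η J I) {c : ℝ} {m0 : ℕ}
    (h0 : 0 ≤ η) (hη : η * c = r ^ m0)
    (cp : ∀ (k : KF) E (v : ℕ → ℝ) x f, IsK k → Conn k E → x ∈ E → f ∈ E → x ≠ f →
      (∀ e ∈ E, Vw r (r ^ 2) (v e)) → Vw (κ * r) (κ * r ^ 2) (v x) →
      al q k v E x ≤ c * al q k v E f) (L : ℕ) :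
    ∀ (s : Sta) u gr m, Dat C r J I s f u gr → s.E.card = L → m ≤ m0 →
      m * (2 ^ J + 11) ≤ pot s f gr →
      -(ε * (sg s.k s.E * Zk q s.k (wt r s u) s.E)) ≤ r ^ m * al q s.k (wt r s u) s.E f := by
  have S := p.sys
  have r0 : 0 < r := by linarith [p.r0]
  induction L using Nat.strong_induction_on with
  | _ L ih0 =>
  intro s u gr m d hL hm0 hm
  have ih : ∀ {t : Sta} {u' gr'} (m' : ℕ), Dat C r J I t f u' gr' → t.E.card < s.E.card →
      m' ≤ m0 → m' * (2 ^ J + 11) ≤ pot t f gr' →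
      -(ε * (sg t.k t.E * Zk q t.k (wt r t u') t.E)) ≤ r ^ m' * al q t.k (wt r t u') t.E f :=
    fun m' d' hlt a b => ih0 _ (hL ▸ hlt) _ _ _ m' d' rfl a b
  clear ih0 hL
  have h := d.wf.isK
  have hf := d.mem
  have hv : ∀ x ∈ s.E, Vw r (r ^ 2) (wt r s u x) := fun x hx => d.vw p G hx
  obtain ⟨p1, p2, p3⟩ := claimP' S h d.conn hf d.two fun x hx _ => hv x hx
  by_cases htop : ∃ e ∈ s.E, e ≠ f ∧ e ∉ s.A ∧ e ∉ s.B ∧ gr e = J
  · obtain ⟨e, he, hef, ha, hb, hJ⟩ := htop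
    obtain ⟨a1, a2, a3⟩ := d.lv e he hef ha hb
    obtain ⟨q1, q2, q3⟩ := claimP' S h d.conn he d.two fun x hx _ => hv x hx
    have a4 := G.top (u e) (ga q s.k (wt r s u) s.E e / al q s.k (wt r s u) s.E e) (hJ ▸ a3)
      (by rwa [le_div_iff₀ q1]) (by rwa [div_le_iff₀ q1])
    rw [← mul_div_assoc, div_le_iff₀ q1] at a4
    have a5 := mul_le_mul_of_nonneg_left (cp _ _ _ e f h d.conn he hf hef hv
      (by rw [wt_N ha hb]; exact G.sub _ a1 a2 _ a3)) h0
    rw [← mul_assoc, hη] at a5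
    have a6 := mul_le_mul_of_nonneg_right (pow_le_pow_of_le_one r0.le p.r1.le hm0) p1.le
    rw [Z_eq S.q1 he, wt_N ha hb]
    linarith
  have hlt : ∀ e ∈ s.E, e ≠ f → lev s gr e < J := fun e he hef => by
    by_cases hs : e ∈ s.A ∨ e ∈ s.B
    · have := lev_S (gr := gr) hs
      have := G.two
      omega
    · push Not at hs
      rw [lev_N hs.1 hs.2]
      exact lt_of_le_of_ne (d.lv e he hef hs.1 hs.2).2.1 fun hh => htop ⟨e, he, hef, hs.1, hs.2, hh⟩
  rcases Nat.eq_zero_or_pos m with rfl | hm1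
  · rw [Z_eq S.q1 hf, pow_zero, one_mul]
    have hvf := hv f hf
    have a0 := mul_pos S.c0 p1
    have a1 : |1 + wt r s u f| ≤ 1 :=
      abs_le.2 ⟨by linarith [hvf.1, S.r1], by linarith [hvf.2, S.b1]⟩
    have a2 : |ga q s.k (wt r s u) s.E f| ≤ al q s.k (wt r s u) s.E f :=
      abs_le.2 ⟨by nlinarith [S.r1], by nlinarith [S.b1]⟩
    have a3 : |(1 + wt r s u f) * ga q s.k (wt r s u) s.E f| ≤ al q s.k (wt r s u) s.E f := by
      rw [abs_mul]
      nlinarith [abs_nonneg (1 + wt r s u f), abs_nonneg (ga q s.k (wt r s u) s.E f)]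
    obtain ⟨a4, a5⟩ := abs_le.1 a3
    rcases S.eps with rfl | rfl <;> linarith
  by_cases h3 : s.E.card < 3
  · exfalso
    obtain ⟨e, hef, hE⟩ := card_two hf (by have := d.two; omega)
    have e1 : s.E.erase f = {e} := by
      rw [hE, pair_comm, erase_insert (by simpa using hef.symm)]
    unfold pot at hm
    rw [e1, sum_singleton] at hm
    have := Nat.pow_lt_pow_right (by norm_num : 1 < 2) (hlt e (by simp [hE]) hef)
    have := Nat.mul_le_mul_right (2 ^ J + 11) hm1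
    omega
  replace h3 : 3 ≤ s.E.card := by omega
  have key : ∀ {k : KF} {e g n : ℕ} {w : ℝ}, e ∈ s.E → g ∈ s.E → e ≠ g → e ≠ f → g ≠ f →
      C k (s.E.erase g) → IsK k → Conn k (s.E.erase g) → (mrg s k e g).Rd → 2 ≤ n → n ≤ J →
      2 ^ lev s gr e + 2 ^ lev s gr g ≤ 2 ^ n → I n w →
      -(ε * ((1 - q) * al q k (update (wt r s u) e w) (s.E.erase g) f -
        (1 + wt r s u f) * ga q k (update (wt r s u) e w) (s.E.erase g) f)) ≤
        r ^ m * al q k (update (wt r s u) e w) (s.E.erase g) f := by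
    intro k e g n w he hg heg hef hgf hc hk cn rd n1 n2 n3 hw
    have d' := d.mrg hg hef hgf h3 hc hk cn rd n1 n2 hw
    have b := ih m d' (card_erase_lt_of_mem hg) hm0 (hm.trans (pot_mrg k he hg heg hef hgf n3))
    obtain ⟨e1, e2⟩ := al_congr (q := q) (k := k) (E := s.E.erase g) (f := f)
      fun z hz _ => wt_mrg (r := r) (s := s) (u := u) (e := e) k w (ne_of_mem_erase hz)
    rw [Z_eq S.q1 d'.mem, ← wt_mrg k w hgf.symm, update_of_ne hef.symm] at b
    rw [e1, e2]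
    exact b
  have nA : s.A ⊆ s.E.filter fun x => 1 + wt r s u x < 0 := fun x hx =>
    mem_filter.2 ⟨d.wf.sa hx, by rw [wt_A hx]; linarith⟩
  have nB : Disjoint s.B (s.E.filter fun x => 1 + wt r s u x < 0) :=
    disjoint_left.2 fun x hx hx' => by
      have := (mem_filter.1 hx').2
      rw [wt_B d.wf hx] at this
      nlinarith
  rcases st s _ f d.c d.wf d.conn d.rd hf d.nA d.nB nA nB h3 with
    ⟨e, he, g, hg, heg, hef, hgf, hh | hh⟩ | ⟨e, he, hef, c1, c2, t, n, n3, mg, rd⟩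
  · obtain ⟨c1, -, a1, a2⟩ := al_par (q := q) (v := wt r s u) h d.conn he hg heg hef hgf hh.2.2
    obtain ⟨n, n1, n2, n3, hw⟩ := d.level p G (fun v w => v + w + v * w) (fun v w => by ring)
      G.gpar hlt he hg hef hgf (by
        rintro (ea | eb) (ga | gb)
        · exact absurd hh (d.rd.1 e ea g ga heg)
        · rw [wt_A ea, wt_B d.wf gb]; exact G.ns.1
        · rw [wt_B d.wf eb, wt_A ga]; convert G.ns.1 using 1; ring
        · rw [wt_B d.wf eb, wt_B d.wf gb]; exact G.ns.2.1)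
    rw [Z_eq S.q1 hf, a1, a2]
    refine key he hg heg hef hgf (mc.del _ _ _ d.c (erase_subset _ _)) h c1
      ⟨d.rd.1.mono ((erase_subset _ _).trans (erase_subset _ _)), fun a ha b hb hab c => ?_⟩
      n1 n2 n3 hw
    exact d.rd.2 a (mem_of_mem_erase (mem_of_mem_erase ha)) b
      (mem_of_mem_erase (mem_of_mem_erase hb)) hab
      (ser_of_par_del h hh he heg (ne_of_mem_erase ha) (ne_of_mem_erase hb) c)
  · obtain ⟨t1, -⟩ := S.ser _ _ (hv e he) (hv g hg)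
    obtain ⟨a1, a2⟩ := al_ser (q := q) (v := wt r s u) h d.conn hf he hg heg hef hgf hh.2.2 t1.ne
    obtain ⟨n, n1, n2, n3, hw⟩ := d.level p G (fun v w => v * w / (q + v + w))
      (fun v w => by rw [mul_comm, add_right_comm]) G.gser hlt he hg hef hgf (by
        rintro (ea | eb) (ga | gb)
        · rw [wt_A ea, wt_A ga]; exact G.ns.2.2.1
        · rw [wt_A ea, wt_B d.wf gb]; exact G.ns.2.2.2
        · rw [wt_B d.wf eb, wt_A ga, mul_comm, add_right_comm]; exact G.ns.2.2.2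
        · exact absurd hh (d.rd.2 e eb g gb heg))
    have b := key he hg heg hef hgf (mc.con _ _ _ d.c hg) (h.con g)
      (conn_ser h d.conn he hg heg hh.2.2)
      ⟨fun a ha b hb hab c => d.rd.1 a (mem_of_mem_erase (mem_of_mem_erase ha)) b
        (mem_of_mem_erase (mem_of_mem_erase hb)) hab
        (par_of_ser_con h hh he hg heg (erase_subset_erase _ (erase_subset_erase _ d.wf.sa) ha)
          (erase_subset_erase _ (erase_subset_erase _ d.wf.sa) hb) c),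
        fun a ha b hb hab c => d.rd.2 a (mem_of_mem_erase (mem_of_mem_erase ha)) b
          (mem_of_mem_erase (mem_of_mem_erase hb)) hab
          (ser_of_con hg (ne_of_mem_erase (mem_of_mem_erase ha))
            (ne_of_mem_erase (mem_of_mem_erase hb)) c)⟩ n1 n2 n3 hw
    have := mul_le_mul_of_nonneg_left b (by linarith : 0 ≤ -(q + wt r s u e + wt r s u g))
    rw [Z_eq S.q1 hf, a1, a2]
    linarith
  · obtain ⟨m, rfl⟩ : ∃ m', m = m' + 1 := ⟨m - 1, by omega⟩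
    generalize hN : (s.E.filter fun x => 1 + wt r s u x < 0) = N at mg
    have cn : Conn (s.op N e).k (s.op N e).E := conn_op c1 c2
    have d' := d.move mc he hef h3 cn mg rd
    have w := d.wf.op N e
    have f1 : f ∈ (s.op N e).E := by rw [op_E]; exact mem_erase.2 ⟨hef.symm, hf⟩
    have f2 : f ∉ (s.op N e).A := by rw [op_A]; exact fun h => d.nA (mem_of_mem_erase h)
    have f3 : f ∉ (s.op N e).B := by rw [op_B]; exact fun h => d.nB (mem_of_mem_erase h)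
    have b := ih m d' (by
      have := card_le_card mg.sub
      rw [op_E] at this
      exact this.trans_lt (card_erase_lt_of_mem he)) (by omega) (by
      have a1 := pot_mg (gr := gr) mg w f1 f2 f3
      have a2 := pot_op (gr := gr) N he hef
      have a3 := Nat.pow_lt_pow_right (by norm_num : 1 < 2) (hlt e he hef)
      rw [Nat.succ_mul] at hm
      omega)
    obtain ⟨c0, c01, c02, c03⟩ := mg.scale (u := u) p.hq S.q1 r0 p.r1 w cn f1 f2 f3
    have b' : -(ε * (sg (s.op N e).k (s.E.erase e) * Zk q (s.op N e).k (wt r s u) (s.E.erase e))) ≤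
        r ^ m * al q (s.op N e).k (wt r s u) (s.E.erase e) f := by
      rw [op_E] at c02 c03
      rw [← Zk_congr (v := wt r (s.op N e) u) (fun _ _ => rfl)
        fun z hz => wt_op N (ne_of_mem_erase hz),
        ← (al_congr (v := wt r (s.op N e) u) fun z hz _ => wt_op N (ne_of_mem_erase hz)).1,
        c02, c03]
      have := mul_le_mul_of_nonneg_left b c01.le
      linarith
    refine fin p h d.conn he hf hef h3 c1 c2 hv ?_
    by_cases hy : 1 + wt r s u e < 0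
    · have : e ∈ N := hN ▸ mem_filter.2 ⟨he, hy⟩
      rw [Sta.op, if_pos this] at b'
      exact Or.inr ⟨hy, b'⟩
    · have : e ∉ N := fun hh => by rw [← hN] at hh; exact hy (mem_filter.1 hh).2
      rw [Sta.op, if_neg this] at b'
      exact Or.inl ⟨not_lt.1 hy, b'⟩

end Bnd

theorem p_Bnd : S_Bnd := by
  intro C q r ε κ mc st p hG ⟨c, c0, cp⟩ m
  have r0 : 0 < r := by linarith [p.r0]
  have h0 : 0 < r ^ m / c := div_pos (pow_pos r0 m) c0
  obtain ⟨J, I, G⟩ := hG _ h0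
  refine ⟨m * (2 ^ J + 11), fun s f u a1 a2 a3 a4 a5 a6 a7 a8 a9 a10 hM => ?_⟩
  refine Bnd.main mc st p G h0.le (div_mul_cancel₀ _ c0.ne') cp _ s u (fun _ => 0) m
    ⟨a1, a2, a3, a4, a5, a6, a7, a10, a9, fun x hx hxf ha hb => ?_⟩ rfl le_rfl ?_
  · have := a8 hx
    simp [hxf, ha, hb] at this
  · rw [Bnd.pot_eq a2 a6 a7]
    exact hM.trans (Nat.le_add_right _ _)

end Pool.Agent.P.MP_e0c037_lc.BD
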