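import Pool.Agent.P.MP_e0c037_lc.SG.Base
import Pool.Agent.P.MP_e0c037_lc.Real

/-! The two boundary curves of the diamond: definitions and interface statements. -/

namespace Pool.Agent.P.MP_e0c037_lc.BD

open Finset Pool.Agent.Lib.helper21 SG

/-- Elements in series. -/
def Ser (k : KF) (E : Finset ℕ) (x y : ℕ) : Prop :=
  k (E.erase x) = k E ∧ k (E.erase y) = k E ∧ k ((E.erase y).erase x) = k E + 1

/-- No two elements of `S` are in series. -/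
def RedS (k : KF) (E S : Finset ℕ) : Prop := ∀ x ∈ S, ∀ y ∈ S, x ≠ y → ¬ Ser k E x y

/-- A component count with ground set `E` and two sets of special elements. -/
structure Sta where
  k : KF
  E : Finset ℕ
  A : Finset ℕ
  B : Finset ℕ

/-- Well-formed states. -/
structure Sta.WF (s : Sta) : Prop where
  isK : IsK s.k
  sa : s.A ⊆ s.E
  sb : s.B ⊆ s.E
  dj : Disjoint s.A s.B

/-- Reduced states. -/
def Sta.Rd (s : Sta) : Prop := Red s.k s.A ∧ RedS s.k s.E s.B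

/-- Two parallel elements of `A` become one element of `B`. -/
def Sta.par (s : Sta) (x y : ℕ) : Sta := ⟨s.k, s.E.erase y, (s.A.erase y).erase x, insert x s.B⟩

/-- Two elements of `B` in series become one element of `A`. -/
def Sta.ser (s : Sta) (x y : ℕ) : Sta :=
  ⟨con s.k y, s.E.erase y, insert x s.A, (s.B.erase y).erase x⟩

/-- Deletion. -/
def Sta.del (s : Sta) (e : ℕ) : Sta := ⟨s.k, s.E.erase e, s.A.erase e, s.B.erase e⟩

/-- Contraction. -/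
def Sta.ctr (s : Sta) (e : ℕ) : Sta := ⟨con s.k e, s.E.erase e, s.A.erase e, s.B.erase e⟩

/-- Elements of `N` are contracted, the others are deleted. -/
def Sta.op (s : Sta) (N : Finset ℕ) (e : ℕ) : Sta := if e ∈ N then s.ctr e else s.del e

/-- Successive special merges; the number counts the series merges. -/
inductive Mg : Sta → Sta → ℕ → Prop
  | refl (s : Sta) : Mg s s 0
  | par {s t : Sta} {n x y : ℕ} : x ∈ s.A → y ∈ s.A → x ≠ y → Par s.k x y →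
      Mg (s.par x y) t n → Mg s t n
  | ser {s t : Sta} {n x y : ℕ} : x ∈ s.B → y ∈ s.B → x ≠ y → Ser s.k s.E x y →
      Mg (s.ser x y) t n → Mg s t (n + 1)

/-- The weights: `-1 - r` on `A`, `r ^ 2 - 1` on `B`, and `u` elsewhere. -/
noncomputable def wt (r : ℝ) (s : Sta) (u : ℕ → ℝ) : ℕ → ℝ :=
  fun x => if x ∈ s.A then -1 - r else if x ∈ s.B then r ^ 2 - 1 else u x

/-! ### Numbers -/

/-- The parameters. -/
structure Pm (q r ε κ : ℝ) : Prop where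
  sys : Sys q r (r ^ 2) ε 0 fun _ _ => False
  hq : q = (1 + r) ^ 2 * (1 - r)
  r0 : 1 / 3 < r
  k0 : 0 ≤ κ
  k1 : κ < 1

/-- The four merges of special weights that are not special satisfy `P`. -/
def NS (q r : ℝ) (P : ℝ → Prop) : Prop :=
  P (-1 - r + (r ^ 2 - 1) + (-1 - r) * (r ^ 2 - 1)) ∧
  P (r ^ 2 - 1 + (r ^ 2 - 1) + (r ^ 2 - 1) * (r ^ 2 - 1)) ∧
  P ((-1 - r) * (-1 - r) / (q + (-1 - r) + (-1 - r))) ∧
  P ((-1 - r) * (r ^ 2 - 1) / (q + (-1 - r) + (r ^ 2 - 1)))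

/-- The graded system, levels `2, …, J`. -/
structure Gs (q r ε κ η : ℝ) (J : ℕ) (I : ℕ → ℝ → Prop) : Prop where
  two : 2 ≤ J
  sub : ∀ g, 2 ≤ g → g ≤ J → ∀ v, I g v → Vw (κ * r) (κ * r ^ 2) v
  ns : NS q r (I 2)
  gpar : ∀ g, 2 ≤ g → g < J → ∀ v w, I g v → Vw r (r ^ 2) w → I (g + 1) (v + w + v * w)
  gser : ∀ g, 2 ≤ g → g < J → ∀ v w, I g v → Vw r (r ^ 2) w → I (g + 1) (v * w / (q + v + w))
  top : ∀ v y, I J v → -r ≤ y → y ≤ r ^ 2 → ε * (1 + v) * y ≤ ε * (1 - q) + η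

def S_Num : Prop :=
  ∀ q r : ℝ, q = (1 + r) ^ 2 * (1 - r) → q ≠ 1 → 1 / 3 < r → r < 1 →
    ∃ κ, Pm q r (SignType.sign (1 - q) : ℝ) κ ∧
      ∀ η, 0 < η → ∃ J I, Gs q r (SignType.sign (1 - q) : ℝ) κ η J I

/-- Comparison of `al` at an element of inner weight with `al` at another element. -/
def Cmp (q r κ : ℝ) : Prop :=
  ∃ c : ℝ, 0 < c ∧ ∀ (k : KF) E (v : ℕ → ℝ) x f, IsK k → Conn k E → x ∈ E → f ∈ E → x ≠ f →
    (∀ e ∈ E, Vw r (r ^ 2) (v e)) → Vw (κ * r) (κ * r ^ 2) (v x) →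
    al q k v E x ≤ c * al q k v E f

def S_Cp : Prop := ∀ q r ε κ, Pm q r ε κ → Cmp q r κ

/-! ### The moves -/

/-- The class lemma. -/
def CL (C : KF → Finset ℕ → Prop) : Prop :=
  ∀ (s : Sta) (N : Finset ℕ) f, C s.k s.E → s.WF → Tc s.k s.E → 4 ≤ s.E.card → f ∈ s.E →
    f ∉ s.A → f ∉ s.B → s.A ⊆ N → Disjoint s.B N →
    ∃ e ∈ s.E, e ≠ f ∧ ∃ t n, n ≤ 2 ∧ Mg (s.op N e) t n ∧ t.Rd ∧ 3 ≤ t.E.card

/-- The moves. -/
def Step (C : KF → Finset ℕ → Prop) : Prop :=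
  ∀ (s : Sta) (N : Finset ℕ) f, C s.k s.E → s.WF → Conn s.k s.E → s.Rd → f ∈ s.E →
    f ∉ s.A → f ∉ s.B → s.A ⊆ N → Disjoint s.B N → 3 ≤ s.E.card →
    (∃ e ∈ s.E, ∃ g ∈ s.E, e ≠ g ∧ e ≠ f ∧ g ≠ f ∧ (Par s.k e g ∨ Ser s.k s.E e g)) ∨
    ∃ e ∈ s.E, e ≠ f ∧ Conn s.k (s.E.erase e) ∧ Conn (con s.k e) (s.E.erase e) ∧
      ∃ t n, n ≤ 3 ∧ Mg (s.op N e) t n ∧ t.Rd

/-- Reduced on both sides of `X`. -/
def Half (t : Sta) (X : Finset ℕ) : Prop :=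
  Red t.k (t.A ∩ X) ∧ Red t.k (t.A \ X) ∧ RedS t.k t.E (t.B ∩ X) ∧ RedS t.k t.E (t.B \ X)

def S_Lift : Prop :=
  ∀ (s t' : Sta) (k' : KF) (Y N : Finset ℕ) f e n, s.WF → s.Rd → IsK k' → Y ⊆ s.E →
    f ∈ s.E \ Y → Tor s.k k' s.E Y f → Tc k' (insert f Y) → 3 ≤ Y.card → e ∈ Y →
    Mg (Sta.op ⟨k', insert f Y, s.A ∩ Y, s.B ∩ Y⟩ N e) t' n → t'.Rd →
    ∃ t, Mg (s.op N e) t n ∧ t'.E.erase f ⊆ t.E ∧ lam t.k t.E (t'.E.erase f) ≤ 1 ∧
      Half t (t'.E.erase f)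

def S_Shad : Prop :=
  ∀ (s : Sta) (X : Finset ℕ) f, s.WF → Conn s.k s.E → X ⊆ s.E → 2 ≤ X.card → f ∈ s.E → f ∉ X →
    f ∉ s.A → f ∉ s.B → lam s.k s.E X ≤ 1 → Half s X → ∃ t n, n ≤ 1 ∧ Mg s t n ∧ t.Rd

def S_Step : Prop := ∀ C, Mc C → CL C → Step C

/-- The bound for the negative part. -/
def Bnd (C : KF → Finset ℕ → Prop) (q r ε : ℝ) : Prop :=
  ∀ m : ℕ, ∃ M : ℕ, ∀ (s : Sta) f (u : ℕ → ℝ), C s.k s.E → s.WF → Conn s.k s.E → s.Rd →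
    f ∈ s.E → f ∉ s.A → f ∉ s.B → s.E ⊆ insert f (s.A ∪ s.B) → Vw r (r ^ 2) (u f) →
    2 ≤ s.E.card → M ≤ s.A.card + 2 * s.B.card →
    -(ε * (sg s.k s.E * Zk q s.k (wt r s u) s.E)) ≤ r ^ m * al q s.k (wt r s u) s.E f

def S_Bnd : Prop :=
  ∀ C q r ε κ, Mc C → Step C → Pm q r ε κ → (∀ η, 0 < η → ∃ J I, Gs q r ε κ η J I) →
    Cmp q r κ → Bnd C q r ε

/-- The sign rule for large reduced connected states. -/
def Pos (C : KF → Finset ℕ → Prop) (q r ε : ℝ) : Prop :=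
  ∃ M : ℕ, ∀ s : Sta, C s.k s.E → s.WF → Conn s.k s.E → s.Rd → s.E ⊆ s.A ∪ s.B →
    M ≤ s.E.card → 0 < ε * (sg s.k s.E * Zk q s.k (wt r s fun _ => 0) s.E)

def S_Main : Prop :=
  ∀ C q r ε κ, Mc C → Step C → Pm q r ε κ → NS q r (Vw (κ * r) (κ * r ^ 2)) → Bnd C q r ε →
    Pos C q r ε

/-! ### The class lemma for graphs -/

/-- A block: an element of `B` or a parallel pair in `A`. -/
def Blk (s : Sta) (D : Finset ℕ) : Prop :=
  (∃ b ∈ s.B, D = {b}) ∨ ∃ x ∈ s.A, ∃ y ∈ s.A, x ≠ y ∧ Par s.k x y ∧ D = {x, y}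

/-- The removal of two disjoint blocks does not change the count. -/
def Qb (s : Sta) : Prop :=
  ∀ D1 D2, Blk s D1 → Blk s D2 → Disjoint D1 D2 → s.k (s.E \ (D1 ∪ D2)) = s.k s.E

def S_PA : Prop := ∀ s : Sta, s.WF → Qb s → ∃ t, Mg s t 0 ∧ t.Rd

def S_SA : Prop :=
  ∀ (s : Sta) (P1 P2 : Finset ℕ), s.WF → s.A = ∅ → Disjoint P1 P2 →
    (∀ x ∈ s.B, ∀ y ∈ s.B, x ≠ y → Ser s.k s.E x y → P1 = {x, y} ∨ P2 = {x, y}) →
    (P1 ⊆ s.B → P2 ⊆ s.B → P1.card = 2 → P2.card = 2 → s.k (P1 ∪ P2) + 4 = s.k ∅) →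
    ∃ t n, n ≤ 2 ∧ Mg s t n ∧ t.Rd ∧ s.E.card ≤ t.E.card + 2

section graphs

variable {V : Type}

/-- A cubic common neighbour with two edges of type `a` and one of type `b`. -/
def Bad1 (adj a b : V → V → Prop) (u v : V) : Prop :=
  ∃ w x, a w u ∧ a w v ∧ b w x ∧ ∀ z, adj w z → z = u ∨ z = v ∨ z = x

/-- Four vertices, the other two being joined to `u` and `v` by edges of type `a`. -/
def Bad2 (U : Finset V) (a : V → V → Prop) (u v : V) : Prop :=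
  U.card = 4 ∧ ∀ w ∈ U, w ≠ u → w ≠ v → a w u ∧ a w v

/-- A triangle of type `a` with cubic vertices and legs of type `b`. -/
def Tri (adj a b : V → V → Prop) (u v w x y z : V) : Prop :=
  a u v ∧ a u w ∧ a v w ∧ b w x ∧ b v y ∧ b u z ∧ (∀ p, adj w p → p = u ∨ p = v ∨ p = x) ∧
    (∀ p, adj v p → p = u ∨ p = w ∨ p = y) ∧ ∀ p, adj u p → p = v ∨ p = w ∨ p = z

end graphs

def S_G0 : Prop :=
  ∀ (V : Type) (U : Finset V) (adj a b c : V → V → Prop) (p q : V), T3 U adj →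
    (∀ x y, a x y → a y x) → (∀ x y, b x y → b y x) → (∀ x y, a x y → c x y) →
    (∀ x y, b x y → adj x y) → (∀ x y, c x y → adj x y) → (∀ x y, a x y → ¬ b x y) →
    adj p q → ¬ a p q →
    (∃ u v, c u v ∧ ¬ Same u v p q ∧ ¬ Bad1 adj a b u v ∧ ¬ Bad2 U a u v) ∨
    (∃ u v w x y z, Tri adj a b u v w x y z) ∨ ∀ u v, c u v → Same u v p q

/-- A three-connected simple graph given by edge positions. -/
structure Gg (n : ℕ) (L : List (ℕ × ℕ)) (U : Finset (Fin n)) (E A B : Finset ℕ) : Prop where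
  val : Valid (n, L)
  sub : E ⊆ range L.length
  t3 : T3 U (Ad n L E)
  tc : Tc (comps n L) E
  rk : comps n L E + U.card = n + 1
  simp : ∀ i ∈ E, ∀ j ∈ E, ∀ x y : Fin n, Ends L i x y → Ends L j x y → i = j
  sa : A ⊆ E
  sb : B ⊆ E
  dj : Disjoint A B

def S_G1 : Prop :=
  ∀ n L U E A B e (u v : Fin n), Gg n L U E A B → e ∈ E → Ends L e u v →
    ¬ Bad1 (Ad n L E) (Ad n L A) (Ad n L B) u v → ¬ Bad2 U (Ad n L A) u v →
    Qb (Sta.ctr ⟨comps n L, E, A, B⟩ e)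

def S_G2 : Prop :=
  ∀ n L U E A B (u v w x y z : Fin n), Gg n L U E A B →
    Tri (Ad n L E) (Ad n L A) (Ad n L B) u v w x y z →
    ∃ e ∈ A, ∃ t, Mg (Sta.ctr ⟨comps n L, E, A, B⟩ e) t 1 ∧ t.Rd ∧ 3 ≤ t.E.card

def S_G3 : Prop :=
  ∀ n L U E B f, Gg n L U E ∅ B → f ∈ E → f ∉ B →
    ∃ e ∈ E, e ≠ f ∧ ∃ t m, m ≤ 2 ∧ Mg (Sta.del ⟨comps n L, E, ∅, B⟩ e) t m ∧ t.Rd ∧
      3 ≤ t.E.card

def S_CL : Prop := CL Gr

/-! ### Algorithms -/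

/-- Contraction of a set. -/
def cn (k : KF) (T : Finset ℕ) : KF := fun A => k (A ∪ T)

/-- All elements are of the first type or all are of the second type. -/
def st0 (k : KF) (m : ℕ) (b : Bool) : Sta :=
  ⟨k, range m, if b then range m else ∅, if b then ∅ else range m⟩

def S_Norm : Prop :=
  ∀ κ k, Orc κ k → ∀ b : Bool, ∃ C A B : Inp → List ℕ, PT C ∧ PT A ∧ PT B ∧ ∀ G, Valid G →
    (A G ++ B G).Nodup ∧ (∀ i ∈ C G, i < G.2.length) ∧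
    Mg (st0 (k G) G.2.length b)
      ⟨cn (k G) (C G).toFinset, (A G ++ B G).toFinset, (A G).toFinset, (B G).toFinset⟩
      (C G).length ∧
    Sta.Rd ⟨cn (k G) (C G).toFinset, (A G ++ B G).toFinset, (A G).toFinset, (B G).toFinset⟩

def S_Algo : Prop :=
  ∀ q r ε κ : ℝ, Pm q r ε κ → Pos Gr q r ε → Easy q (-1 - r) ∧ Easy q (r ^ 2 - 1)

end Pool.Agent.P.MP_e0c037_lc.BD
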