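import Pool.Agent.P.MP_e0c037_lc.BD.Glue
import Pool.Agent.P.MP_e0c037_lc.BD.Num
import Pool.Agent.P.MP_e0c037_lc.BD.Cp
import Pool.Agent.P.MP_e0c037_lc.BD.LiftB
import Pool.Agent.P.MP_e0c037_lc.BD.Shad
import Pool.Agent.P.MP_e0c037_lc.BD.StepB
import Pool.Agent.P.MP_e0c037_lc.BD.Bnd
import Pool.Agent.P.MP_e0c037_lc.BD.MainB
import Pool.Agent.P.MP_e0c037_lc.BD.PA
import Pool.Agent.P.MP_e0c037_lc.BD.SA
import Pool.Agent.P.MP_e0c037_lc.BD.G0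
import Pool.Agent.P.MP_e0c037_lc.BD.G1
import Pool.Agent.P.MP_e0c037_lc.BD.G2
import Pool.Agent.P.MP_e0c037_lc.BD.G3
import Pool.Agent.P.MP_e0c037_lc.BD.CLB
import Pool.Agent.P.MP_e0c037_lc.BD.Norm
import Pool.Agent.P.MP_e0c037_lc.BD.AlgoB
import Pool.Agent.P.MP_e0c037_lc.SG.Tor
import Pool.Agent.P.MP_e0c037_lc.SG.Contr
import Pool.Agent.P.MP_e0c037_lc.SG.Cmp
import Pool.Agent.P.MP_e0c037_lc.SG.Reg
import Pool.Agent.P.MP_e0c037_lc.SG.T3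
import Pool.Agent.P.MP_e0c037_lc.SG.Parts
import Pool.Agent.P.MP_e0c037_lc.SG.Dual

/-! The closed diamond. -/

namespace Pool.Agent.P.MP_e0c037_lc.BD

theorem easy_boundary (q r : ℝ) (hq : q = (1 + r) ^ 2 * (1 - r)) (hq1 : q ≠ 1) (r0 : 1 / 3 < r)
    (r1 : r < 1) : SG.Easy q (-1 - r) ∧ SG.Easy q (r ^ 2 - 1) :=
  easy_bd p_Num p_Cp (p_Step SG.p_Tor p_Lift p_Shad) p_Bnd p_Main
    (p_CL p_G0 (p_G1 SG.p_Con SG.p_Cmp) p_G2 (p_G3 (SG.p_Reg SG.p_Dc) SG.p_Dc SG.p_Cmp p_SA) p_PA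
      (SG.p_T3 SG.p_Cmp))
    (p_Algo p_Norm SG.p_Parts SG.p_Dual (SG.p_Mc SG.p_Con)) (SG.p_Mc SG.p_Con) hq hq1 r0 r1

theorem p_Dia : WP.S_Dia := dia_of easy_boundary

theorem polytime_closed {q w v : ℝ} (hq : q ∈ Set.Ioo (0 : ℝ) 1 ∪ Set.Ioo 1 (32 / 27))
    (hw : IsMiddleRoot q w) (h1 : q / w ≤ v) (h2 : v ≤ w) :
    ∃ f : ℕ × List (ℕ × ℕ) → ℤ,
      Nonempty (Turing.TM2ComputableInPolyTime encGraph encInt f) ∧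
      ∀ (n : ℕ) (L : List (ℕ × ℕ)), (∀ e ∈ L, e.1 < n ∧ e.2 < n) →
        f (n, L) = (SignType.sign (dichromatic n L q v) : ℤ) :=
  closed_of easy_boundary hq hw h1 h2

end Pool.Agent.P.MP_e0c037_lc.BD
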