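import Pool.Agent.P.MP_e0c037_lc.WP.Defs
import Pool.Agent.P.MP_e0c037_lc.SG.Glue
import Pool.Agent.P.MP_e0c037_lc.SG.Contr
import Pool.Agent.P.MP_e0c037_lc.R3.Main

/-! Below the line `v = -q` the complexity depends only on the signs of flow polynomials. -/

namespace Pool.Agent.P.MP_e0c037_lc.BD

open Finset Function SG Pool.Agent.Lib.helper21

/-- No multigraph has a negative flow polynomial at `q`. -/
def FlowNN (q : ℝ) : Prop :=
  ∀ (n : ℕ) (L : List (ℕ × ℕ)), (∀ e ∈ L, e.1 < n ∧ e.2 < n) →
    0 ≤ (-1) ^ L.length * dichromatic n L q (-q)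

theorem Zk_loop {q : ℝ} {k : KF} {w : ℕ → ℝ} {E : Finset ℕ} {i : ℕ} (hi : i ∈ E)
    (h : ∀ A, k (insert i A) = k A) : Zk q k w E = (1 + w i) * Zk q k w (E.erase i) := by
  rw [Zk_erase hi, show con k i = k from funext h]; ring

theorem Zk_loops {q : ℝ} {k : KF} (E : Finset ℕ) (h : ∀ i ∈ E, ∀ A, k (insert i A) = k A) :
    Zk q k (fun _ => -q) E = (1 - q) ^ E.card * q ^ k ∅ := by
  induction E using Finset.induction_on with
  | empty => simp [Zk_empty]
  | insert i E hi ih =>
    rw [Zk_loop (mem_insert_self _ _) (h i (mem_insert_self _ _)), erase_insert hi,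
      ih fun j hj => h j (mem_insert_of_mem hj), card_insert_of_notMem hi]
    ring

theorem mixed {q v : ℝ} (hq : 1 < q) (hv : v < -q) (H : FlowNN q) (n j : ℕ) :
    ∀ L : List (ℕ × ℕ), Valid (n, L) → j ≤ L.length →
      0 ≤ (-1) ^ L.length * Zk q (comps n L) (fun i => if i < j then v else -q) (range L.length) ∧
      ((∀ i, j ≤ i → i < L.length → ∀ A, comps n L (insert i A) = comps n L A) →
        0 < (-1) ^ L.length *
          Zk q (comps n L) (fun i => if i < j then v else -q) (range L.length)) := by
  induction j with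
  | zero =>
    intro L hL _
    simp only [Nat.not_lt_zero, if_false]
    refine ⟨by simpa [dichromatic, Zk] using H n L hL, fun h => ?_⟩
    rw [Zk_loops _ fun i hi => h i (Nat.zero_le _) (mem_range.1 hi), card_range, ← mul_assoc,
      ← mul_pow]
    exact mul_pos (pow_pos (by linarith) _) (pow_pos (by linarith) _)
  | succ j ih =>
    intro L hL hj
    have hm : j ∈ range L.length := mem_range.2 hj
    obtain ⟨L', d, v1, v2, v3⟩ := Con.step p_Con hL hj
    obtain ⟨a1, -⟩ := ih L hL (by omega)
    obtain ⟨b1, b2⟩ := ih L' v1 (by omega)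
    have e0 : ∀ k : KF, Zk q k (fun i => if i < j + 1 then v else -q) ((range L.length).erase j) =
        Zk q k (fun i => if i < j then v else -q) ((range L.length).erase j) := fun k =>
      Zk_congr (fun _ _ => rfl) fun i hi => by
        have := ne_of_mem_erase hi
        by_cases h : i < j
        · rw [if_pos h, if_pos (by omega)]
        · rw [if_neg h, if_neg (by omega)]
    have l1 : ∀ A, comps n L' (insert j A) = comps n L' A := fun A => by
      rw [v3, v3, insert_idem]
    rw [v2, Zk_loop hm l1, Zk_shift_add (k := con (comps n L) j) (c := d)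
      fun A _ => (v3 A).symm, if_neg (lt_irrefl j)] at b1 b2
    rw [Zk_erase hm, if_neg (lt_irrefl j)] at a1
    rw [Zk_erase hm, e0, e0, if_pos (Nat.lt_succ_self j)]
    generalize Zk q (con (comps n L) j) _ _ = y at a1 b1 b2 ⊢
    generalize Zk q (comps n L) _ _ = x at a1 ⊢
    generalize (-1 : ℝ) ^ L.length = s at a1 b1 b2 ⊢
    have p : 0 < (q - 1) * q ^ d := mul_pos (by linarith) (pow_pos (by linarith) _)
    constructor
    · have : 0 ≤ -(s * y) := nonneg_of_mul_nonneg_right (a := (q - 1) * q ^ d) (by linarith) p
      nlinarith [mul_nonneg this (by linarith : 0 ≤ -(v + q))]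
    · intro h
      have c := b2 fun i h1 h2 A => by
        rcases h1.eq_or_lt with rfl | h1
        · exact l1 A
        · rw [v3, v3, Finset.insert_comm, h i h1 h2]
      have : 0 < -(s * y) := pos_of_mul_pos_left (b := (q - 1) * q ^ d) (by linarith) p.le
      nlinarith [mul_pos this (by linarith : 0 < -(v + q))]

theorem sign_below {q v : ℝ} (hq : 1 < q) (hv : v < -q) (H : FlowNN q) (n : ℕ)
    (L : List (ℕ × ℕ)) (hL : Valid (n, L)) : 0 < (-1) ^ L.length * dichromatic n L q v := by
  have := (mixed hq hv H n L.length L hL le_rfl).2 fun i h1 h2 => absurd h2 (by omega)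
  rw [Zk_congr (k' := comps n L) (v' := fun _ => v) (fun _ _ => rfl)
    fun i hi => if_pos (mem_range.1 hi)] at this
  simpa [dichromatic, Zk] using this

/-- The dichotomy below the line `v = -q`. -/
theorem r3_dich {q v : ℝ} (hq : 3 ≤ q) (hv : v ≤ -q) :
    (FlowNN q → v < -q → WP.InP q v) ∧ (¬ FlowNN q → WP.Hard q v) := by
  refine ⟨fun H hv => Easy.tm ⟨fun G => (-1) ^ G.2.length, by fun_prop, fun G hG => ?_⟩,
    fun H f hf => ?_⟩
  · have := sign_below (by linarith) hv H G.1 G.2 hG
    dsimp only
    rcases Nat.even_or_odd G.2.length with h | h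
    · rw [h.neg_one_pow] at this ⊢
      rw [sign_pos (by linarith)]; rfl
    · rw [h.neg_one_pow] at this ⊢
      rw [sign_neg (by linarith)]; rfl
  · unfold FlowNN at H
    push Not at H
    obtain ⟨n, L, hL, h⟩ := H
    exact R3.reduces R3.cl hq hv hL (by rwa [R3.flow_eq] at h) f hf

/-- Every bridgeless multigraph has a positive flow polynomial at `q`. -/
def FlowPos (q : ℝ) : Prop :=
  ∀ (n : ℕ) (L : List (ℕ × ℕ)), (∀ e ∈ L, e.1 < n ∧ e.2 < n) →
    (∀ i < L.length, comps n L ((range L.length).erase i) = comps n L (range L.length)) →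
    0 < (-1) ^ L.length * dichromatic n L q (-q)

theorem Z_bridge {q : ℝ} {n : ℕ} {L : List (ℕ × ℕ)} {i : ℕ} (hi : i < L.length)
    (h : comps n L ((range L.length).erase i) ≠ comps n L (range L.length)) :
    dichromatic n L q (-q) = 0 := by
  have hm := mem_range.2 hi
  have k := isK_comps n L
  have a1 := k.le ((range L.length).erase i) i
  have a2 := k.ge ((range L.length).erase i) i
  have e : dichromatic n L q (-q) = Zk q (comps n L) (fun _ => -q) (range L.length) := by
    simp [dichromatic, Zk]
  rw [e, Zk_erase hm, Zk_shift (k' := con (comps n L) i) fun A hA =>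
    ser_eq k (by rw [insert_erase hm] at a1 a2 ⊢; omega) hA]
  ring

theorem FlowPos.nn {q : ℝ} (H : FlowPos q) : FlowNN q := fun n L hL => by
  by_cases h : ∀ i < L.length, comps n L ((range L.length).erase i) = comps n L (range L.length)
  · exact (H n L hL h).le
  · push Not at h
    obtain ⟨i, hi, h⟩ := h
    rw [Z_bridge hi h, mul_zero]

/-- On the line `v = -q`. -/
theorem FlowPos.inP {q : ℝ} (H : FlowPos q) : WP.InP q (-q) := by
  refine Easy.tm ⟨fun G => cond ((List.range G.2.length).all fun i =>
    decide (kk G ((List.range G.2.length).filter fun j => !decide (j = i)) =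
      kk G (List.range G.2.length))) ((-1) ^ G.2.length) 0, by fun_prop, fun ⟨n, L⟩ hG => ?_⟩
  have key : ((List.range L.length).all fun i =>
      decide (kk (n, L) ((List.range L.length).filter fun j => !decide (j = i)) =
        kk (n, L) (List.range L.length))) = true ↔ ∀ i < L.length,
        comps n L ((range L.length).erase i) = comps n L (range L.length) := by
    simp only [decide_eq_true_eq, List.all_eq_true, List.mem_range]
    refine forall₂_congr fun i _ => ?_
    rw [kk_eq hG fun j hj => List.mem_range.1 (List.mem_filter.1 hj).1,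
      kk_eq hG fun j hj => List.mem_range.1 hj, List.toFinset_range]
    have : ((List.range L.length).filter fun j => !decide (j = i)).toFinset =
        (range L.length).erase i := by
      ext x; simp [and_comm]
    rw [this]
  dsimp only
  by_cases h : ∀ i < L.length, comps n L ((range L.length).erase i) = comps n L (range L.length)
  · rw [key.2 h]
    have h3 := H n L hG h
    rcases Nat.even_or_odd L.length with hm | hm
    · rw [hm.neg_one_pow] at h3 ⊢
      rw [sign_pos (by linarith)]; rfl
    · rw [hm.neg_one_pow] at h3 ⊢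
      rw [sign_neg (by linarith)]; rfl
  · rw [Bool.eq_false_iff.2 fun hh => h (key.1 hh)]
    push Not at h
    obtain ⟨i, hi, h⟩ := h
    rw [Z_bridge hi h]
    simp

end Pool.Agent.P.MP_e0c037_lc.BD
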